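import Pool.Agent.Lib.MP_decea1_gt_F.Stereo

/-!
# MP_decea1_gt, block F: `toSphere` in the stereographic chart

`toSphere (sig '' A) = ∫_A 8 (1+|x|²)^(-3) dx`.  Proof: by `Measure.toSphere_apply'` the left side is
`4` times the volume of the cone `(0,1) • sig '' A`, the image of `A × (0,1)` under the injective map
`con w = w 3 • sig (w 0, w 1, w 2)` of `E4`, whose Jacobian determinant is (up to sign)
`(w 3)³ · 8 (1+|x|²)^(-3)`.
-/

set_option autoImplicit false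
open Set Filter Topology MeasureTheory
open scoped ContDiff Pointwise

namespace Pool.Agent.QM59

/-- the first three coordinates -/
def pr3 (w : E4) : E3 := ![w 0, w 1, w 2]

/-- the cone map -/
noncomputable def con (w : E4) : E4 := w 3 • sig (pr3 w)

private theorem Cone_contDiff_pr3 : ContDiff ℝ smo pr3 := by
  have hc : ∀ i : Fin 4, ContDiff ℝ smo fun v : E4 => v i := fun i => by fun_prop
  rw [contDiff_pi]
  intro i
  fin_cases i
  · exact hc 0
  · exact hc 1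
  · exact hc 2

theorem contDiff_con : ContDiff ℝ smo con := by
  have hc : ContDiff ℝ smo fun v : E4 => v 3 := by fun_prop
  exact hc.smul (contDiff_sig.comp Cone_contDiff_pr3)

theorem injOn_con : InjOn con {w | 0 < w 3} := by
  intro v hv w hw h
  have hv' : 0 < v 3 := hv
  have hw' : 0 < w 3 := hw
  have h' : v 3 • sig (pr3 v) = w 3 • sig (pr3 w) := h
  have h2 : v 3 = w 3 := by
    have h3 := congrArg norm h'
    rw [norm_smul, norm_smul, norm_sig, norm_sig, mul_one, mul_one, Real.norm_eq_abs,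
      Real.norm_eq_abs, abs_of_pos hv', abs_of_pos hw'] at h3
    exact h3
  have h4 : sig (pr3 v) = sig (pr3 w) := by
    rw [h2] at h'
    exact smul_right_injective E4 hw'.ne' h'
  have h5 : pr3 v = pr3 w := by rw [← st_sig (pr3 v), h4, st_sig]
  ext i
  fin_cases i
  · exact congrFun h5 0
  · exact congrFun h5 1
  · exact congrFun h5 2
  · exact h2

/-! ### The Jacobian -/

/-- the denominator -/
private noncomputable def coneQ (v : Fin 4 → ℝ) : ℝ := 1 + (v 0 ^ 2 + v 1 ^ 2 + v 2 ^ 2)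

private theorem coneQ_pos (v : Fin 4 → ℝ) : 0 < coneQ v := by unfold coneQ; positivity

/-- the map in coordinates -/
private noncomputable def conePsi (v : Fin 4 → ℝ) : Fin 4 → ℝ :=
  ![2 * (v 3 * v 0) * (coneQ v)⁻¹, 2 * (v 3 * v 1) * (coneQ v)⁻¹, 2 * (v 3 * v 2) * (coneQ v)⁻¹,
    v 3 - 2 * v 3 * (coneQ v)⁻¹]

/-- its Jacobian matrix -/
private noncomputable def coneM (v : Fin 4 → ℝ) : Matrix (Fin 4) (Fin 4) ℝ :=
  !![2 * v 3 * (coneQ v)⁻¹ - 4 * v 3 * v 0 ^ 2 * ((coneQ v)⁻¹) ^ 2,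
      - (4 * v 3 * v 0 * v 1 * ((coneQ v)⁻¹) ^ 2), - (4 * v 3 * v 0 * v 2 * ((coneQ v)⁻¹) ^ 2),
      2 * v 0 * (coneQ v)⁻¹;
    - (4 * v 3 * v 0 * v 1 * ((coneQ v)⁻¹) ^ 2),
      2 * v 3 * (coneQ v)⁻¹ - 4 * v 3 * v 1 ^ 2 * ((coneQ v)⁻¹) ^ 2,
      - (4 * v 3 * v 1 * v 2 * ((coneQ v)⁻¹) ^ 2), 2 * v 1 * (coneQ v)⁻¹;
    - (4 * v 3 * v 0 * v 2 * ((coneQ v)⁻¹) ^ 2), - (4 * v 3 * v 1 * v 2 * ((coneQ v)⁻¹) ^ 2),
      2 * v 3 * (coneQ v)⁻¹ - 4 * v 3 * v 2 ^ 2 * ((coneQ v)⁻¹) ^ 2, 2 * v 2 * (coneQ v)⁻¹;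
    4 * v 3 * v 0 * ((coneQ v)⁻¹) ^ 2, 4 * v 3 * v 1 * ((coneQ v)⁻¹) ^ 2,
      4 * v 3 * v 2 * ((coneQ v)⁻¹) ^ 2, 1 - 2 * (coneQ v)⁻¹]

/-- the derivative -/
private noncomputable def conePsi' (v : Fin 4 → ℝ) : (Fin 4 → ℝ) →L[ℝ] (Fin 4 → ℝ) :=
  LinearMap.toContinuousLinearMap (Matrix.toLin' (coneM v))

private theorem coneM_sq (v : Fin 4 → ℝ) :
    (coneM v).transpose * coneM v =
      Matrix.diagonal ![4 * v 3 ^ 2 * ((coneQ v)⁻¹) ^ 2, 4 * v 3 ^ 2 * ((coneQ v)⁻¹) ^ 2,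
        4 * v 3 ^ 2 * ((coneQ v)⁻¹) ^ 2, 1] := by
  have hs : (coneQ v)⁻¹ * (1 + (v 0 ^ 2 + v 1 ^ 2 + v 2 ^ 2)) = 1 :=
    inv_mul_cancel₀ (coneQ_pos v).ne'
  ext i j
  rw [Matrix.mul_apply, Fin.sum_univ_four]
  generalize hsdef : (coneQ v)⁻¹ = s at hs
  fin_cases i <;> fin_cases j <;> simp [coneM, Matrix.diagonal, hsdef] <;>
  first
  | linear_combination (16 * v 3 ^ 2 * v 0 * v 0 * s ^ 3) * hs
  | linear_combination (16 * v 3 ^ 2 * v 0 * v 1 * s ^ 3) * hs
  | linear_combination (16 * v 3 ^ 2 * v 0 * v 2 * s ^ 3) * hs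
  | linear_combination (16 * v 3 ^ 2 * v 1 * v 1 * s ^ 3) * hs
  | linear_combination (16 * v 3 ^ 2 * v 1 * v 2 * s ^ 3) * hs
  | linear_combination (16 * v 3 ^ 2 * v 2 * v 2 * s ^ 3) * hs
  | linear_combination (-8 * v 3 * v 0 * s ^ 2) * hs
  | linear_combination (-8 * v 3 * v 1 * s ^ 2) * hs
  | linear_combination (-8 * v 3 * v 2 * s ^ 2) * hs
  | linear_combination (4 * s) * hs

private theorem abs_det_conePsi' (v : Fin 4 → ℝ) :
    |(conePsi' v).det| = |v 3| ^ 3 * (8 * ((coneQ v) ^ 3)⁻¹) := by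
  have h : (conePsi' v).det = (coneM v).det := by
    rw [conePsi', ContinuousLinearMap.det, LinearMap.coe_toContinuousLinearMap,
      LinearMap.det_toLin']
  have hq := coneQ_pos v
  have h1 : (coneM v).det ^ 2 = (|v 3| ^ 3 * (8 * ((coneQ v) ^ 3)⁻¹)) ^ 2 := by
    have e : (coneM v).det ^ 2 = ((coneM v).transpose * coneM v).det := by
      rw [Matrix.det_mul, Matrix.det_transpose, sq]
    rw [e, coneM_sq, Matrix.det_diagonal, Fin.prod_univ_four]
    have h3 : (|v 3| ^ 3) ^ 2 = (v 3 ^ 2) ^ 3 := by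
      rw [← sq_abs (v 3)]; ring
    rw [mul_pow, h3]
    simp
    field_simp
    ring
  rw [h, ← sq_eq_sq₀ (abs_nonneg _) (by positivity), sq_abs, h1]

private theorem hasFDerivAt_conePsi (v : Fin 4 → ℝ) : HasFDerivAt conePsi (conePsi' v) v := by
  have hc : ∀ i : Fin 4, HasFDerivAt (fun v : Fin 4 → ℝ => v i)
      (ContinuousLinearMap.proj (R := ℝ) (φ := fun _ : Fin 4 => ℝ) i) v := fun i =>
    hasFDerivAt_apply i v
  have hq : HasFDerivAt coneQ _ v :=
    ((((hc 0).pow 2).add ((hc 1).pow 2)).add ((hc 2).pow 2)).const_add 1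
  have hqi := (hasDerivAt_inv (coneQ_pos v).ne').comp_hasFDerivAt v hq
  rw [hasFDerivAt_pi']
  intro i
  fin_cases i
  · have h := (((hc 3).mul (hc 0)).const_mul 2).mul hqi
    refine HasFDerivAt.congr_fderiv (f := fun v => conePsi v 0) h ?_
    ext w
    simp [conePsi', coneM, Matrix.toLin'_apply, dotProduct, Fin.sum_univ_four]
    ring
  · have h := (((hc 3).mul (hc 1)).const_mul 2).mul hqi
    refine HasFDerivAt.congr_fderiv (f := fun v => conePsi v 1) h ?_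
    ext w
    simp [conePsi', coneM, Matrix.toLin'_apply, dotProduct, Fin.sum_univ_four]
    ring
  · have h := (((hc 3).mul (hc 2)).const_mul 2).mul hqi
    refine HasFDerivAt.congr_fderiv (f := fun v => conePsi v 2) h ?_
    ext w
    simp [conePsi', coneM, Matrix.toLin'_apply, dotProduct, Fin.sum_univ_four]
    ring
  · have h := (hc 3).sub (((hc 3).const_mul 2).mul hqi)
    refine HasFDerivAt.congr_fderiv (f := fun v => conePsi v 3) h ?_
    ext w
    simp [conePsi', coneM, Matrix.toLin'_apply, dotProduct, Fin.sum_univ_four]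
    ring

private theorem coneQ_eq (w : E4) : coneQ (WithLp.ofLp w) = 1 + nq (pr3 w) := by
  simp [coneQ, nq, pr3]

private theorem con_eq (w : E4) : con w = WithLp.toLp 2 (conePsi (WithLp.ofLp w)) := by
  have hq : (1 + nq (pr3 w)) ≠ 0 := (one_add_nq_pos _).ne'
  ext i
  fin_cases i
  · change w 3 * (2 * w 0 / (1 + nq (pr3 w))) = 2 * (w 3 * w 0) * (coneQ (WithLp.ofLp w))⁻¹
    rw [coneQ_eq]
    field_simp
  · change w 3 * (2 * w 1 / (1 + nq (pr3 w))) = 2 * (w 3 * w 1) * (coneQ (WithLp.ofLp w))⁻¹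
    rw [coneQ_eq]
    field_simp
  · change w 3 * (2 * w 2 / (1 + nq (pr3 w))) = 2 * (w 3 * w 2) * (coneQ (WithLp.ofLp w))⁻¹
    rw [coneQ_eq]
    field_simp
  · change w 3 * (1 - 2 / (1 + nq (pr3 w))) = w 3 - 2 * w 3 * (coneQ (WithLp.ofLp w))⁻¹
    rw [coneQ_eq]
    field_simp

theorem det_con (w : E4) : |(fderiv ℝ con w).det| = |w 3| ^ 3 * (8 * ((1 + nq (pr3 w)) ^ 3)⁻¹) := by
  set L := PiLp.continuousLinearEquiv 2 ℝ (fun _ : Fin 4 => ℝ) with hL
  have h1 : HasFDerivAt con ((L.symm : (Fin 4 → ℝ) →L[ℝ] E4).comp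
      ((conePsi' (L w)).comp (L : E4 →L[ℝ] (Fin 4 → ℝ)))) w := by
    have h2 : HasFDerivAt (fun w : E4 => L.symm (conePsi (L w))) ((L.symm : (Fin 4 → ℝ) →L[ℝ] E4).comp
        ((conePsi' (L w)).comp (L : E4 →L[ℝ] (Fin 4 → ℝ)))) w :=
      L.symm.hasFDerivAt.comp w ((hasFDerivAt_conePsi (L w)).comp w L.hasFDerivAt)
    have h3 : con = fun w : E4 => L.symm (conePsi (L w)) := by
      funext w
      exact con_eq w
    rw [h3]
    exact h2
  rw [h1.fderiv]
  have h4 : ((L.symm : (Fin 4 → ℝ) →L[ℝ] E4).comp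
      ((conePsi' (L w)).comp (L : E4 →L[ℝ] (Fin 4 → ℝ)))).det = (conePsi' (L w)).det := by
    have h5 := LinearMap.det_conj ((conePsi' (L w)).toLinearMap) L.symm.toLinearEquiv
    exact h5
  rw [h4, abs_det_conePsi']
  have h6 : coneQ (L w) = 1 + nq (pr3 w) := coneQ_eq w
  rw [h6]
  rfl

/-! ### Fubini -/

private theorem cone_int_cube : (∫⁻ t in Ioo (0 : ℝ) 1, ENNReal.ofReal (t ^ 3)) = 4⁻¹ := by
  rw [← ofReal_integral_eq_lintegral_ofReal]
  · rw [← integral_Ioc_eq_integral_Ioo, ← intervalIntegral.integral_of_le zero_le_one,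
      integral_pow]
    norm_num
    rw [one_div, ENNReal.ofReal_inv_of_pos (by norm_num)]
    norm_num
  · exact (continuous_pow 3).integrableOn_Icc.mono_set Ioo_subset_Icc_self
  · refine (ae_restrict_iff' measurableSet_Ioo).2 (Filter.Eventually.of_forall fun t ht => ?_)
    have : (0 : ℝ) < t := ht.1
    change (0 : ℝ) ≤ t ^ 3
    positivity

/-- integration over `A × (0,1)` in `E4` -/
theorem lintegral_cyl {A : Set E3} (hA : MeasurableSet A) {g : E3 → ENNReal} (hg : Measurable g) :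
    ∫⁻ w in {w : E4 | pr3 w ∈ A ∧ w 3 ∈ Ioo (0:ℝ) 1}, ENNReal.ofReal (w 3 ^ 3) * g (pr3 w) =
      4⁻¹ * ∫⁻ x in A, g x := by
  set e1 := (MeasurableEquiv.toLp 2 (Fin 4 → ℝ)).symm with he1
  have hm1 : MeasurePreserving e1 (volume : Measure E4) volume :=
    EuclideanSpace.volume_preserving_symm_measurableEquiv_toLp (Fin 4)
  set e2 := MeasurableEquiv.piFinSuccAbove (fun _ : Fin 4 => ℝ) 3 with he2
  have hm2 : MeasurePreserving e2 volume volume :=
    volume_preserving_piFinSuccAbove (fun _ : Fin 4 => ℝ) 3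
  have hm : MeasurePreserving (e1.trans e2) (volume : Measure E4) (volume : Measure (ℝ × E3)) :=
    hm2.comp hm1
  have hap : ∀ w : E4, (e1.trans e2) w = (w 3, pr3 w) := by
    intro w
    apply Prod.ext
    · rfl
    · funext i
      fin_cases i <;> rfl
  have hs : {w : E4 | pr3 w ∈ A ∧ w 3 ∈ Ioo (0:ℝ) 1} = (e1.trans e2) ⁻¹' (Ioo (0 : ℝ) 1 ×ˢ A) := by
    ext w
    rw [mem_preimage, hap]
    simp only [Set.mem_ofPred_eq, mem_prod]
    tauto
  have hf : ∀ w : E4, ENNReal.ofReal (w 3 ^ 3) * g (pr3 w) =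
      (fun p : ℝ × E3 => ENNReal.ofReal (p.1 ^ 3) * g p.2) ((e1.trans e2) w) := by
    intro w
    rw [hap]
  simp_rw [hf]
  rw [hs, hm.setLIntegral_comp_preimage_emb (e1.trans e2).measurableEmbedding
    (fun p : ℝ × E3 => ENNReal.ofReal (p.1 ^ 3) * g p.2) (Ioo (0 : ℝ) 1 ×ˢ A)]
  change ∫⁻ p : ℝ × E3 in Ioo (0 : ℝ) 1 ×ˢ A,
    ENNReal.ofReal (p.1 ^ 3) * g p.2 ∂((volume : Measure ℝ).prod (volume : Measure E3)) = _
  rw [← Measure.prod_restrict, lintegral_prod_mul (f := fun t : ℝ => ENNReal.ofReal (t ^ 3)) (g := g)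
    (ENNReal.measurable_ofReal.comp (by fun_prop)).aemeasurable hg.aemeasurable, cone_int_cube]

/-- `toSphere` in the stereographic chart -/
theorem toSphere_sig {A : Set E3} (hA : MeasurableSet A) :
    (volume : Measure (EuclideanSpace ℝ (Fin 4))).toSphere ((fun y : S3 => (y : E4)) ⁻¹' (sig '' A)) =
      ∫⁻ x in A, ENNReal.ofReal (8 * ((1 + nq x) ^ 3)⁻¹) := by
  have hsig : MeasurableSet (sig '' A) := by
    refine hA.image_of_continuousOn_injOn contDiff_sig.continuous.continuousOn ?_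
    intro x _ y _ h
    rw [← st_sig x, h, st_sig]
  have hms : MeasurableSet ((fun y : S3 => (y : E4)) ⁻¹' (sig '' A)) :=
    measurable_subtype_coe hsig
  rw [Measure.toSphere_apply' _ hms]
  have himg : ((↑) : S3 → E4) '' ((fun y : S3 => (y : E4)) ⁻¹' (sig '' A)) = sig '' A := by
    apply Subset.antisymm
    · rintro _ ⟨y, hy, rfl⟩
      exact hy
    · rintro _ ⟨x, hx, rfl⟩
      exact ⟨⟨sig x, by rw [mem_sphere_zero_iff_norm]; exact norm_sig x⟩, ⟨x, hx, rfl⟩, rfl⟩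
  rw [himg]
  set S : Set E4 := {w : E4 | pr3 w ∈ A ∧ w 3 ∈ Ioo (0:ℝ) 1} with hS
  have hcone : Ioo (0 : ℝ) 1 • (sig '' A) = con '' S := by
    apply Subset.antisymm
    · intro z hz
      obtain ⟨t, ht, y, ⟨x, hx, rfl⟩, rfl⟩ := Set.mem_smul.1 hz
      have hp : pr3 (WithLp.toLp 2 ![x 0, x 1, x 2, t] : E4) = x := by
        funext i
        fin_cases i <;> rfl
      refine ⟨WithLp.toLp 2 ![x 0, x 1, x 2, t], ⟨?_, ?_⟩, ?_⟩
      · rw [hp]; exact hx
      · exact ht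
      · change (t : ℝ) • sig (pr3 (WithLp.toLp 2 ![x 0, x 1, x 2, t] : E4)) = t • sig x
        rw [hp]
    · rintro _ ⟨w, hw, rfl⟩
      exact Set.smul_mem_smul hw.2 ⟨_, hw.1, rfl⟩
  rw [hcone]
  have hpm : Measurable pr3 := Cone_contDiff_pr3.continuous.measurable
  have h3m : Measurable fun w : E4 => w 3 := by fun_prop
  have hSm : MeasurableSet S := (hpm hA).inter (h3m measurableSet_Ioo)
  have hinj : InjOn con S := injOn_con.mono fun w hw => hw.2.1
  have hder : ∀ w ∈ S, HasFDerivWithinAt con (fderiv ℝ con w) S w := fun w _ =>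
    ((contDiff_con.differentiable (by simp)) w).hasFDerivAt.hasFDerivWithinAt
  rw [← lintegral_abs_det_fderiv_eq_addHaar_image volume hSm hder hinj]
  have hg : Measurable fun x : E3 => ENNReal.ofReal (8 * ((1 + nq x) ^ 3)⁻¹) := by
    refine ENNReal.measurable_ofReal.comp ?_
    have : Measurable nq := by unfold nq; fun_prop
    fun_prop
  have hcongr : ∫⁻ w in S, ENNReal.ofReal |(fderiv ℝ con w).det| =
      ∫⁻ w in S, ENNReal.ofReal (w 3 ^ 3) *
        (fun x : E3 => ENNReal.ofReal (8 * ((1 + nq x) ^ 3)⁻¹)) (pr3 w) := by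
    refine setLIntegral_congr_fun hSm fun w hw => ?_
    have h0 : 0 < w 3 := hw.2.1
    simp only
    rw [det_con, abs_of_pos h0, ENNReal.ofReal_mul (by positivity)]
  rw [hcongr, lintegral_cyl hA hg, ← mul_assoc]
  have h4 : ((Module.finrank ℝ (EuclideanSpace ℝ (Fin 4)) : ℕ) : ENNReal) * 4⁻¹ = 1 := by
    rw [finrank_euclideanSpace_fin]
    push_cast
    exact ENNReal.mul_inv_cancel (by norm_num) (by norm_num)
  rw [h4, one_mul]

end Pool.Agent.QM59
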