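import Pool.Agent.Lib.MP_decea1_gt_F.Knothe
import Pool.Agent.Lib.MP_decea1_gt_F.Cone

/-!
# MP_decea1_gt, block F: the chart `Th : Cube → S3 \ {qp}`, its inverse `Ps`, and the measure
-/

set_option autoImplicit false
open Set Filter Topology MeasureTheory
open scoped ContDiff

namespace Pool.Agent.QM59

theorem norm_Th (u : E3) : ‖Th u‖ = 1 := norm_sig _

theorem Th_mem_Om (u : E3) : Th u ∈ Om := sig_mem_Om _

theorem tS_ne (u : E3) : tS u ≠ qp := (mem_Om_iff _).1 (Th_mem_Om u)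

theorem Ps_mem (v : E4) : Ps v ∈ Cube := kn_mem _

theorem Ps_Th {u : E3} (hu : u ∈ Cube) : Ps (Th u) = u := by
  rw [Ps, Th, st_sig, kn_kni hu]

theorem Th_Ps {v : E4} (hv : v ∈ Om) : Th (Ps v) = ‖v‖⁻¹ • v := by
  rw [Ps, Th, kni_kn, sig_st hv]

theorem tS_Ps {y : S3} (hy : y ≠ qp) : tS (Ps (y : E4)) = y := by
  apply Subtype.ext
  have h1 := Th_Ps ((mem_Om_iff y).2 hy)
  have h2 : ‖(y : E4)‖ = 1 := by simp
  rw [h2, inv_one, one_smul] at h1
  exact h1

theorem Ps_smul {v : E4} {r : ℝ} (hr : 0 < r) : Ps (r • v) = Ps v := by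
  rw [Ps, Ps, st_smul hr]

theorem contDiffOn_Th : ContDiffOn ℝ smo Th Cube :=
  contDiff_sig.comp_contDiffOn contDiffOn_kni

theorem contDiffOn_Ps : ContDiffOn ℝ smo Ps Om :=
  contDiff_kn.comp_contDiffOn contDiffOn_st

/-- the measure of the sphere in the chart is a multiple of Lebesgue measure -/
theorem toSphere_Th {A : Set E3} (hA : MeasurableSet A) (hAC : A ⊆ Cube) :
    (volume : Measure (EuclideanSpace ℝ (Fin 4))).toSphere (tS '' A) =
      ENNReal.ofReal (2 * Real.pi ^ 2) * volume A := by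
  have hB : MeasurableSet (kn ⁻¹' A) := contDiff_kn.continuous.measurable hA
  have hBA : kn '' (kn ⁻¹' A) = A :=
    Set.image_preimage_eq_of_subset fun u hu => ⟨kni u, kn_kni (hAC hu)⟩
  have hinj : Function.Injective kn := Function.LeftInverse.injective kni_kn
  have hset : tS '' A = (fun y : S3 => (y : E4)) ⁻¹' (sig '' (kn ⁻¹' A)) := by
    ext y
    constructor
    · rintro ⟨u, hu, rfl⟩
      refine ⟨kni u, ?_, rfl⟩
      change kn (kni u) ∈ A
      rw [kn_kni (hAC hu)]
      exact hu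
    · rintro ⟨x, hx, hxy⟩
      refine ⟨kn x, hx, Subtype.ext ?_⟩
      change sig (kni (kn x)) = (y : E4)
      rw [kni_kn]
      exact hxy
  have hvol : volume A =
      ∫⁻ x in kn ⁻¹' A, ENNReal.ofReal (4 / Real.pi ^ 2 * ((1 + nq x) ^ 3)⁻¹) := by
    conv_lhs => rw [← hBA]
    rw [← lintegral_abs_det_fderiv_eq_addHaar_image volume hB
      (fun x _ => ((contDiff_kn.differentiable (by simp)) x).hasFDerivAt.hasFDerivWithinAt)
      hinj.injOn]
    refine lintegral_congr fun x => ?_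
    have h1 := jac_kn x
    unfold jac at h1
    have h2 := one_add_nq_pos x
    rw [h1, abs_of_pos (by positivity)]
  rw [hset, toSphere_sig hB, hvol, ← lintegral_const_mul' _ _ ENNReal.ofReal_ne_top]
  refine lintegral_congr fun x => ?_
  rw [← ENNReal.ofReal_mul (by positivity)]
  have h2 := one_add_nq_pos x
  have h3 : (8 : ℝ) * ((1 + nq x) ^ 3)⁻¹ =
      2 * Real.pi ^ 2 * (4 / Real.pi ^ 2 * ((1 + nq x) ^ 3)⁻¹) := by
    have hpi := Real.pi_pos
    field_simp
    norm_num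
  rw [h3]

end Pool.Agent.QM59
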