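import Pool.Agent.Lib.MP_decea1_gt_Q0.Defs

/-!
# MP_decea1_gt (S14098), block F: definitions (sphere, chart, push, pull)

`S3` is the unit sphere of `EuclideanSpace ℝ (Fin 4)` as in the frozen statement, `qp` its north
pole.  `PS f` is the predicate `P` of the frozen statement, `GS` the group of all permutations of
`S3` which underlie a diffeomorphism with `PS`.

The chart: `st` = stereographic projection from `qp`, extended to `{v | v 3 < ‖v‖}` as a
homogeneous function of degree `0`; `sig` its inverse; `kn : E3 → Cube` a triangular bijection with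
Jacobian `(4/π²) (1+|x|²)^(-3)`; `Th = sig ∘ kni : Cube → S3 \ {qp}`, `Ps = kn ∘ st`.
The measure `toSphere` corresponds to `2π²` times Lebesgue measure on the cube.
-/

set_option autoImplicit false

open MeasureTheory Set Real

noncomputable section

namespace Pool.Agent.QM59

/-- the ambient space -/
abbrev E4 : Type := EuclideanSpace ℝ (Fin 4)

/-- the 3-sphere -/
abbrev S3 : Type := Metric.sphere (0 : EuclideanSpace ℝ (Fin 4)) 1

theorem norm_single3 : (EuclideanSpace.single (3 : Fin 4) (1 : ℝ) : E4) ∈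
    Metric.sphere (0 : EuclideanSpace ℝ (Fin 4)) 1 := by
  simp

/-- the north pole -/
def qp : S3 := ⟨EuclideanSpace.single (3 : Fin 4) (1 : ℝ), norm_single3⟩

/-- the predicate `P` of the frozen statement `S14098` -/
def PS [Fact (Module.finrank ℝ (EuclideanSpace ℝ (Fin 4)) = 3 + 1)]
    (f : Diffeomorph (modelWithCornersSelf ℝ (EuclideanSpace ℝ (Fin 3)))
        (modelWithCornersSelf ℝ (EuclideanSpace ℝ (Fin 3)))
        (Metric.sphere (0 : EuclideanSpace ℝ (Fin 4)) 1)
        (Metric.sphere (0 : EuclideanSpace ℝ (Fin 4)) 1)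
        ((⊤ : ℕ∞) : WithTop ℕ∞)) : Prop :=
  ∃ F : ℝ × Metric.sphere (0 : EuclideanSpace ℝ (Fin 4)) 1 →
      Metric.sphere (0 : EuclideanSpace ℝ (Fin 4)) 1,
    ContMDiff ((modelWithCornersSelf ℝ ℝ).prod
        (modelWithCornersSelf ℝ (EuclideanSpace ℝ (Fin 3))))
      (modelWithCornersSelf ℝ (EuclideanSpace ℝ (Fin 3))) ((⊤ : ℕ∞) : WithTop ℕ∞) F ∧
    (∀ x, F (0, x) = x) ∧ (∀ x, F (1, x) = f x) ∧
    ∀ t : ℝ, ∃ g : Diffeomorph (modelWithCornersSelf ℝ (EuclideanSpace ℝ (Fin 3)))
        (modelWithCornersSelf ℝ (EuclideanSpace ℝ (Fin 3)))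
        (Metric.sphere (0 : EuclideanSpace ℝ (Fin 4)) 1)
        (Metric.sphere (0 : EuclideanSpace ℝ (Fin 4)) 1)
        ((⊤ : ℕ∞) : WithTop ℕ∞),
      (∀ x, g x = F (t, x)) ∧
      MeasurePreserving g (volume : Measure (EuclideanSpace ℝ (Fin 4))).toSphere
        (volume : Measure (EuclideanSpace ℝ (Fin 4))).toSphere

instance factE4 : Fact (Module.finrank ℝ (EuclideanSpace ℝ (Fin 4)) = 3 + 1) := ⟨by simp⟩

/-- the permutations of the sphere which underlie a diffeomorphism with `PS` -/
def InGS (e : Equiv.Perm S3) : Prop :=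
  ∃ f : Diffeomorph (modelWithCornersSelf ℝ (EuclideanSpace ℝ (Fin 3)))
        (modelWithCornersSelf ℝ (EuclideanSpace ℝ (Fin 3)))
        (Metric.sphere (0 : EuclideanSpace ℝ (Fin 4)) 1)
        (Metric.sphere (0 : EuclideanSpace ℝ (Fin 4)) 1)
        ((⊤ : ℕ∞) : WithTop ℕ∞), PS f ∧ ∀ x, e x = f x

/-! ### The one-dimensional functions -/

/-- derivative `(2/π)(1+s²)^(-2)` -/
def F1 (s : ℝ) : ℝ := 1 / 2 + π⁻¹ * (arctan s + s / (1 + s ^ 2))

/-- derivative `(3/4)(1+s²)^(-5/2)` -/
def F2 (s : ℝ) : ℝ :=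
  1 / 2 + 3 / 4 * (s / √(1 + s ^ 2) - (s / √(1 + s ^ 2)) ^ 3 / 3)

/-- derivative `(8/(3π))(1+s²)^(-3)` -/
def F3 (s : ℝ) : ℝ :=
  1 / 2 + π⁻¹ * (arctan s + s / (1 + s ^ 2) + 2 / 3 * (s / (1 + s ^ 2) ^ 2))

/-- The inverse of a distribution function. -/
def cinv (F : ℝ → ℝ) (u : ℝ) : ℝ := Function.invFun F u

/-! ### The triangular map -/

/-- the triangular map `ℝ³ → (0,1)³` -/
def kn (x : E3) : E3 :=
  ![F1 (x 0), F2 (x 1 / √(1 + x 0 ^ 2)), F3 (x 2 / √(1 + x 0 ^ 2 + x 1 ^ 2))]

/-- its inverse `(0,1)³ → ℝ³` -/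
def kni (u : E3) : E3 :=
  ![cinv F1 (u 0), √(1 + cinv F1 (u 0) ^ 2) * cinv F2 (u 1),
    √(1 + cinv F1 (u 0) ^ 2 + (√(1 + cinv F1 (u 0) ^ 2) * cinv F2 (u 1)) ^ 2) * cinv F3 (u 2)]

/-! ### Stereographic projection -/

/-- the square of the Euclidean norm -/
def nq (x : E3) : ℝ := x 0 ^ 2 + x 1 ^ 2 + x 2 ^ 2

/-- inverse stereographic projection, from the north pole -/
def sig (x : E3) : E4 :=
  WithLp.toLp 2 ![2 * x 0 / (1 + nq x), 2 * x 1 / (1 + nq x), 2 * x 2 / (1 + nq x),
    1 - 2 / (1 + nq x)]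

/-- the cone over the sphere without the north pole -/
def Om : Set E4 := {v | v 3 < ‖v‖}

/-- stereographic projection from the north pole, homogeneous of degree `0` on `Om` -/
def st (v : E4) : E3 := ![v 0 / (‖v‖ - v 3), v 1 / (‖v‖ - v 3), v 2 / (‖v‖ - v 3)]

/-- the parametrisation `Cube → S3 \ {qp}` -/
def Th (u : E3) : E4 := sig (kni u)

/-- its inverse, homogeneous of degree `0` -/
def Ps (v : E4) : E3 := kn (st v)

theorem norm_sig (x : E3) : ‖sig x‖ = 1 := by
  have h0 : 0 < 1 + nq x := by unfold nq; positivity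
  rw [EuclideanSpace.norm_eq, Real.sqrt_eq_one]
  simp only [Fin.sum_univ_four, Real.norm_eq_abs, sq_abs, sig]
  simp
  field_simp
  unfold nq
  ring

/-- `Th` as a map into the sphere -/
def tS (u : E3) : S3 := ⟨Th u, by rw [mem_sphere_zero_iff_norm]; exact norm_sig (kni u)⟩

theorem qp_apply (i : Fin 4) : (qp : E4) i = if i = 3 then 1 else 0 := by
  simp [qp]

/-! ### Push and pull -/

open Classical in
/-- the map of the sphere corresponding to a map of the cube -/
def pushF (f : E3 → E3) (y : S3) : S3 := if y = qp then qp else tS (f (Ps (y : E4)))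

open Classical in
/-- the map of the cube corresponding to a map of the sphere fixing the north pole -/
def pullF (g : S3 → S3) (u : E3) : E3 := if u ∈ Cube then Ps (g (tS u) : E4) else u

open Classical in
/-- the permutation of the sphere corresponding to a permutation of the cube
(a junk value if `f` is not a bijection of the cube) -/
def push (f : Equiv.Perm E3) : Equiv.Perm S3 :=
  if h : Function.Bijective (pushF f) then Equiv.ofBijective _ h else 1

open Classical in
/-- the permutation of the cube (identity off the cube) corresponding to a permutation of the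
sphere fixing the north pole -/
def pull (g : Equiv.Perm S3) : Equiv.Perm E3 :=
  if h : Function.Bijective (pullF g) then Equiv.ofBijective _ h else 1

end Pool.Agent.QM59
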