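import Pool.Agent.Lib.MP_decea1_gt_F.Meas

/-!
# MP_decea1_gt, block F, dictionary D1: volume preserving isotopies of the cube give elements of `GS`
-/

set_option autoImplicit false
open Set Filter Topology Metric MeasureTheory
open scoped ContDiff Manifold

namespace Pool.Agent.QM59

theorem IdOff.mono_compact {K : Set E3} (hK : K ⊆ Cube) {f : Equiv.Perm E3} (h : IdOff K f) :
    IdOff Cube f := h.mono hK

/-- the complement of the image of a compact set is a neighbourhood of the pole on which the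
pushed maps are the identity -/
theorem push_eq_self {K : Set E3} (hK : K ⊆ Cube) {f : Equiv.Perm E3} (h : IdOff K f) {y : S3}
    (hy : y ∉ tS '' K) : push f y = y := by
  by_cases h1 : y = qp
  · rw [h1, push_qp]
  · have h2 : Ps (y : E4) ∉ K := fun h3 => hy ⟨_, h3, tS_Ps h1⟩
    rw [← tS_Ps h1, push_tS (h.mono hK) (Ps_mem _), h _ h2]

theorem isClosed_tS_image {K : Set E3} (hK : K ⊆ Cube) (hc : IsCompact K) :
    IsClosed (tS '' K) := (hc.image_of_continuousOn (contOn_tS.mono hK)).isClosed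

/-- smooth families on the cube give smooth families on the sphere -/
theorem contMDiff_push {F : ℝ → Equiv.Perm E3}
    (hF : ContDiff ℝ smo (fun p : ℝ × E3 => F p.1 p.2)) {K : Set E3} (hK : K ⊆ Cube)
    (hc : IsCompact K) (hoff : ∀ t, IdOff K (F t)) :
    ContMDiff (𝓘(ℝ, ℝ).prod (𝓡 3)) (𝓡 3) smo (fun p : ℝ × S3 => push (F p.1) p.2) := by
  rw [contMDiff_iff_coe]
  rintro ⟨t, y⟩
  have hcl := isClosed_tS_image hK hc
  by_cases hy : y ∈ tS '' K
  · have hy1 : y ≠ qp := by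
      obtain ⟨u, -, rfl⟩ := hy
      exact tS_ne u
    have hO : (y : E4) ∈ Om := (mem_Om_iff y).2 hy1
    have e1 : ContMDiffAt (𝓘(ℝ, ℝ).prod (𝓡 3)) 𝓘(ℝ, E4) smo (fun p : ℝ × S3 => (p.2 : E4))
        (t, y) := (contMDiffAt_coe_S3 y).comp (t, y) contMDiffAt_snd
    have e2 : ContMDiffAt (𝓘(ℝ, ℝ).prod (𝓡 3)) 𝓘(ℝ, E3) smo
        (fun p : ℝ × S3 => Ps (p.2 : E4)) (t, y) :=
      ContMDiffAt.comp (g := Ps) (t, y)
        ((contDiffOn_Ps.contDiffAt (isOpen_Om.mem_nhds hO)).contMDiffAt) e1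
    have e3 : ContMDiffAt (𝓘(ℝ, ℝ).prod (𝓡 3)) 𝓘(ℝ, ℝ × E3) smo
        (fun p : ℝ × S3 => (p.1, Ps (p.2 : E4))) (t, y) := by
      rw [modelWithCornersSelf_prod, ← chartedSpaceSelf_prod]
      exact contMDiffAt_fst.prodMk e2
    have e4 : ContMDiffAt (𝓘(ℝ, ℝ).prod (𝓡 3)) 𝓘(ℝ, E3) smo
        (fun p : ℝ × S3 => F p.1 (Ps (p.2 : E4))) (t, y) :=
      ContMDiffAt.comp (g := fun p : ℝ × E3 => F p.1 p.2) (t, y) hF.contMDiff.contMDiffAt e3
    have hC : F t (Ps (y : E4)) ∈ Cube := idOff_mem ((hoff t).mono hK) (Ps_mem _)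
    have e5 : ContMDiffAt (𝓘(ℝ, ℝ).prod (𝓡 3)) 𝓘(ℝ, E4) smo
        (fun p : ℝ × S3 => Th (F p.1 (Ps (p.2 : E4)))) (t, y) :=
      ContMDiffAt.comp (g := Th) (t, y)
        (contDiffOn_Th.contDiffAt (isOpen_Cube.mem_nhds hC)).contMDiffAt e4
    refine e5.congr_of_eventuallyEq ?_
    have h1 : ∀ᶠ p : ℝ × S3 in 𝓝 (t, y), p.2 ≠ qp :=
      (continuousAt_snd (p := (t, y))).eventually (isOpen_ne_qp.mem_nhds (show y ∈ _ from hy1))
    filter_upwards [h1] with p hp
    have h2 : push (F p.1) p.2 = tS (F p.1 (Ps (p.2 : E4))) := by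
      conv_lhs => rw [← tS_Ps hp]
      rw [push_tS ((hoff _).mono hK) (Ps_mem _)]
    rw [h2]
    rfl
  · have h1 : ∀ᶠ p : ℝ × S3 in 𝓝 (t, y), p.2 ∉ tS '' K :=
      (continuousAt_snd (p := (t, y))).eventually (hcl.isOpen_compl.mem_nhds (show y ∈ _ from hy))
    have e1 : ContMDiffAt (𝓘(ℝ, ℝ).prod (𝓡 3)) 𝓘(ℝ, E4) smo (fun p : ℝ × S3 => (p.2 : E4))
        (t, y) := (contMDiffAt_coe_S3 y).comp (t, y) contMDiffAt_snd
    refine e1.congr_of_eventuallyEq ?_
    filter_upwards [h1] with p hp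
    rw [push_eq_self hK (hoff _) hp]

/-- the one-map version -/
theorem contMDiff_push_one {f : Equiv.Perm E3} (hf : ContDiff ℝ smo (fun x => f x)) {K : Set E3}
    (hK : K ⊆ Cube) (hc : IsCompact K) (hoff : IdOff K f) :
    ContMDiff (𝓡 3) (𝓡 3) smo (fun y : S3 => push f y) := by
  have h1 := contMDiff_push (F := fun _ => f) (hf.comp contDiff_snd) hK hc fun _ => hoff
  exact h1.comp ((contMDiff_const (c := (0:ℝ))).prodMk contMDiff_id)

/-- D1: volume preserving isotopies of the cube give elements of `GS` -/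
theorem push_mem_GS {F : ℝ → Equiv.Perm E3} (hF : IsIso Cube F) (hv : ∀ s, Vol (F s)) :
    push (F 1) ∈ GS := by
  obtain ⟨K, hK, hc, hoff⟩ := hF.supp
  have hi : ∀ t, ContDiff ℝ smo (fun x => (F t)⁻¹ x) := fun t =>
    hF.smooth_inv.comp (contDiff_const.prodMk contDiff_id)
  have hd : ∀ t, ContDiff ℝ smo (fun x => F t x) := fun t =>
    hF.smooth.comp (contDiff_const.prodMk contDiff_id)
  refine mem_GS_of_family (F := fun t => push (F t)) (contMDiff_push hF.smooth hK hc hoff)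
    (fun t => ?_) (fun t => ?_) ?_
  · have h1 := contMDiff_push_one (hi t) hK hc (hoff t).inv
    rw [push_inv ((hoff t).mono hK)] at h1
    exact h1
  · have h1 := contMDiff_push_one (hd t) hK hc (hoff t)
    exact measurePreserving_push ⟨hd t, hi t⟩ (hv t) ((hoff t).mono hK) h1.continuous.measurable
  · show push (F 0) = 1
    rw [hF.left 0 le_rfl, push_one]

end Pool.Agent.QM59
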