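import Pool.Agent.Lib.MP_decea1_gt_F.Dict1

/-!
# MP_decea1_gt, block F, dictionary D2: elements of `GS` which are the identity near the pole give
volume preserving diffeomorphisms of the cube with compact support
-/

set_option autoImplicit false
open Set Filter Topology Metric MeasureTheory
open scoped ContDiff Manifold

namespace Pool.Agent.QM59

/-- the identity near the north pole -/
def IdNear (g : Equiv.Perm S3) : Prop := ∀ᶠ y in 𝓝 qp, g y = y

theorem IdNear.qp {g : Equiv.Perm S3} (h : IdNear g) : g qp = qp := h.self_of_nhds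

theorem IdNear.one : IdNear 1 := Eventually.of_forall fun _ => rfl

theorem IdNear.mul {g h : Equiv.Perm S3} (hg : IdNear g) (hh : IdNear h) : IdNear (g * h) := by
  filter_upwards [hg, hh] with y h1 h2
  rw [Equiv.Perm.mul_apply, h2, h1]

theorem IdNear.inv {g : Equiv.Perm S3} (hg : IdNear g) : IdNear g⁻¹ := by
  filter_upwards [hg] with y h1
  rw [Equiv.Perm.inv_eq_iff_eq]
  exact h1.symm

/-- pulled back maps have compact support in the cube -/
theorem pull_supp {g : Equiv.Perm S3} (h : IdNear g) :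
    ∃ K : Set E3, K ⊆ Cube ∧ IsCompact K ∧ IdOff K (pull g) := by
  obtain ⟨N, hN, hNo, hq⟩ := _root_.eventually_nhds_iff.1 h
  have hc : IsCompact Nᶜ := hNo.isClosed_compl.isCompact
  refine ⟨(fun y : S3 => Ps (y : E4)) '' Nᶜ, ?_, ?_, ?_⟩
  · rintro _ ⟨y, -, rfl⟩
    exact Ps_mem _
  · refine hc.image_of_continuousOn (continuousOn_Ps_S3.mono fun y hy => ?_)
    rintro rfl
    exact hy hq
  · intro u hu
    by_cases hC : u ∈ Cube
    · have h1 : tS u ∈ N := by
        by_contra h2
        exact hu ⟨tS u, h2, Ps_tS hC⟩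
      rw [pull_of_mem h.qp hC, hN _ h1, Ps_tS hC]
    · exact pull_idOff h.qp u hC

theorem contDiff_pull {g : Equiv.Perm S3} (hg : ContMDiff (𝓡 3) (𝓡 3) smo (fun y => g y))
    (h : IdNear g) : ContDiff ℝ smo (fun u => pull g u) := by
  rw [contDiff_iff_contDiffAt]
  intro u
  obtain ⟨K, hK, hc, hoff⟩ := pull_supp h
  by_cases hu : u ∈ Cube
  · have e0 : ContMDiffAt 𝓘(ℝ, E3) (𝓡 3) smo tS u := by
      rw [contMDiffAt_iff_coe]
      exact (contDiffOn_Th.contDiffAt (isOpen_Cube.mem_nhds hu)).contMDiffAt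
    have e1 : ContMDiffAt 𝓘(ℝ, E3) (𝓡 3) smo (fun u => g (tS u)) u :=
      ContMDiffAt.comp (g := fun y => g y) u hg.contMDiffAt e0
    have e2 : ContMDiffAt 𝓘(ℝ, E3) 𝓘(ℝ, E4) smo (fun u => (g (tS u) : E4)) u :=
      contMDiffAt_coe e1
    have hO : ((g (tS u) : S3) : E4) ∈ Om := (mem_Om_iff _).2 (ne_qp_of_ne h.qp (tS_ne u))
    have e3 : ContDiffAt ℝ smo (fun u => Ps (g (tS u) : E4)) u :=
      ContDiffAt.comp (g := Ps) u (contDiffOn_Ps.contDiffAt (isOpen_Om.mem_nhds hO))
        (contMDiffAt_iff_contDiffAt.1 e2)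
    refine e3.congr_of_eventuallyEq ?_
    filter_upwards [isOpen_Cube.mem_nhds hu] with v hv
    exact pull_of_mem h.qp hv
  · have hu' : u ∉ K := fun h2 => hu (hK h2)
    refine contDiffAt_id.congr_of_eventuallyEq ?_
    filter_upwards [hc.isClosed.isOpen_compl.mem_nhds hu'] with v hv
    exact hoff v hv

/-- D2, smoothness -/
theorem pull_isDif {g : Equiv.Perm S3} (hg : g ∈ GS) (h : IdNear g) : IsDif (pull g) := by
  refine ⟨contDiff_pull (contMDiff_of_mem_GS hg) h, ?_⟩
  have h1 := contDiff_pull (contMDiff_of_mem_GS (GS.inv_mem hg)) h.inv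
  rw [pull_inv h.qp] at h1
  exact h1

/-- pulled back maps preserve the volume of subsets of the cube -/
theorem volume_pull_image {g : Equiv.Perm S3} (hg : g ∈ GS) (h : g qp = qp) {A : Set E3}
    (hA : MeasurableSet A) (hAC : A ⊆ Cube) : volume (pull g '' A) = volume A := by
  have hAC' : pull g '' A ⊆ Cube := by
    rintro _ ⟨u, hu, rfl⟩
    exact idOff_mem (pull_idOff h) (hAC hu)
  have h1 : tS '' (pull g '' A) = g '' (tS '' A) := by
    rw [image_image, image_image]
    exact image_congr fun u hu => tS_pull h (hAC hu)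
  have h2 : g '' (tS '' A) = (fun y => g⁻¹ y) ⁻¹' (tS '' A) := by
    rw [Equiv.image_eq_preimage_symm]
    rfl
  have hm := measurePreserving_of_mem_GS (GS.inv_mem hg)
  have hmA := measurableSet_tS_image hA hAC
  have h3 : muS (tS '' (pull g '' A)) = muS (tS '' A) := by
    rw [h1, h2]
    exact hm.measure_preimage hmA.nullMeasurableSet
  have hmA' : MeasurableSet (tS '' (pull g '' A)) := by
    rw [h1, h2]
    exact hm.measurable hmA
  have h4 : pull g '' A = Cube ∩ tS ⁻¹' (tS '' (pull g '' A)) := by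
    ext u
    constructor
    · intro hu
      exact ⟨hAC' hu, mem_image_of_mem _ hu⟩
    · rintro ⟨hu, v, hv, hvu⟩
      rw [← tS_injOn (hAC' hv) hu hvu]
      exact hv
  have hmB : MeasurableSet (pull g '' A) := by
    rw [h4]
    exact measurableSet_tS_preimage hmA'
  have h5 : muS (tS '' (pull g '' A)) = ENNReal.ofReal (2 * Real.pi ^ 2) * volume (pull g '' A) :=
    toSphere_Th hmB hAC'
  have h6 : muS (tS '' A) = ENNReal.ofReal (2 * Real.pi ^ 2) * volume A := toSphere_Th hA hAC
  rw [h5, h6] at h3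
  refine (ENNReal.mul_right_inj ?_ ENNReal.ofReal_ne_top).1 h3
  rw [Ne, ENNReal.ofReal_eq_zero, not_le]
  positivity

theorem continuous_jac {f : E3 → E3} (hf : ContDiff ℝ smo f) : Continuous (jac f) :=
  ContinuousLinearMap.continuous_det.comp (hf.continuous_fderiv (by simp))

theorem jac_eq_one_of_eventuallyEq_id {f : E3 → E3} {x : E3} (h : f =ᶠ[𝓝 x] id) :
    jac f x = 1 := by
  unfold jac
  rw [h.fderiv_eq, fderiv_id]
  show LinearMap.det ((ContinuousLinearMap.id ℝ E3 : E3 →L[ℝ] E3) : E3 →ₗ[ℝ] E3) = 1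
  rw [ContinuousLinearMap.coe_id, LinearMap.det_id]

/-- a diffeomorphism which preserves the volume of small sets has determinant `±1` -/
theorem abs_jac_eq_one {f : Equiv.Perm E3} (hd : IsDif f) {U : Set E3} (hU : IsOpen U)
    (hm : ∀ A : Set E3, MeasurableSet A → A ⊆ U → volume (f '' A) = volume A) {x : E3}
    (hx : x ∈ U) : |jac (fun y => f y) x| = 1 := by
  have hcont : Continuous fun y => |jac (fun y => f y) y| := (continuous_jac hd.1).abs
  have key : ∀ A : Set E3, MeasurableSet A → A ⊆ U →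
      ∫⁻ y in A, ENNReal.ofReal |jac (fun y => f y) y| = volume A := by
    intro A hA hAU
    have h1 := lintegral_abs_det_fderiv_eq_addHaar_image volume (f := fun x => f x)
      (f' := fun x => fderiv ℝ (fun y => f y) x) hA (fun x _ =>
        ((hd.1.differentiable (by simp)).differentiableAt.hasFDerivAt).hasFDerivWithinAt)
        (f.injective.injOn)
    rw [← hm A hA hAU]
    exact h1
  have hball : ∀ V : Set E3, IsOpen V → x ∈ V → ∃ B : Set E3, MeasurableSet B ∧ B ⊆ V ∧
      volume B ≠ 0 ∧ volume B ≠ ⊤ := by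
    intro V hV hxV
    obtain ⟨r, hr, hB⟩ := Metric.isOpen_iff.1 hV x hxV
    exact ⟨ball x r, measurableSet_ball, hB, (measure_ball_pos _ _ hr).ne',
      measure_ball_lt_top.ne⟩
  rcases lt_trichotomy |jac (fun y => f y) x| 1 with h | h | h
  · exfalso
    obtain ⟨c, hc1, hc2⟩ := exists_between h
    have hc0 : 0 ≤ c := (abs_nonneg _).trans hc1.le
    obtain ⟨B, hBm, hB, hB0, hB1⟩ := hball ({y | |jac (fun y => f y) y| < c} ∩ U)
      ((isOpen_lt hcont continuous_const).inter hU) ⟨hc1, hx⟩
    have h1 := key B hBm fun y hy => (hB hy).2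
    have h2 : ∫⁻ y in B, ENNReal.ofReal |jac (fun y => f y) y| ≤ ∫⁻ _ in B, ENNReal.ofReal c := by
      refine setLIntegral_mono measurable_const fun y hy => ?_
      exact ENNReal.ofReal_le_ofReal (hB hy).1.le
    rw [h1, setLIntegral_const] at h2
    have h3 : ENNReal.ofReal c * volume B < 1 * volume B := by
      refine ENNReal.mul_lt_mul_left hB0 hB1 ?_
      rw [← ENNReal.ofReal_one]
      exact (ENNReal.ofReal_lt_ofReal_iff one_pos).2 hc2
    rw [one_mul] at h3
    exact absurd h2 (not_le.2 h3)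
  · exact h
  · exfalso
    obtain ⟨c, hc1, hc2⟩ := exists_between h
    obtain ⟨B, hBm, hB, hB0, hB1⟩ := hball ({y | c < |jac (fun y => f y) y|} ∩ U)
      ((isOpen_lt continuous_const hcont).inter hU) ⟨hc2, hx⟩
    have h1 := key B hBm fun y hy => (hB hy).2
    have h2 : ∫⁻ _ in B, ENNReal.ofReal c ≤ ∫⁻ y in B, ENNReal.ofReal |jac (fun y => f y) y| := by
      refine setLIntegral_mono ?_ fun y hy => ?_
      · exact (ENNReal.measurable_ofReal.comp hcont.measurable)
      · exact ENNReal.ofReal_le_ofReal (hB hy).1.le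
    rw [h1, setLIntegral_const] at h2
    have h3 : 1 * volume B < ENNReal.ofReal c * volume B := by
      refine ENNReal.mul_lt_mul_left hB0 hB1 ?_
      rw [← ENNReal.ofReal_one]
      exact (ENNReal.ofReal_lt_ofReal_iff (one_pos.trans hc1)).2 hc1
    rw [one_mul] at h3
    exact absurd h2 (not_le.2 h3)

/-- D2, volume -/
theorem pull_vol {g : Equiv.Perm S3} (hg : g ∈ GS) (h : IdNear g) : Vol (pull g) := by
  obtain ⟨K, hK, hc, hoff⟩ := pull_supp h
  have hd := pull_isDif hg h
  have h1 : ∀ x, |jac (fun y => pull g y) x| = 1 := by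
    intro x
    by_cases hx : x ∈ Cube
    · exact abs_jac_eq_one hd isOpen_Cube (fun A hA hAC => volume_pull_image hg h.qp hA hAC) hx
    · have hx' : x ∉ K := fun h2 => hx (hK h2)
      have h2 : (fun y => pull g y) =ᶠ[𝓝 x] id := by
        filter_upwards [hc.isClosed.isOpen_compl.mem_nhds hx'] with v hv
        exact hoff v hv
      rw [jac_eq_one_of_eventuallyEq_id h2, abs_one]
  have hcont := continuous_jac hd.1
  -- the determinant is `1` outside the cube, hence everywhere
  have h0 : (fun _ => 2 : E3) ∉ Cube := by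
    intro h2
    have := (h2 0).2
    norm_num at this
  have h3 : jac (fun y => pull g y) (fun _ => 2) = 1 := by
    have hx' : (fun _ => 2 : E3) ∉ K := fun h2 => h0 (hK h2)
    have h2 : (fun y => pull g y) =ᶠ[𝓝 (fun _ => 2)] id := by
      filter_upwards [hc.isClosed.isOpen_compl.mem_nhds hx'] with v hv
      exact hoff v hv
    exact jac_eq_one_of_eventuallyEq_id h2
  intro x
  rcases (abs_eq zero_le_one).1 (h1 x) with h4 | h4
  · exact h4
  · exfalso
    have h5 : IsPreconnected (univ : Set E3) := isPreconnected_univ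
    obtain ⟨z, -, hz⟩ := h5.intermediate_value (mem_univ x) (mem_univ (fun _ => 2 : E3))
      hcont.continuousOn (show (0:ℝ) ∈ Icc (jac (fun y => pull g y) x)
        (jac (fun y => pull g y) (fun _ => 2)) by rw [h4, h3]; constructor <;> norm_num)
    have := h1 z
    rw [hz] at this
    simp at this

end Pool.Agent.QM59
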