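import Pool.Agent.Lib.MP_decea1_gt_F.Dict2
import Pool.Agent.Lib.MP_decea1_gt_A.A5

/-!
# MP_decea1_gt, block F, dictionary D3: the group `Gq` of the chart is good
-/

set_option autoImplicit false
open Set Filter Topology Metric MeasureTheory
open scoped ContDiff Manifold

namespace Pool.Agent.QM59

/-- D1 for end points of isotopies -/
theorem push_mem_GS_of_InIso {f : Equiv.Perm E3} (hf : InIso Cube f) (hv : Vol f) :
    push f ∈ GS := by
  obtain ⟨F, hF, rfl⟩ := hf
  obtain ⟨F', hF', h1, h2⟩ := A5 F hF hv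
  rw [← h1]
  exact push_mem_GS hF' h2

/-- end points of isotopies have compact support -/
theorem InIso.compact_supp {U : Set E3} {f : Equiv.Perm E3} (hf : InIso U f) :
    ∃ K : Set E3, K ⊆ U ∧ IsCompact K ∧ IdOff K f := by
  obtain ⟨F, hF, rfl⟩ := hf
  obtain ⟨K, hK, hc, h⟩ := hF.supp
  exact ⟨K, hK, hc, h 1⟩

theorem idNear_push {K : Set E3} (hK : K ⊆ Cube) (hc : IsCompact K) {f : Equiv.Perm E3}
    (h : IdOff K f) : IdNear (push f) := by
  have h1 : qp ∉ tS '' K := by
    rintro ⟨u, -, hu⟩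
    exact tS_ne u hu
  filter_upwards [(isClosed_tS_image hK hc).isOpen_compl.mem_nhds h1] with y hy
  exact push_eq_self hK h hy

/-- the pulled back elements of `GS` which are the identity near the north pole -/
def Gq : Subgroup (Equiv.Perm E3) where
  carrier := {f | IdOff Cube f ∧ push f ∈ GS ∧ IdNear (push f)}
  one_mem' := ⟨IdOff.one _, by rw [push_one]; exact GS.one_mem, by rw [push_one]; exact IdNear.one⟩
  mul_mem' := by
    rintro f g ⟨h1, h2, h3⟩ ⟨h1', h2', h3'⟩
    refine ⟨h1.mul h1', ?_, ?_⟩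
    · rw [push_mul h1 h1']
      exact GS.mul_mem h2 h2'
    · rw [push_mul h1 h1']
      exact h3.mul h3'
  inv_mem' := by
    rintro f ⟨h1, h2, h3⟩
    refine ⟨h1.inv, ?_, ?_⟩
    · rw [push_inv h1]
      exact GS.inv_mem h2
    · rw [push_inv h1]
      exact h3.inv

theorem mem_Gq {f : Equiv.Perm E3} :
    f ∈ Gq ↔ IdOff Cube f ∧ push f ∈ GS ∧ IdNear (push f) := Iff.rfl

theorem pull_mem_Gq {g : Equiv.Perm S3} (hg : g ∈ GS) (h : IdNear g) : pull g ∈ Gq := by
  refine ⟨pull_idOff h.qp, ?_, ?_⟩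
  · rw [push_pull h.qp]
    exact hg
  · rw [push_pull h.qp]
    exact h

/-- D3 -/
theorem good_Gq : Good Gq where
  dif := by
    rintro f ⟨h1, h2, h3⟩
    have h4 := pull_isDif h2 h3
    rwa [pull_push h1] at h4
  vol := by
    rintro f ⟨h1, h2, h3⟩
    have h4 := pull_vol h2 h3
    rwa [pull_push h1] at h4
  supp := by
    rintro f ⟨h1, h2, h3⟩
    have h4 := pull_supp h3
    rwa [pull_push h1] at h4
  iso := by
    intro f hf hv
    obtain ⟨K, hK, hc, h⟩ := hf.compact_supp
    exact ⟨h.mono hK, push_mem_GS_of_InIso hf hv, idNear_push hK hc h⟩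

end Pool.Agent.QM59
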