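import Pool.Agent.Lib.MP_decea1_gt_F.Smooth

/-!
# MP_decea1_gt, block F: the group `GS` of the frozen statement
-/

set_option autoImplicit false
open Set Filter Topology Metric MeasureTheory
open scoped ContDiff Manifold

namespace Pool.Agent.QM59

/-- the measure on the sphere -/
noncomputable abbrev muS : Measure S3 := (volume : Measure (EuclideanSpace ℝ (Fin 4))).toSphere

/-- diffeomorphisms of the sphere -/
abbrev Dif3 : Type := Diffeomorph (modelWithCornersSelf ℝ (EuclideanSpace ℝ (Fin 3)))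
        (modelWithCornersSelf ℝ (EuclideanSpace ℝ (Fin 3)))
        (Metric.sphere (0 : EuclideanSpace ℝ (Fin 4)) 1)
        (Metric.sphere (0 : EuclideanSpace ℝ (Fin 4)) 1)
        ((⊤ : ℕ∞) : WithTop ℕ∞)

theorem PS.measurePreserving {f : Dif3} (hf : PS f) : MeasurePreserving f muS muS := by
  obtain ⟨F, -, -, h1, h2⟩ := hf
  obtain ⟨g, hg, hm⟩ := h2 1
  have : (f : S3 → S3) = g := by
    funext x
    rw [hg, h1]
  rw [this]
  exact hm

theorem measurePreserving_symm {f : Dif3} (hf : MeasurePreserving f muS muS) :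
    MeasurePreserving f.symm muS muS := by
  have h1 : MeasurePreserving (f.toHomeomorph.toMeasurableEquiv) muS muS := hf
  exact h1.symm

theorem PS.refl : PS (Diffeomorph.refl _ _ _) := by
  refine ⟨fun p => p.2, contMDiff_snd, fun x => rfl, fun x => rfl, fun t => ?_⟩
  exact ⟨Diffeomorph.refl _ _ _, fun x => rfl, MeasurePreserving.id _⟩

theorem PS.trans {f g : Dif3} (hf : PS f) (hg : PS g) : PS (g.trans f) := by
  obtain ⟨F, hF, hF0, hF1, hFt⟩ := hf
  obtain ⟨G, hG, hG0, hG1, hGt⟩ := hg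
  refine ⟨fun p => F (p.1, G p), hF.comp (contMDiff_fst.prodMk hG), fun x => ?_, fun x => ?_,
    fun t => ?_⟩
  · show F (0, G (0, x)) = x
    rw [hG0, hF0]
  · show F (1, G (1, x)) = (g.trans f) x
    rw [hG1, hF1]
    rfl
  · obtain ⟨a, ha, ha'⟩ := hFt t
    obtain ⟨b, hb, hb'⟩ := hGt t
    refine ⟨b.trans a, fun x => ?_, ?_⟩
    · show a (b x) = F (t, G (t, x))
      rw [hb, ha]
    · exact ha'.comp hb'

theorem PS.symm {f : Dif3} (hf : PS f) : PS f.symm := by
  have hm := measurePreserving_symm hf.measurePreserving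
  obtain ⟨F, hF, hF0, hF1, hFt⟩ := hf
  refine ⟨fun p => f.symm (F (1 - p.1, p.2)), ?_, fun x => ?_, fun x => ?_, fun t => ?_⟩
  · refine f.symm.contMDiff.comp (hF.comp (ContMDiff.prodMk ?_ contMDiff_snd))
    exact (contDiff_const.sub contDiff_id).contMDiff.comp contMDiff_fst
  · show f.symm (F (1 - 0, x)) = x
    rw [sub_zero, hF1]
    exact f.symm_apply_apply x
  · show f.symm (F (1 - 1, x)) = f.symm x
    rw [sub_self, hF0]
  · obtain ⟨a, ha, ha'⟩ := hFt (1 - t)
    refine ⟨a.trans f.symm, fun x => ?_, ?_⟩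
    · show f.symm (a x) = f.symm (F (1 - t, x))
      rw [ha]
    · exact hm.comp ha'

theorem InGS.one : InGS 1 := ⟨Diffeomorph.refl _ _ _, PS.refl, fun _ => rfl⟩

theorem InGS.mul {e e' : Equiv.Perm S3} (h : InGS e) (h' : InGS e') : InGS (e * e') := by
  obtain ⟨f, hf, h1⟩ := h
  obtain ⟨g, hg, h2⟩ := h'
  refine ⟨g.trans f, hf.trans hg, fun x => ?_⟩
  show e (e' x) = f (g x)
  rw [h2, h1]

theorem InGS.inv {e : Equiv.Perm S3} (h : InGS e) : InGS e⁻¹ := by
  obtain ⟨f, hf, h1⟩ := h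
  refine ⟨f.symm, hf.symm, fun x => ?_⟩
  rw [Equiv.Perm.inv_eq_iff_eq, h1]
  exact (f.apply_symm_apply x).symm

/-- the group of the frozen statement as a group of permutations -/
def GS : Subgroup (Equiv.Perm S3) where
  carrier := {e | InGS e}
  one_mem' := InGS.one
  mul_mem' := InGS.mul
  inv_mem' := InGS.inv

theorem mem_GS {e : Equiv.Perm S3} : e ∈ GS ↔ InGS e := Iff.rfl

/-- the permutation underlying a diffeomorphism with `PS` -/
theorem PS.mem_GS {f : Dif3} (hf : PS f) : f.toEquiv ∈ GS := ⟨f, hf, fun _ => rfl⟩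

theorem contMDiff_of_mem_GS {e : Equiv.Perm S3} (h : e ∈ GS) :
    ContMDiff (𝓡 3) (𝓡 3) smo (fun x => e x) := by
  obtain ⟨f, -, h1⟩ := h
  have : (fun x => e x) = f := funext h1
  rw [this]
  exact f.contMDiff

theorem measurePreserving_of_mem_GS {e : Equiv.Perm S3} (h : e ∈ GS) :
    MeasurePreserving (fun x => e x) muS muS := by
  obtain ⟨f, hf, h1⟩ := h
  have : (fun x => e x) = f := funext h1
  rw [this]
  exact hf.measurePreserving

/-- criterion for membership in `GS`: a smooth family of permutations of the sphere with smooth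
inverses, all measure preserving, starting at the identity -/
theorem mem_GS_of_family {F : ℝ → Equiv.Perm S3}
    (hF : ContMDiff (𝓘(ℝ, ℝ).prod (𝓡 3)) (𝓡 3) smo (fun p : ℝ × S3 => F p.1 p.2))
    (hi : ∀ t, ContMDiff (𝓡 3) (𝓡 3) smo (fun x => (F t).symm x))
    (hm : ∀ t, MeasurePreserving (fun x => F t x) muS muS) (h0 : F 0 = 1) : F 1 ∈ GS := by
  have hd : ∀ t, ContMDiff (𝓡 3) (𝓡 3) smo (fun x => F t x) := fun t =>
    hF.comp (contMDiff_const.prodMk contMDiff_id)
  let g : ℝ → Dif3 := fun t =>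
    { toEquiv := F t
      contMDiff_toFun := hd t
      contMDiff_invFun := hi t }
  refine ⟨g 1, ⟨fun p => F p.1 p.2, hF, fun x => ?_, fun x => rfl, fun t => ?_⟩, fun x => rfl⟩
  · show F 0 x = x
    rw [h0]
    rfl
  · exact ⟨g t, fun x => rfl, hm t⟩

end Pool.Agent.QM59
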