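import Pool.Agent.Lib.MP_decea1_gt_F.HomS

/-!
# MP_decea1_gt, blocks F7 and F8: germs, and the theorem on `GS`
-/

set_option autoImplicit false
open Set Filter Topology Metric MeasureTheory Module
open scoped ContDiff Manifold ENNReal

namespace Pool.Agent.QM59

/-- the local move lemma (file Q0/Moves), as a statement -/
def MovesT : Prop := ∀ (W : Set E3) (z0 : E3) (h : E3 → E3) (v : ℝ), IsOpen W → z0 ∈ W →
  W ⊆ Cube → ContDiffOn ℝ smo h W → (∀ z ∈ W, jac h z = 1) → h z0 ∈ Cube → 0 < v →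
  ∃ u : Equiv.Perm E3, InIso Cube u ∧ Vol u ∧ (∃ K : Set E3, K ⊆ Cube ∧ IsCompact K ∧
    volume K < ENNReal.ofReal v ∧ IdOff K u) ∧ ∀ᶠ z in 𝓝 z0, u (h z) = z

/-- F7: the germ lemma on the sphere -/
theorem germ_S3 (hMv : MovesT) {a : Equiv.Perm S3} (ha : a ∈ GS) {p : S3} (hp : p ≠ qp)
    (hap : a p ≠ qp) {v : ℝ} (hv : 0 < v) : ∃ u ∈ GS, ∃ K : Set S3, IsClosed K ∧
      muS K < ENNReal.ofReal v ∧ (∀ z, z ∉ K → u z = z) ∧ ∀ᶠ z in 𝓝 p, u (a z) = z := by
  have hc : (0 : ℝ) < 2 * Real.pi ^ 2 := by positivity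
  have hz0 : Ps (p : E4) ∈ WC a := by
    refine ⟨Ps_mem _, ?_⟩
    rw [tS_Ps hp]
    exact hap
  obtain ⟨u, hu1, hu2, ⟨K, hK, hKc, hKv, hKu⟩, hu3⟩ := hMv (WC a) (Ps (p : E4)) (hC a)
    (v / (2 * Real.pi ^ 2)) (isOpen_WC ha) hz0 (WC_subset a) (contDiffOn_hC ha)
    (fun z hz => jac_hC ha hz) (hC_mem a _) (by positivity)
  have huC : IdOff Cube u := hKu.mono hK
  refine ⟨push u, push_mem_GS_of_InIso hu1 hu2, tS '' K, isClosed_tS_image hK hKc, ?_,
    fun z hz => push_eq_self hK hKu hz, ?_⟩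
  · have h1 := toSphere_Th hKc.isClosed.measurableSet hK
    show muS (tS '' K) < _
    rw [h1]
    have h2 : ENNReal.ofReal (2 * Real.pi ^ 2) * volume K
        < ENNReal.ofReal (2 * Real.pi ^ 2) * ENNReal.ofReal (v / (2 * Real.pi ^ 2)) :=
      ENNReal.mul_lt_mul_right cS_ne_zero ENNReal.ofReal_ne_top hKv
    refine h2.trans_le (le_of_eq ?_)
    rw [← ENNReal.ofReal_mul hc.le]
    congr 1
    field_simp
  · have hcont : ContinuousAt (fun z : S3 => Ps (z : E4)) p :=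
      continuousOn_Ps_S3.continuousAt (isOpen_ne_qp.mem_nhds (show p ∈ _ from hp))
    have h1 : ∀ᶠ z : S3 in 𝓝 p, u (hC a (Ps (z : E4))) = Ps (z : E4) := hcont.eventually hu3
    have h2 : ∀ᶠ z in 𝓝 p, z ≠ qp := isOpen_ne_qp.mem_nhds (show p ∈ _ from hp)
    have h3 : ∀ᶠ z in 𝓝 p, a z ≠ qp :=
      (continuous_GS ha).continuousAt.eventually (isOpen_ne_qp.mem_nhds (show a p ∈ _ from hap))
    filter_upwards [h1, h2, h3] with z hz1 hz2 hz3
    have h4 : Ps (z : E4) ∈ WC a := by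
      refine ⟨Ps_mem _, ?_⟩
      rw [tS_Ps hz2]
      exact hz3
    have h5 : a z = tS (hC a (Ps (z : E4))) := by
      rw [tS_hC h4, tS_Ps hz2]
    rw [h5, push_tS huC (hC_mem a _), hz1, tS_Ps hz2]

theorem infinite_S3 : Infinite S3 := by
  have h : Infinite (Cube : Set E3) := by
    refine Set.infinite_coe_iff.mpr fun hf => ?_
    have h1 := hf.measure_zero volume
    rw [volume_Cube] at h1
    exact one_ne_zero h1
  refine Infinite.of_injective (fun u : (Cube : Set E3) => tS u) fun u v huv => ?_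
  exact Subtype.ext (tS_injOn u.2 v.2 huv)

/-- F8: a homogeneous quasimorphism on `GS` is a homomorphism -/
theorem dphi_eq_zero_S3 (hM : ThmM) (hW : WallT) (hMv : MovesT) {φ : Equiv.Perm S3 → ℝ} {D : ℝ}
    (h : HQ GS φ D) {a b : Equiv.Perm S3} (ha : a ∈ GS) (hb : b ∈ GS) : dphi φ a b = 0 := by
  have key : ∀ ε : ℝ, 0 < ε → |dphi φ a b| ≤ 4 * ε := by
    intro ε hε
    obtain ⟨v, hv, hN⟩ := almost_additive_S3 hW h ε hε
    have := infinite_S3
    obtain ⟨p, hp⟩ := Infinite.exists_notMem_finset ({qp, a⁻¹ qp, b⁻¹ qp} : Finset S3)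
    simp only [Finset.mem_insert, Finset.mem_singleton, not_or] at hp
    obtain ⟨hp1, hp2, hp3⟩ := hp
    have hap : a p ≠ qp := fun h1 => hp2 (by rw [← h1]; simp)
    have hbp : b p ≠ qp := fun h1 => hp3 (by rw [← h1]; simp)
    obtain ⟨u, hu, K, hK, hKv, hKu, hu1⟩ := germ_S3 hMv ha hp1 hap hv
    obtain ⟨w, hw, L, hL, hLv, hLw, hw1⟩ := germ_S3 hMv hb hp1 hbp hv
    -- conjugates of `u` and `w`
    have hconj : ∀ c ∈ GS, ∀ s ∈ GS, ∀ M : Set S3, IsClosed M → muS M < ENNReal.ofReal v →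
        (∀ z, z ∉ M → s z = z) → ∀ x ∈ GS, |φ (x * (c⁻¹ * s * c)) - φ x - φ s| ≤ ε := by
      intro c hc s hs M hM hMm hMs x hx
      have h1 : c⁻¹ * s * c ∈ GS := GS.mul_mem (GS.mul_mem (GS.inv_mem hc) hs) hc
      have h2 := hN ((fun z => c z) ⁻¹' M) (hM.preimage (continuous_GS hc))
        (by
          rw [(measurePreserving_of_mem_GS hc).measure_preimage hM.measurableSet.nullMeasurableSet]
          exact hMm) x hx _ h1
        (fun z hz => by
          rw [Equiv.Perm.mul_apply, Equiv.Perm.mul_apply, hMs _ hz]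
          simp)
      rwa [h.map_conj' hs hc] at h2
    have e1 : u * a = a * (a⁻¹ * u * a) := by group
    have e2 : w * b = b * (b⁻¹ * w * b) := by group
    have e3 : (u * a) * (w * b) = (a * b * ((a * b)⁻¹ * u * (a * b))) * (b⁻¹ * w * b) := by group
    have hab : a * b ∈ GS := GS.mul_mem ha hb
    have b1 := hconj a ha u hu K hK hKv hKu a ha
    have b2 := hconj b hb w hw L hL hLv hLw b hb
    have b3 := hconj (a * b) hab u hu K hK hKv hKu (a * b) hab
    have b4 := hconj b hb w hw L hL hLv hLw (a * b * ((a * b)⁻¹ * u * (a * b)))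
      (GS.mul_mem hab (GS.mul_mem (GS.mul_mem (GS.inv_mem hab) hu) hab))
    rw [← e1] at b1
    rw [← e2] at b2
    rw [← e3] at b4
    have h0 := hom_near hM h (GS.mul_mem hu ha) (GS.mul_mem hw hb) (p := p)
      (by simpa using hu1) (by simpa using hw1)
    simp only [dphi] at h0 ⊢
    rw [abs_le] at b1 b2 b3 b4 ⊢
    constructor <;> linarith [b1.1, b1.2, b2.1, b2.2, b3.1, b3.2, b4.1, b4.2]
  by_contra hne
  have hpos : 0 < |dphi φ a b| := abs_pos.mpr hne
  have h1 := key (|dphi φ a b| / 8) (by positivity)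
  linarith

end Pool.Agent.QM59
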