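import Mathlib
import Pool.Agent.Lib.MP_decea1_gt_Q0.Defs

/-!
# MP_decea1_gt, block F1: homogenisation of a quasimorphism on a subgroup
-/

set_option autoImplicit false

namespace Pool.Agent.QM59

open Filter Topology

namespace HomF

variable {G : Type*} [Group G] {Γ : Subgroup G} {φ : G → ℝ} {D : ℝ}

theorem one_le (h : ∀ f ∈ Γ, ∀ g ∈ Γ, |φ (f * g) - φ f - φ g| ≤ D) : |φ 1| ≤ D := by
  have h1 := h 1 Γ.one_mem 1 Γ.one_mem
  rw [mul_one] at h1
  have : φ 1 - φ 1 - φ 1 = - φ 1 := by ring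
  rwa [this, abs_neg] at h1

theorem pow_le (h : ∀ f ∈ Γ, ∀ g ∈ Γ, |φ (f * g) - φ f - φ g| ≤ D) {f : G} (hf : f ∈ Γ) (n : ℕ) :
    |φ (f ^ (n + 1)) - (n + 1) * φ f| ≤ n * D := by
  induction n with
  | zero => simp
  | succ n ih =>
    have h1 := h _ (Γ.pow_mem hf (n + 1)) _ hf
    rw [← pow_succ] at h1
    rw [abs_le] at h1 ih ⊢
    push_cast
    constructor <;> nlinarith [h1.1, h1.2, ih.1, ih.2]

theorem exists_lim (h : ∀ f ∈ Γ, ∀ g ∈ Γ, |φ (f * g) - φ f - φ g| ≤ D) {f : G} (hf : f ∈ Γ) :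
    ∃ L : ℝ, Tendsto (fun n : ℕ => φ (f ^ n) / n) atTop (𝓝 L) := by
  have hD : 0 ≤ D := (abs_nonneg _).trans (one_le h)
  have hs : Subadditive fun n : ℕ => φ (f ^ n) + D := by
    intro m n
    have h1 := h _ (Γ.pow_mem hf m) _ (Γ.pow_mem hf n)
    rw [← pow_add, abs_le] at h1
    show φ (f ^ (m + n)) + D ≤ (φ (f ^ m) + D) + (φ (f ^ n) + D)
    linarith [h1.2]
  have hb : BddBelow (Set.range fun n : ℕ => (φ (f ^ n) + D) / n) := by
    refine ⟨- |φ f| - D, ?_⟩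
    rintro _ ⟨n, rfl⟩
    show - |φ f| - D ≤ (φ (f ^ n) + D) / n
    rcases n with _ | n
    · simp only [Nat.cast_zero, div_zero]
      linarith [abs_nonneg (φ f)]
    · have h1 := pow_le h hf n
      have hn : (0 : ℝ) < ((n + 1 : ℕ) : ℝ) := by positivity
      rw [le_div_iff₀ hn]
      rw [abs_le] at h1
      have h2 := neg_abs_le (φ f)
      push_cast
      have h3 : (0 : ℝ) ≤ n := by positivity
      nlinarith [h1.1, mul_nonneg h3 hD,
        mul_le_mul_of_nonneg_left h2 (by positivity : (0 : ℝ) ≤ n + 1)]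
  have ht := hs.tendsto_lim hb
  refine ⟨hs.lim, ?_⟩
  have h2 : Tendsto (fun n : ℕ => D / (n : ℝ)) atTop (𝓝 0) :=
    tendsto_const_div_atTop_nhds_zero_nat D
  have h3 := ht.sub h2
  rw [sub_zero] at h3
  refine h3.congr fun n => ?_
  show (φ (f ^ n) + D) / n - D / n = φ (f ^ n) / n
  ring

end HomF

open HomF in
/-- F1: homogenisation -/
theorem exists_hq {G : Type*} [Group G] (Γ : Subgroup G) (φ : G → ℝ) (D : ℝ)
    (h : ∀ f ∈ Γ, ∀ g ∈ Γ, |φ (f * g) - φ f - φ g| ≤ D) :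
    ∃ ψ : G → ℝ, HQ Γ ψ (4 * D) ∧ ∀ f ∈ Γ, |ψ f - φ f| ≤ D := by
  classical
  have hD : 0 ≤ D := (abs_nonneg _).trans (one_le h)
  choose! ψ hψ using fun f (hf : f ∈ Γ) => exists_lim h hf
  have hcl : ∀ f ∈ Γ, |ψ f - φ f| ≤ D := by
    intro f hf
    have h1 : Tendsto (fun n : ℕ => φ (f ^ (n + 1)) / ((n + 1 : ℕ) : ℝ)) atTop (𝓝 (ψ f)) :=
      (hψ f hf).comp (tendsto_add_atTop_nat 1)
    have h2 : Tendsto (fun n : ℕ => |φ (f ^ (n + 1)) / ((n + 1 : ℕ) : ℝ) - φ f|) atTop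
        (𝓝 |ψ f - φ f|) := (h1.sub_const _).abs
    refine le_of_tendsto h2 (Eventually.of_forall fun n => ?_)
    have hn : (0 : ℝ) < ((n + 1 : ℕ) : ℝ) := by positivity
    have h3 : φ (f ^ (n + 1)) / ((n + 1 : ℕ) : ℝ) - φ f
        = (φ (f ^ (n + 1)) - (n + 1) * φ f) / ((n + 1 : ℕ) : ℝ) := by
      field_simp
      push_cast
      ring
    rw [h3, abs_div, abs_of_pos hn, div_le_iff₀ hn]
    refine (pow_le h hf n).trans ?_
    push_cast
    nlinarith
  have hnat : ∀ f ∈ Γ, ∀ k : ℕ, ψ (f ^ k) = k * ψ f := by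
    intro f hf k
    rcases Nat.eq_zero_or_pos k with rfl | hk
    · have h1 := hψ _ (Γ.pow_mem hf 0)
      have h2 : Tendsto (fun n : ℕ => φ ((f ^ 0) ^ n) / n) atTop (𝓝 0) := by
        simp only [pow_zero, one_pow]
        exact tendsto_const_div_atTop_nhds_zero_nat _
      rw [tendsto_nhds_unique h1 h2]
      simp
    · have h1 := hψ _ (Γ.pow_mem hf k)
      have h2 : Tendsto (fun n : ℕ => k * n) atTop atTop :=
        tendsto_id.const_mul_atTop' hk
      have h3 := ((hψ f hf).comp h2).const_mul (k : ℝ)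
      refine tendsto_nhds_unique h1 (h3.congr' ?_)
      filter_upwards [eventually_gt_atTop 0] with n hn
      have hk' : (k : ℝ) ≠ 0 := by positivity
      have hn' : (n : ℝ) ≠ 0 := by positivity
      show (k : ℝ) * (φ (f ^ (k * n)) / ((k * n : ℕ) : ℝ)) = φ ((f ^ k) ^ n) / n
      rw [← pow_mul]
      push_cast
      field_simp
  have hinv : ∀ f ∈ Γ, ψ f⁻¹ = - ψ f := by
    intro f hf
    have h1 := (hψ _ (Γ.inv_mem hf)).add (hψ f hf)
    have h2 : Tendsto (fun n : ℕ => φ (f⁻¹ ^ n) / n + φ (f ^ n) / n) atTop (𝓝 0) := by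
      refine squeeze_zero_norm (a := fun n : ℕ => 2 * D / n) (fun n => ?_)
        (tendsto_const_div_atTop_nhds_zero_nat _)
      have h3 := h _ (Γ.pow_mem (Γ.inv_mem hf) n) _ (Γ.pow_mem hf n)
      have h4 : f⁻¹ ^ n * f ^ n = 1 := by rw [inv_pow, inv_mul_cancel]
      rw [h4] at h3
      have h5 := one_le h
      have h6 : |φ (f⁻¹ ^ n) + φ (f ^ n)| ≤ 2 * D := by
        rw [abs_le] at h3 h5 ⊢
        constructor <;> linarith [h3.1, h3.2, h5.1, h5.2]
      rw [← add_div, Real.norm_eq_abs, abs_div, Nat.abs_cast]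
      exact div_le_div_of_nonneg_right h6 (by positivity)
    have h3 := tendsto_nhds_unique h1 h2
    linarith
  refine ⟨ψ, ⟨by positivity, fun f hf g hg => ?_, fun f hf n => ?_⟩, hcl⟩
  · have h1 := h f hf g hg
    have h2 := hcl f hf
    have h3 := hcl g hg
    have h4 := hcl _ (Γ.mul_mem hf hg)
    rw [abs_le] at h1 h2 h3 h4 ⊢
    constructor <;> linarith [h1.1, h1.2, h2.1, h2.2, h3.1, h3.2, h4.1, h4.2]
  · rcases Int.eq_nat_or_neg n with ⟨k, rfl | rfl⟩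
    · rw [zpow_natCast, hnat f hf k]
      simp
    · rw [zpow_neg, zpow_natCast, hinv _ (Γ.pow_mem hf k), hnat f hf k]
      push_cast
      ring

end Pool.Agent.QM59
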