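import Pool.Agent.Lib.MP_decea1_gt_F.Jac

/-!
# MP_decea1_gt, block F4': the chart expression of an element of `GS` has Jacobian 1
-/

set_option autoImplicit false
open Set Filter Topology Metric MeasureTheory Module
open scoped ContDiff Manifold ENNReal

namespace Pool.Agent.QM59

open SphF

theorem muS_image {x : Equiv.Perm S3} (hx : x ∈ GS) {B : Set S3} (hB : MeasurableSet B) :
    muS (x '' B) = muS B := by
  have h1 : x '' B = (fun y => x⁻¹ y) ⁻¹' B := by
    rw [Equiv.image_eq_preimage_symm]
    rfl
  rw [h1]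
  exact (measurePreserving_of_mem_GS (GS.inv_mem hx)).measure_preimage hB.nullMeasurableSet

theorem measurableSet_image_tS {A : Set E3} (hA : MeasurableSet A) (hAC : A ⊆ Cube) :
    MeasurableSet (tS '' A) :=
  hA.image_of_continuousOn_injOn (contOn_tS.mono hAC) (tS_injOn.mono hAC)

theorem continuousOn_hC {x : Equiv.Perm S3} (hx : x ∈ GS) : ContinuousOn (hC x) (WC x) :=
  (contDiffOn_hC hx).continuousOn

theorem injOn_hC {x : Equiv.Perm S3} : InjOn (hC x) (WC x) := by
  intro u hu v hv h
  have h1 : tS (hC x u) = tS (hC x v) := congrArg tS h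
  rw [tS_hC hu, tS_hC hv] at h1
  exact tS_injOn hu.1 hv.1 (x.injective h1)

theorem tS_image_hC {x : Equiv.Perm S3} {A : Set E3} (hA : A ⊆ WC x) :
    tS '' (hC x '' A) = x '' (tS '' A) := by
  rw [image_image, image_image]
  exact image_congr fun u hu => tS_hC (hA hu)

theorem cS_ne_zero : ENNReal.ofReal (2 * Real.pi ^ 2) ≠ 0 := by
  rw [Ne, ENNReal.ofReal_eq_zero, not_le]
  positivity

theorem volume_image_hC {x : Equiv.Perm S3} (hx : x ∈ GS) {A : Set E3} (hA : MeasurableSet A)
    (hAW : A ⊆ WC x) : volume (hC x '' A) = volume A := by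
  have h1 : MeasurableSet (hC x '' A) :=
    hA.image_of_continuousOn_injOn ((continuousOn_hC hx).mono hAW) (injOn_hC.mono hAW)
  have h2 : hC x '' A ⊆ Cube := by
    rintro _ ⟨u, -, rfl⟩
    exact hC_mem x u
  have h3 := toSphere_Th h1 h2
  have hAC : A ⊆ Cube := hAW.trans (WC_subset x)
  have h4 := toSphere_Th hA hAC
  have h5 := muS_image hx (measurableSet_image_tS hA hAC)
  rw [tS_image_hC hAW] at h3
  have h6 : ENNReal.ofReal (2 * Real.pi ^ 2) * volume (hC x '' A)
      = ENNReal.ofReal (2 * Real.pi ^ 2) * volume A := by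
    rw [← h3, ← h4]
    exact h5
  exact (ENNReal.mul_right_inj cS_ne_zero ENNReal.ofReal_ne_top).mp h6

/-- F4': the chart expression of an element of `GS` has Jacobian one -/
theorem jac_hC {x : Equiv.Perm S3} (hx : x ∈ GS) {u : E3} (hu : u ∈ WC x) :
    jac (hC x) u = 1 := by
  have hW := isOpen_WC hx
  have hd : ∀ v ∈ WC x, HasFDerivAt (hC x) (fderiv ℝ (hC x) v) v := fun v hv =>
    ((contDiffAt_hC hx hv).differentiableAt (by simp)).hasFDerivAt
  have hc : ContinuousOn (fun v => jac (hC x) v) (WC x) := by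
    intro v hv
    have h1 := (contDiffAt_hC hx hv).fderiv_right (m := 0) (by simp)
    exact (ContinuousLinearMap.continuous_det.continuousAt.comp
      h1.continuousAt).continuousWithinAt
  have hc2 : ContinuousOn (fun v => ENNReal.ofReal |jac (hC x) v|) (WC x) :=
    ENNReal.continuous_ofReal.comp_continuousOn hc.abs
  have hae : (fun v => ENNReal.ofReal |jac (hC x) v|) =ᵐ[volume.restrict (WC x)]
      fun _ => (1 : ℝ≥0∞) := by
    refine ae_eq_of_forall_setLIntegral_eq_of_sigmaFinite₀
      (hc2.aemeasurable hW.measurableSet) aemeasurable_const fun s hs _ => ?_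
    rw [Measure.restrict_restrict hs]
    have hm : MeasurableSet (s ∩ WC x) := hs.inter hW.measurableSet
    have h1 := lintegral_abs_det_fderiv_eq_addHaar_image volume hm
      (fun v hv => (hd v hv.2).hasFDerivWithinAt) (injOn_hC.mono inter_subset_right)
    rw [lintegral_const, one_mul, Measure.restrict_apply_univ]
    rw [volume_image_hC hx hm inter_subset_right] at h1
    exact h1
  have h1 := Measure.eqOn_open_of_ae_eq hae hW hc2 continuousOn_const hu
  have h2 := jac_hC_pos hx hu
  have h3 : ENNReal.ofReal |jac (hC x) u| = 1 := h1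
  rw [abs_of_pos h2, ENNReal.ofReal_eq_one] at h3
  exact h3

end Pool.Agent.QM59
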