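import Mathlib

/-!
# MP_decea1_gt, block F3: smooth calculus on the unit sphere through the radial projection
-/

set_option autoImplicit false

open Metric Module Filter Topology
open scoped Manifold ContDiff

namespace Pool.Agent.QM59.SphF

section

variable {E : Type*} [NormedAddCommGroup E] [InnerProductSpace ℝ E]

theorem nrm_mem {v : E} (h : v ≠ 0) : ‖v‖⁻¹ • v ∈ sphere (0 : E) 1 := by
  rw [mem_sphere_zero_iff_norm, norm_smul, norm_inv, norm_norm,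
    inv_mul_cancel₀ (norm_ne_zero_iff.mpr h)]

open Classical in
/-- radial projection on the unit sphere (`q` at the origin) -/
noncomputable def nS (q : sphere (0 : E) 1) (v : E) : sphere (0 : E) 1 :=
  if h : v = 0 then q else ⟨‖v‖⁻¹ • v, nrm_mem h⟩

theorem nS_coe (q : sphere (0 : E) 1) {v : E} (h : v ≠ 0) : (nS q v : E) = ‖v‖⁻¹ • v := by
  rw [nS, dif_neg h]

omit [InnerProductSpace ℝ E] in
theorem coe_ne_zero (x : sphere (0 : E) 1) : (x : E) ≠ 0 := by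
  intro h
  have h1 := mem_sphere_zero_iff_norm.mp x.2
  rw [h, norm_zero] at h1
  exact zero_ne_one h1

omit [InnerProductSpace ℝ E] in
theorem norm_coe (x : sphere (0 : E) 1) : ‖(x : E)‖ = 1 := mem_sphere_zero_iff_norm.mp x.2

@[simp] theorem nS_self (q x : sphere (0 : E) 1) : nS q (x : E) = x := by
  apply Subtype.ext
  rw [nS_coe q (coe_ne_zero x), norm_coe, inv_one, one_smul]

theorem nS_smul (q x : sphere (0 : E) 1) {r : ℝ} (hr : 0 < r) : nS q (r • (x : E)) = x := by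
  apply Subtype.ext
  have h0 : r • (x : E) ≠ 0 := smul_ne_zero hr.ne' (coe_ne_zero x)
  rw [nS_coe q h0, norm_smul, norm_coe, mul_one, Real.norm_eq_abs, abs_of_pos hr, smul_smul,
    inv_mul_cancel₀ hr.ne', one_smul]

theorem norm_smul_nS (q : sphere (0 : E) 1) (v : E) : ‖v‖ • (nS q v : E) = v := by
  by_cases h : v = 0
  · simp [h]
  · rw [nS_coe q h, smul_smul, mul_inv_cancel₀ (norm_ne_zero_iff.mpr h), one_smul]

/-- the radial projection is smooth off the origin -/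
theorem contMDiffAt_nS [FiniteDimensional ℝ E] {n : ℕ} [Fact (finrank ℝ E = n + 1)]
    (q : sphere (0 : E) 1)
    {v₀ : E} (h : v₀ ≠ 0) : ContMDiffAt 𝓘(ℝ, E) (𝓡 n) (⊤ : ℕ∞) (nS q) v₀ := by
  have hp : 0 < ‖v₀‖ := norm_pos_iff.mpr h
  let χ : ContDiffBump v₀ := ⟨‖v₀‖ / 4, ‖v₀‖ / 2, by positivity, by linarith⟩
  let w : E → E := fun v => v₀ + χ v • (v - v₀)
  have hw : ContDiff ℝ (⊤ : ℕ∞) w :=
    contDiff_const.add (χ.contDiff.smul (contDiff_id.sub contDiff_const))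
  have hw0 : ∀ v, w v ≠ 0 := by
    intro v hv
    have h1 : ‖χ v • (v - v₀)‖ < ‖v₀‖ := by
      by_cases hv' : v ∈ ball v₀ (‖v₀‖ / 2)
      · rw [norm_smul, Real.norm_eq_abs, abs_of_nonneg χ.nonneg]
        rw [mem_ball_iff_norm] at hv'
        calc χ v * ‖v - v₀‖ ≤ 1 * ‖v - v₀‖ :=
              mul_le_mul_of_nonneg_right χ.le_one (norm_nonneg _)
          _ < ‖v₀‖ := by linarith
      · have : χ v = 0 := by
          apply χ.zero_of_le_dist
          rw [mem_ball, not_lt] at hv'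
          exact hv'
        rw [this, zero_smul, norm_zero]
        exact hp
    have h2 : ‖v₀‖ = ‖χ v • (v - v₀)‖ := by
      have h3 : v₀ = - (χ v • (v - v₀)) := eq_neg_of_add_eq_zero_left hv
      calc ‖v₀‖ = ‖- (χ v • (v - v₀))‖ := congrArg _ h3
        _ = _ := norm_neg _
    exact absurd h1 (by rw [← h2]; exact lt_irrefl _)
  have hg : ContDiff ℝ (⊤ : ℕ∞) fun v => ‖w v‖⁻¹ • w v := by
    refine ContDiff.smul ?_ hw
    exact (hw.norm ℝ hw0).inv fun v => norm_ne_zero_iff.mpr (hw0 v)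
  have hmem : ∀ v, ‖w v‖⁻¹ • w v ∈ sphere (0 : E) 1 := fun v => nrm_mem (hw0 v)
  have hM := hg.contMDiff.codRestrict_sphere (n := n) hmem
  refine hM.contMDiffAt.congr_of_eventuallyEq ?_
  have hev := χ.eventuallyEq_one
  have hne : ∀ᶠ v in 𝓝 v₀, v ≠ 0 := eventually_ne_nhds h
  filter_upwards [hev, hne] with v hv hv0
  apply Subtype.ext
  rw [nS_coe q hv0]
  have : w v = v := by
    show v₀ + χ v • (v - v₀) = v
    rw [hv]
    simp
  show ‖v‖⁻¹ • v = ‖w v‖⁻¹ • w v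
  rw [this]

/-- the homogeneous extension (of degree one) of a map of the sphere to itself -/
noncomputable def ex (q : sphere (0 : E) 1) (f : sphere (0 : E) 1 → sphere (0 : E) 1) (v : E) : E :=
  ‖v‖ • (f (nS q v) : E)

theorem norm_ex (q : sphere (0 : E) 1) (f : sphere (0 : E) 1 → sphere (0 : E) 1) (v : E) :
    ‖ex q f v‖ = ‖v‖ := by
  rw [ex, norm_smul, norm_norm, norm_coe, mul_one]

theorem ex_ne_zero (q : sphere (0 : E) 1) (f : sphere (0 : E) 1 → sphere (0 : E) 1) {v : E}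
    (h : v ≠ 0) : ex q f v ≠ 0 := by
  rw [← norm_ne_zero_iff, norm_ex]
  exact norm_ne_zero_iff.mpr h

theorem ex_id (q : sphere (0 : E) 1) (v : E) : ex q (fun x => x) v = v := norm_smul_nS q v

theorem ex_coe (q : sphere (0 : E) 1) (f : sphere (0 : E) 1 → sphere (0 : E) 1)
    (x : sphere (0 : E) 1) : ex q f (x : E) = f x := by
  rw [ex, nS_self, norm_coe, one_smul]

theorem ex_comp (q : sphere (0 : E) 1) (f g : sphere (0 : E) 1 → sphere (0 : E) 1) (v : E) :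
    ex q f (ex q g v) = ex q (fun x => f (g x)) v := by
  by_cases h : v = 0
  · simp [h, ex]
  · have hp : 0 < ‖v‖ := norm_pos_iff.mpr h
    show ‖ex q g v‖ • (f (nS q (‖v‖ • (g (nS q v) : E))) : E) = ‖v‖ • (f (g (nS q v)) : E)
    rw [nS_smul q _ hp, norm_ex]

/-- smoothness of the homogeneous extension, with parameters -/
theorem contDiffAt_ex_param [FiniteDimensional ℝ E] {n : ℕ} [Fact (finrank ℝ E = n + 1)]
    {H : Type*} [NormedAddCommGroup H] [NormedSpace ℝ H]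
    (q : sphere (0 : E) 1) {F : H × sphere (0 : E) 1 → sphere (0 : E) 1}
    (hF : ContMDiff ((𝓘(ℝ, H)).prod (𝓡 n)) (𝓡 n) (⊤ : ℕ∞) F) {p₀ : H × E} (h : p₀.2 ≠ 0) :
    ContDiffAt ℝ (⊤ : ℕ∞) (fun p : H × E => ex q (fun x => F (p.1, x)) p.2) p₀ := by
  have h1 : ContMDiffAt 𝓘(ℝ, H × E) 𝓘(ℝ, H) (⊤ : ℕ∞) (fun p : H × E => p.1) p₀ :=
    contDiff_fst.contMDiff.contMDiffAt
  have h2 : ContMDiffAt 𝓘(ℝ, H × E) 𝓘(ℝ, E) (⊤ : ℕ∞) (fun p : H × E => p.2) p₀ :=
    contDiff_snd.contMDiff.contMDiffAt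
  have h3 : ContMDiffAt 𝓘(ℝ, H × E) (𝓡 n) (⊤ : ℕ∞) (fun p : H × E => nS q p.2) p₀ :=
    ContMDiffAt.comp p₀ (contMDiffAt_nS q h) h2
  have h4 : ContMDiffAt 𝓘(ℝ, H × E) ((𝓘(ℝ, H)).prod (𝓡 n)) (⊤ : ℕ∞)
      (fun p : H × E => (p.1, nS q p.2)) p₀ := h1.prodMk h3
  have h5 : ContMDiffAt 𝓘(ℝ, H × E) 𝓘(ℝ, E) (⊤ : ℕ∞)
      (fun p : H × E => (F (p.1, nS q p.2) : E)) p₀ :=
    ContMDiffAt.comp p₀ (g := fun y => (F y : E))
      ((contMDiff_coe_sphere.comp hF).contMDiffAt) h4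
  have h6 := h5.contDiffAt
  refine ContDiffAt.smul ?_ h6
  exact ContDiffAt.norm ℝ contDiffAt_snd h

/-- smoothness of the homogeneous extension -/
theorem contDiffAt_ex [FiniteDimensional ℝ E] {n : ℕ} [Fact (finrank ℝ E = n + 1)]
    (q : sphere (0 : E) 1) {f : sphere (0 : E) 1 → sphere (0 : E) 1}
    (hf : ContMDiff (𝓡 n) (𝓡 n) (⊤ : ℕ∞) f) {v : E} (h : v ≠ 0) :
    ContDiffAt ℝ (⊤ : ℕ∞) (ex q f) v := by
  have h3 : ContMDiffAt 𝓘(ℝ, E) (𝓡 n) (⊤ : ℕ∞) (nS q) v := contMDiffAt_nS q h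
  have h5 : ContMDiffAt 𝓘(ℝ, E) 𝓘(ℝ, E) (⊤ : ℕ∞) (fun p : E => (f (nS q p) : E)) v :=
    ContMDiffAt.comp v (g := fun y => (f y : E)) ((contMDiff_coe_sphere.comp hf).contMDiffAt) h3
  refine ContDiffAt.smul ?_ h5.contDiffAt
  exact contDiffAt_id.norm ℝ h

/-- conversely, a map whose extension is smooth at the points of the sphere is smooth -/
theorem contMDiff_of_ex [FiniteDimensional ℝ E] {n : ℕ} [Fact (finrank ℝ E = n + 1)]
    {f : sphere (0 : E) 1 → sphere (0 : E) 1} (g : E → E) (hg : ∀ x : sphere (0 : E) 1,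
      ContDiffAt ℝ (⊤ : ℕ∞) g (x : E)) (hfg : ∀ x : sphere (0 : E) 1, g (x : E) = f x) :
    ContMDiff (𝓡 n) (𝓡 n) (⊤ : ℕ∞) f := by
  have h1 : ContMDiff (𝓡 n) 𝓘(ℝ, E) (⊤ : ℕ∞) (fun x : sphere (0 : E) 1 => g (x : E)) := by
    intro x
    exact ContMDiffAt.comp (I := 𝓡 n) x (g := g) (hg x).contMDiffAt
      (contMDiff_coe_sphere (n := n)).contMDiffAt
  have h2 : ∀ x : sphere (0 : E) 1, g (x : E) ∈ sphere (0 : E) 1 := fun x => by
    rw [hfg]; exact (f x).2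
  have h3 := h1.codRestrict_sphere (n := n) h2
  have h4 : (Set.codRestrict (fun x : sphere (0 : E) 1 => g (x : E)) (sphere (0 : E) 1) h2)
      = f := by
    funext x
    exact Subtype.ext (hfg x)
  rw [h4] at h3
  exact h3

end

end Pool.Agent.QM59.SphF
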