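import Mathlib
import Pool.Agent.Lib.MP_decea1_gt_F.Sph

/-!
# MP_decea1_gt, block F5: rotations of the sphere and volume preserving paths of them
-/

set_option autoImplicit false

open Metric Module Filter Topology MeasureTheory Set
open scoped Manifold ContDiff Pointwise

namespace Pool.Agent.QM59.SphF

section

variable {E : Type*} [NormedAddCommGroup E] [InnerProductSpace ℝ E]

/-- the restriction of a linear isometry to the unit sphere -/
def sphMap (A : E ≃ₗᵢ[ℝ] E) (x : sphere (0 : E) 1) : sphere (0 : E) 1 :=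
  ⟨A x, by rw [mem_sphere_zero_iff_norm, A.norm_map]; exact norm_coe x⟩

theorem sphMap_coe (A : E ≃ₗᵢ[ℝ] E) (x : sphere (0 : E) 1) : (sphMap A x : E) = A x := rfl

theorem continuous_sphMap (A : E ≃ₗᵢ[ℝ] E) : Continuous (sphMap A) :=
  (A.continuous.comp continuous_subtype_val).subtype_mk _

theorem measurePreserving_sphMap [FiniteDimensional ℝ E] [MeasurableSpace E] [BorelSpace E]
    (A : E ≃ₗᵢ[ℝ] E) :
    MeasurePreserving (sphMap A) (volume : Measure E).toSphere (volume : Measure E).toSphere := by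
  refine ⟨(continuous_sphMap A).measurable, ?_⟩
  ext s hs
  rw [Measure.map_apply (continuous_sphMap A).measurable hs,
    Measure.toSphere_apply' _ (hs.preimage (continuous_sphMap A).measurable),
    Measure.toSphere_apply' _ hs]
  congr 1
  have h : Ioo (0 : ℝ) 1 • (((↑) : sphere (0 : E) 1 → E) '' (sphMap A ⁻¹' s)) =
      A ⁻¹' (Ioo (0 : ℝ) 1 • (((↑) : sphere (0 : E) 1 → E) '' s)) := by
    ext z
    constructor
    · intro hz
      obtain ⟨t, ht, y, ⟨x, hx, rfl⟩, rfl⟩ := Set.mem_smul.1 hz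
      rw [mem_preimage, map_smul]
      exact Set.smul_mem_smul ht ⟨sphMap A x, hx, rfl⟩
    · intro hz
      rw [mem_preimage] at hz
      obtain ⟨t, ht, y, ⟨x, hx, rfl⟩, h⟩ := Set.mem_smul.1 hz
      have h2 : z = t • A.symm x := by
        rw [← map_smul, h, A.symm_apply_apply]
      rw [h2]
      refine Set.smul_mem_smul ht ⟨sphMap A.symm x, ?_, rfl⟩
      rw [mem_preimage]
      have : sphMap A (sphMap A.symm x) = x := by
        apply Subtype.ext
        exact A.apply_symm_apply x
      rw [this]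
      exact hx
  rw [h]
  exact A.measurePreserving.measure_preimage_emb A.toHomeomorph.measurableEmbedding _

/-- the diffeomorphism of the sphere given by a linear isometry -/
noncomputable def sphDif [FiniteDimensional ℝ E] {n : ℕ} [Fact (finrank ℝ E = n + 1)]
    (A : E ≃ₗᵢ[ℝ] E) :
    Diffeomorph (𝓡 n) (𝓡 n) (sphere (0 : E) 1) (sphere (0 : E) 1) (⊤ : ℕ∞) where
  toFun := sphMap A
  invFun := sphMap A.symm
  left_inv x := Subtype.ext (A.symm_apply_apply x)
  right_inv x := Subtype.ext (A.apply_symm_apply x)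
  contMDiff_toFun := by
    refine contMDiff_of_ex (fun v => A v) (fun x => ?_) (fun x => rfl)
    exact A.toContinuousLinearEquiv.contDiff.contDiffAt
  contMDiff_invFun := by
    refine contMDiff_of_ex (fun v => A.symm v) (fun x => ?_) (fun x => rfl)
    exact A.symm.toContinuousLinearEquiv.contDiff.contDiffAt

/-- the half turn about a line -/
noncomputable def hT (w : E) : E ≃ₗᵢ[ℝ] E := (ℝ ∙ w).reflection

theorem hT_apply (w v : E) : hT w v = (2 * (inner ℝ w v / ‖w‖ ^ 2)) • w - v := by
  rw [hT, Submodule.reflection_singleton_apply, two_mul, add_smul, two_smul]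
  simp

theorem hT_hT (w v : E) : hT w (hT w v) = v := by
  rw [hT, Submodule.reflection_reflection]

end

section

variable {E : Type*} [NormedAddCommGroup E] [InnerProductSpace ℝ E] [FiniteDimensional ℝ E]
  [MeasurableSpace E] [BorelSpace E] {n : ℕ} [Fact (finrank ℝ E = n + 1)]

/-- F5: a volume preserving path from the identity to a rotation moving `p` to `p'` -/
theorem exists_rot_path (p p' : sphere (0 : E) 1) (hp : (p' : E) ≠ - (p : E)) :
    ∃ F : ℝ × sphere (0 : E) 1 → sphere (0 : E) 1,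
      ContMDiff ((𝓘(ℝ, ℝ)).prod (𝓡 n)) (𝓡 n) (⊤ : ℕ∞) F ∧ (∀ x, F (0, x) = x) ∧
      F (1, p) = p' ∧
      ∀ t : ℝ, ∃ g : Diffeomorph (𝓡 n) (𝓡 n) (sphere (0 : E) 1) (sphere (0 : E) 1) (⊤ : ℕ∞),
        (∀ x, g x = F (t, x)) ∧
        MeasurePreserving g (volume : Measure E).toSphere (volume : Measure E).toSphere := by
  set h : ℝ → ℝ := Real.smoothTransition with hh
  set w : ℝ → E := fun t => (p : E) + h t • (p' : E) with hw
  have hw0 : ∀ t, w t ≠ 0 := by
    intro t h0
    have h1 : (p : E) = - (h t • (p' : E)) := eq_neg_of_add_eq_zero_left h0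
    have h2 : (1 : ℝ) = h t := by
      have h3 := congrArg norm h1
      rw [norm_neg, norm_smul, norm_coe, norm_coe, mul_one, Real.norm_eq_abs,
        abs_of_nonneg (Real.smoothTransition.nonneg t)] at h3
      exact h3
    rw [← h2, one_smul] at h1
    apply hp
    rw [h1, neg_neg]
  have hws : ContDiff ℝ (⊤ : ℕ∞) w :=
    contDiff_const.add (Real.smoothTransition.contDiff.smul contDiff_const)
  let A : ℝ → (E ≃ₗᵢ[ℝ] E) := fun t => (hT (p : E)).trans (hT (w t))
  let G : ℝ × E → E := fun y => (2 * (inner ℝ (w y.1) (hT (p : E) y.2) / ‖w y.1‖ ^ 2)) • w y.1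
    - hT (p : E) y.2
  have hG : ContDiff ℝ (⊤ : ℕ∞) G := by
    have h1 : ContDiff ℝ (⊤ : ℕ∞) fun y : ℝ × E => w y.1 := hws.comp contDiff_fst
    have h2 : ContDiff ℝ (⊤ : ℕ∞) fun y : ℝ × E => hT (p : E) y.2 :=
      (hT (p : E)).toContinuousLinearEquiv.contDiff.comp contDiff_snd
    refine ContDiff.sub (ContDiff.smul (contDiff_const.mul ?_) h1) h2
    refine ContDiff.div (h1.inner ℝ h2) (h1.norm_sq ℝ) fun y => ?_
    exact pow_ne_zero 2 (norm_ne_zero_iff.mpr (hw0 y.1))
  have hGA : ∀ t v, G (t, v) = A t v := by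
    intro t v
    show _ = hT (w t) (hT (p : E) v)
    rw [hT_apply]
  let F : ℝ × sphere (0 : E) 1 → sphere (0 : E) 1 := fun y => sphMap (A y.1) y.2
  have hF : ContMDiff ((𝓘(ℝ, ℝ)).prod (𝓡 n)) (𝓡 n) (⊤ : ℕ∞) F := by
    have h1 : ContMDiff ((𝓘(ℝ, ℝ)).prod (𝓡 n)) 𝓘(ℝ, E) (⊤ : ℕ∞)
        (fun y : ℝ × sphere (0 : E) 1 => G (y.1, (y.2 : E))) := by
      refine hG.contMDiff.comp ?_
      exact contMDiff_fst.prodMk_space ((contMDiff_coe_sphere (n := n)).comp contMDiff_snd)
    have h2 : ∀ y : ℝ × sphere (0 : E) 1, G (y.1, (y.2 : E)) ∈ sphere (0 : E) 1 := by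
      intro y
      rw [hGA]
      exact (sphMap (A y.1) y.2).2
    have h3 := h1.codRestrict_sphere (n := n) h2
    have h4 : (Set.codRestrict (fun y : ℝ × sphere (0 : E) 1 => G (y.1, (y.2 : E)))
        (sphere (0 : E) 1) h2) = F := by
      funext y
      exact Subtype.ext (hGA y.1 y.2)
    rw [h4] at h3
    exact h3
  refine ⟨F, hF, fun x => ?_, ?_, fun t => ⟨sphDif (A t), fun x => rfl,
    measurePreserving_sphMap (A t)⟩⟩
  · apply Subtype.ext
    show hT (w 0) (hT (p : E) x) = x
    have h1 : w 0 = p := by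
      show (p : E) + h 0 • (p' : E) = p
      rw [hh, Real.smoothTransition.zero_of_nonpos le_rfl, zero_smul, add_zero]
    rw [h1, hT_hT]
  · apply Subtype.ext
    show hT (w 1) (hT (p : E) p) = p'
    have h1 : w 1 = (p : E) + p' := by
      show (p : E) + h 1 • (p' : E) = _
      rw [hh, Real.smoothTransition.one_of_one_le le_rfl, one_smul]
    have hpp : inner ℝ (p : E) (p : E) = 1 := by
      rw [real_inner_self_eq_norm_sq, norm_coe, one_pow]
    have hpp' : inner ℝ (p' : E) (p' : E) = 1 := by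
      rw [real_inner_self_eq_norm_sq, norm_coe, one_pow]
    have h2 : hT (p : E) p = p := by
      rw [hT_apply, norm_coe, hpp]
      norm_num
      rw [two_smul]
      abel
    have h0 := hw0 1
    rw [h1] at h0
    rw [h1, h2, hT_apply]
    have h3 : ‖(p : E) + p'‖ ^ 2 = 2 * (1 + inner ℝ (p' : E) (p : E)) := by
      rw [← real_inner_self_eq_norm_sq, inner_add_left, inner_add_right, inner_add_right, hpp, hpp',
        real_inner_comm (p : E) (p' : E)]
      ring
    have h4 : inner ℝ ((p : E) + p') (p : E) = 1 + inner ℝ (p' : E) (p : E) := by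
      rw [inner_add_left, hpp]
    have h5 : (1 + inner ℝ (p' : E) (p : E) : ℝ) ≠ 0 := by
      intro h6
      apply h0
      rw [← norm_eq_zero, ← sq_eq_zero_iff, h3, h6, mul_zero]
    rw [h4, h3]
    have h6 : (2 * ((1 + inner ℝ (p' : E) (p : E)) / (2 * (1 + inner ℝ (p' : E) (p : E)))) : ℝ)
        = 1 := by
      field_simp
    rw [h6, one_smul]
    abel

end

end Pool.Agent.QM59.SphF
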