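import Pool.Agent.Lib.MP_decea1_gt_F.GS
import Pool.Agent.Lib.MP_decea1_gt_F.Rot

/-!
# MP_decea1_gt, block F5: `GS` acts transitively on the sphere
-/

set_option autoImplicit false
open Set Filter Topology Metric MeasureTheory Module
open scoped ContDiff Manifold

namespace Pool.Agent.QM59

open SphF

theorem exists_GS_move_of_ne {p p' : S3} (hp : (p' : E4) ≠ - (p : E4)) : ∃ ρ ∈ GS, ρ p = p' := by
  obtain ⟨F, hF, h0, h1, hd⟩ := exists_rot_path (n := 3) p p' hp
  obtain ⟨g, hg, -⟩ := hd 1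
  exact ⟨g.toEquiv, ⟨g, ⟨F, hF, h0, fun x => (hg x).symm, hd⟩, fun x => rfl⟩, (hg p).trans h1⟩

theorem exists_ne_ne (p : S3) : ∃ m : S3, m ≠ p ∧ (m : E4) ≠ - (p : E4) := by
  let e0 : S3 := ⟨EuclideanSpace.single (0 : Fin 4) (1 : ℝ), by simp⟩
  let e1 : S3 := ⟨EuclideanSpace.single (1 : Fin 4) (1 : ℝ), by simp⟩
  have h01 : (e0 : E4) 1 = 0 := by simp [e0]
  have h00 : (e0 : E4) 0 = 1 := by simp [e0]
  have h11 : (e1 : E4) 1 = 1 := by simp [e1]
  have h10 : (e1 : E4) 0 = 0 := by simp [e1]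
  by_cases h : e0 ≠ p ∧ (e0 : E4) ≠ - (p : E4)
  · exact ⟨e0, h⟩
  · refine ⟨e1, ?_, ?_⟩
    · intro h1
      apply h
      subst h1
      constructor
      · intro h2
        have h3 : (e0 : E4) 0 = (e1 : E4) 0 := by rw [h2]
        rw [h00, h10] at h3
        exact one_ne_zero h3
      · intro h2
        have h3 : (e0 : E4) 0 = (-(e1 : E4)) 0 := by rw [h2]
        rw [PiLp.neg_apply, h00, h10, neg_zero] at h3
        exact one_ne_zero h3
    · intro h1
      apply h
      have hp : (p : E4) = - (e1 : E4) := by rw [h1, neg_neg]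
      constructor
      · intro h2
        have h3 : (e0 : E4) 0 = (-(e1 : E4)) 0 := by rw [h2, hp]
        rw [PiLp.neg_apply, h00, h10, neg_zero] at h3
        exact one_ne_zero h3
      · intro h2
        have h3 : (e0 : E4) 0 = (e1 : E4) 0 := by rw [h2, ← h1]
        rw [h00, h10] at h3
        exact one_ne_zero h3

/-- F5 -/
theorem exists_GS_move (p p' : S3) : ∃ ρ ∈ GS, ρ p = p' := by
  by_cases hp : (p' : E4) ≠ - (p : E4)
  · exact exists_GS_move_of_ne hp
  · rw [not_not] at hp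
    obtain ⟨m, hm1, hm2⟩ := exists_ne_ne p
    obtain ⟨ρ, hρ, h1⟩ := exists_GS_move_of_ne hm2
    have h3 : (p' : E4) ≠ - (m : E4) := by
      rw [hp]
      intro h
      exact hm1 (Subtype.ext (neg_injective h).symm)
    obtain ⟨τ, hτ, h2⟩ := exists_GS_move_of_ne h3
    exact ⟨τ * ρ, GS.mul_mem hτ hρ, by rw [Equiv.Perm.mul_apply, h1, h2]⟩

end Pool.Agent.QM59
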