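import Pool.Agent.Lib.MP_decea1_gt_F.Dict3
import Pool.Agent.Lib.MP_decea1_gt_F.JacOne
import Pool.Agent.Lib.MP_decea1_gt_F.Trans
import Pool.Agent.Lib.MP_decea1_gt_B.Clamp

/-!
# MP_decea1_gt, block F6: homogeneous quasimorphisms on `GS`; wall lemma and almost additivity
on the sphere
-/

set_option autoImplicit false
open Set Filter Topology Metric MeasureTheory Module
open scoped ContDiff Manifold ENNReal

namespace Pool.Agent.QM59

/-- Theorem M (blocks A - E), as a statement -/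
def ThmM : Prop := ∀ (Γ : Subgroup (Equiv.Perm E3)) (φ : Equiv.Perm E3 → ℝ) (D : ℝ), Good Γ →
  HQ Γ φ D → ∀ f ∈ Γ, ∀ g ∈ Γ, dphi φ f g = 0

/-- the wall lemma (block B), as a statement -/
def WallT : Prop := ∀ (Γ : Subgroup (Equiv.Perm E3)) (φ : Equiv.Perm E3 → ℝ) (D : ℝ), Good Γ →
  HQ Γ φ D → ∀ ε : ℝ, 0 < ε → ∃ η : ℝ, 0 < η ∧
    ∀ K : Set E3, K ⊆ Cube → IsCompact K → volume K < ENNReal.ofReal η → DB Γ φ K ε

/-- a function on the permutations of the sphere, read in the chart -/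
noncomputable def phiC (φ : Equiv.Perm S3 → ℝ) (f : Equiv.Perm E3) : ℝ := φ (push f)

theorem push_pow {f : Equiv.Perm E3} (hf : IdOff Cube f) (n : ℕ) : push (f ^ n) = push f ^ n := by
  induction n with
  | zero => simp [push_one]
  | succ n ih => rw [pow_succ, pow_succ, push_mul (hf.pow n) hf, ih]

theorem push_zpow {f : Equiv.Perm E3} (hf : IdOff Cube f) (n : ℤ) : push (f ^ n) = push f ^ n := by
  rcases Int.eq_nat_or_neg n with ⟨k, rfl | rfl⟩
  · rw [zpow_natCast, zpow_natCast, push_pow hf]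
  · rw [zpow_neg, zpow_neg, zpow_natCast, zpow_natCast, push_inv (hf.pow k), push_pow hf]

theorem near_qp {x : Equiv.Perm S3} (hx : ∀ᶠ y in 𝓝 qp, x y = y) : x qp = qp := hx.self_of_nhds

theorem Gq_idOff {f : Equiv.Perm E3} (hf : f ∈ Gq) : IdOff Cube f := hf.1

theorem push_mem_of_Gq {f : Equiv.Perm E3} (hf : f ∈ Gq) : push f ∈ GS := hf.2.1

theorem hq_chart {φ : Equiv.Perm S3 → ℝ} {D : ℝ} (h : HQ GS φ D) : HQ Gq (phiC φ) D where
  nonneg := h.nonneg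
  bdd f hf g hg := by
    have h1 := h.bdd _ (push_mem_of_Gq hf) _ (push_mem_of_Gq hg)
    rw [← push_mul (Gq_idOff hf) (Gq_idOff hg)] at h1
    exact h1
  hom f hf n := by
    have h1 := h.hom _ (push_mem_of_Gq hf) n
    rw [← push_zpow (Gq_idOff hf)] at h1
    exact h1

theorem dphi_phiC (φ : Equiv.Perm S3 → ℝ) {x y : Equiv.Perm S3} (hx : x qp = qp) (hy : y qp = qp) :
    dphi (phiC φ) (pull x) (pull y) = dphi φ x y := by
  simp only [dphi, phiC]
  rw [push_mul (pull_idOff hx) (pull_idOff hy), push_pull hx, push_pull hy]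

theorem hom_near_qp (hM : ThmM) {φ : Equiv.Perm S3 → ℝ} {D : ℝ} (h : HQ GS φ D)
    {x y : Equiv.Perm S3} (hx : x ∈ GS) (hy : y ∈ GS) (hx1 : ∀ᶠ z in 𝓝 qp, x z = z)
    (hy1 : ∀ᶠ z in 𝓝 qp, y z = z) : dphi φ x y = 0 := by
  rw [← dphi_phiC φ (near_qp hx1) (near_qp hy1)]
  exact hM Gq (phiC φ) D good_Gq (hq_chart h) _ (pull_mem_Gq hx hx1) _
    (pull_mem_Gq hy hy1)

theorem conj_near {x ρ : Equiv.Perm S3} (hρ : ρ ∈ GS) {p p' : S3} (hp : ρ p = p')
    (hx : ∀ᶠ z in 𝓝 p, x z = z) : ∀ᶠ z in 𝓝 p', (ρ * x * ρ⁻¹) z = z := by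
  have h1 : Continuous (fun z => ρ⁻¹ z) := continuous_GS (GS.inv_mem hρ)
  have h2 : ρ⁻¹ p' = p := by rw [← hp]; simp
  have h3 : Tendsto (fun z => ρ⁻¹ z) (𝓝 p') (𝓝 p) := by
    have := h1.tendsto p'
    rwa [h2] at this
  filter_upwards [h3.eventually hx] with z hz
  rw [Equiv.Perm.mul_apply, Equiv.Perm.mul_apply, hz]
  simp

/-- HOM: two elements of `GS` which are the identity near a common point -/
theorem hom_near (hM : ThmM) {φ : Equiv.Perm S3 → ℝ} {D : ℝ} (h : HQ GS φ D)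
    {x y : Equiv.Perm S3} (hx : x ∈ GS) (hy : y ∈ GS) {p : S3} (hx1 : ∀ᶠ z in 𝓝 p, x z = z)
    (hy1 : ∀ᶠ z in 𝓝 p, y z = z) : dphi φ x y = 0 := by
  obtain ⟨ρ, hρ, h1⟩ := exists_GS_move p qp
  rw [← h.dphi_conj hx hy hρ]
  exact hom_near_qp hM h (GS.mul_mem (GS.mul_mem hρ hx) (GS.inv_mem hρ))
    (GS.mul_mem (GS.mul_mem hρ hy) (GS.inv_mem hρ)) (conj_near hρ h1 hx1) (conj_near hρ h1 hy1)

theorem muS_univ : muS univ = ENNReal.ofReal (2 * Real.pi ^ 2) := by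
  rw [muS_eq MeasurableSet.univ, preimage_univ, inter_univ, volume_Cube, mul_one]

/-- WS: the wall lemma on the sphere -/
theorem wall_S3 (hW : WallT) {φ : Equiv.Perm S3 → ℝ} {D : ℝ} (h : HQ GS φ D) (ε : ℝ)
    (hε : 0 < ε) : ∃ η : ℝ, 0 < η ∧ ∀ K : Set S3, IsClosed K → muS K < ENNReal.ofReal η →
      ∀ x ∈ GS, ∀ y ∈ GS, (∀ z, z ∉ K → x z = z) → (∀ z, z ∉ K → y z = z) →
        |dphi φ x y| ≤ ε := by
  obtain ⟨η₀, hη₀, hw⟩ := hW Gq (phiC φ) D good_Gq (hq_chart h) ε hε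
  have hc : (0 : ℝ) < 2 * Real.pi ^ 2 := by positivity
  refine ⟨min (2 * Real.pi ^ 2 * η₀) (2 * Real.pi ^ 2), lt_min (by positivity) hc, ?_⟩
  intro K hK hmu x hx y hy hxK hyK
  have hne : ∃ p, p ∉ K := by
    by_contra hall
    have hall' : K = univ := by
      ext p
      simp only [mem_univ, iff_true]
      by_contra hp
      exact hall ⟨p, hp⟩
    rw [hall', muS_univ] at hmu
    exact absurd (hmu.trans_le (ENNReal.ofReal_le_ofReal (min_le_right _ _))) (lt_irrefl _)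
  obtain ⟨p, hp⟩ := hne
  obtain ⟨ρ, hρ, h1⟩ := exists_GS_move p qp
  have hρi : Continuous (fun z => ρ⁻¹ z) := continuous_GS (GS.inv_mem hρ)
  set K1 : Set S3 := (fun z => ρ⁻¹ z) ⁻¹' K with hK1
  have hK1c : IsClosed K1 := hK.preimage hρi
  have hq1 : qp ∉ K1 := by
    show ρ⁻¹ qp ∉ K
    rw [← h1]
    simpa using hp
  have hmu1 : muS K1 = muS K :=
    (measurePreserving_of_mem_GS (GS.inv_mem hρ)).measure_preimage
      hK.measurableSet.nullMeasurableSet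
  have hconj : ∀ w : Equiv.Perm S3, (∀ z, z ∉ K → w z = z) →
      ∀ z, z ∉ K1 → (ρ * w * ρ⁻¹) z = z := by
    intro w hw z hz
    have h2 : w (ρ⁻¹ z) = ρ⁻¹ z := hw _ hz
    rw [Equiv.Perm.mul_apply, Equiv.Perm.mul_apply, h2]
    simp
  have hnear : ∀ w : Equiv.Perm S3, (∀ z, z ∉ K1 → w z = z) → ∀ᶠ z in 𝓝 qp, w z = z := by
    intro w hw
    filter_upwards [hK1c.isOpen_compl.mem_nhds hq1] with z hz
    exact hw z hz
  have hK' : IsCompact (Cube ∩ tS ⁻¹' K1) := by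
    have h2 : Cube ∩ tS ⁻¹' K1 = (fun z : S3 => Ps (z : E4)) '' K1 := by
      ext u
      constructor
      · rintro ⟨hu, hu1⟩
        exact ⟨tS u, hu1, Ps_tS hu⟩
      · rintro ⟨z, hz, rfl⟩
        refine ⟨Ps_mem _, ?_⟩
        show tS (Ps (z : E4)) ∈ K1
        rw [tS_Ps (fun h3 => hq1 (h3 ▸ hz))]
        exact hz
    rw [h2]
    refine hK1c.isCompact.image_of_continuousOn (continuousOn_Ps_S3.mono fun z hz => ?_)
    exact fun h3 => hq1 (h3 ▸ hz)
  have hvol : volume (Cube ∩ tS ⁻¹' K1) < ENNReal.ofReal η₀ := by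
    have h2 := muS_eq hK1c.measurableSet
    rw [hmu1] at h2
    have h3 : ENNReal.ofReal (2 * Real.pi ^ 2) * volume (Cube ∩ tS ⁻¹' K1)
        < ENNReal.ofReal (2 * Real.pi ^ 2) * ENNReal.ofReal η₀ := by
      rw [← h2, ← ENNReal.ofReal_mul hc.le]
      exact hmu.trans_le (ENNReal.ofReal_le_ofReal (min_le_left _ _))
    exact lt_of_mul_lt_mul_left' h3
  have hoff : ∀ w : Equiv.Perm S3, (∀ z, z ∉ K1 → w z = z) →
      IdOff (Cube ∩ tS ⁻¹' K1) (pull w) := by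
    intro w hw u hu
    have hwq : w qp = qp := near_qp (hnear w hw)
    by_cases huC : u ∈ Cube
    · have h2 : w (tS u) = tS u := hw _ fun h3 => hu ⟨huC, h3⟩
      rw [pull_of_mem hwq huC, h2, Ps_tS huC]
    · exact pull_idOff hwq u huC
  have hx' := hconj x hxK
  have hy' := hconj y hyK
  have hxG : ρ * x * ρ⁻¹ ∈ GS := GS.mul_mem (GS.mul_mem hρ hx) (GS.inv_mem hρ)
  have hyG : ρ * y * ρ⁻¹ ∈ GS := GS.mul_mem (GS.mul_mem hρ hy) (GS.inv_mem hρ)
  have h2 := hw _ inter_subset_left hK' hvol (pull (ρ * x * ρ⁻¹))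
    (pull_mem_Gq hxG (hnear _ hx')) (pull (ρ * y * ρ⁻¹))
    (pull_mem_Gq hyG (hnear _ hy')) (hoff _ hx') (hoff _ hy')
  rw [dphi_phiC φ (near_qp (hnear _ hx')) (near_qp (hnear _ hy')), h.dphi_conj hx hy hρ] at h2
  exact h2

/-- the subgroup of elements of `GS` which are the identity off `L` -/
def GSoff (L : Set S3) : Subgroup (Equiv.Perm S3) where
  carrier := {g | g ∈ GS ∧ ∀ z, z ∉ L → g z = z}
  one_mem' := ⟨GS.one_mem, fun _ _ => rfl⟩
  mul_mem' := fun {a b} ha hb => ⟨GS.mul_mem ha.1 hb.1, fun z hz => by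
    rw [Equiv.Perm.mul_apply, hb.2 z hz, ha.2 z hz]⟩
  inv_mem' := fun {a} ha => ⟨GS.inv_mem ha.1, fun z hz => by
    rw [Equiv.Perm.inv_eq_iff_eq]
    exact (ha.2 z hz).symm⟩

/-- NS: almost additivity on the sphere -/
theorem almost_additive_S3 (hW : WallT) {φ : Equiv.Perm S3 → ℝ} {D : ℝ} (h : HQ GS φ D) (ε : ℝ)
    (hε : 0 < ε) : ∃ v : ℝ, 0 < v ∧ ∀ K : Set S3, IsClosed K → muS K < ENNReal.ofReal v →
      ∀ x ∈ GS, ∀ u ∈ GS, (∀ z, z ∉ K → u z = z) → |φ (x * u) - φ x - φ u| ≤ ε := by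
  obtain ⟨η, hη, hw⟩ := wall_S3 hW h (ε / 2) (half_pos hε)
  obtain ⟨n, hn⟩ := exists_nat_gt (2 * D / ε)
  have hn1 : (0 : ℝ) < n + 1 := by positivity
  refine ⟨η / (n + 1), by positivity, ?_⟩
  intro K hK hmu x hx u hu huK
  set L : Set S3 := ⋃ i ∈ Finset.range (n + 1), (fun z => (x ^ i) z) ⁻¹' K with hL
  have hLc : IsClosed L := by
    refine Set.Finite.isClosed_biUnion (Finset.finite_toSet _) fun i _ => ?_
    exact hK.preimage (continuous_GS (GS.pow_mem hx i))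
  have hLm : muS L < ENNReal.ofReal η := by
    have h1 : muS L ≤ ∑ i ∈ Finset.range (n + 1), muS ((fun z => (x ^ i) z) ⁻¹' K) :=
      measure_biUnion_finset_le _ _
    have h2 : ∑ i ∈ Finset.range (n + 1), muS ((fun z => (x ^ i) z) ⁻¹' K)
        = ((n + 1 : ℕ) : ℝ≥0∞) * muS K := by
      rw [Finset.sum_congr rfl fun i _ => (measurePreserving_of_mem_GS
        (GS.pow_mem hx i)).measure_preimage hK.measurableSet.nullMeasurableSet]
      rw [Finset.sum_const, Finset.card_range, nsmul_eq_mul]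
    rw [h2] at h1
    refine h1.trans_lt ?_
    have h3 : ((n + 1 : ℕ) : ℝ≥0∞) * muS K
        < ((n + 1 : ℕ) : ℝ≥0∞) * ENNReal.ofReal (η / (n + 1)) :=
      ENNReal.mul_lt_mul_right (by simp) (by finiteness) hmu
    refine h3.trans_le (le_of_eq ?_)
    rw [← ENNReal.ofReal_natCast, ← ENNReal.ofReal_mul (by positivity)]
    congr 1
    push_cast
    field_simp
  have h1 := h.power_bound hx hu (Δ := GSoff L) (c := ε / 2)
    (fun f hf g hg => hw L hLc hLm f hf.1 g hg.1 hf.2 hg.2) (fun f hf => hf.1) (n + 1)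
    (by omega) (fun i hi => ?_)
  · refine h1.trans ?_
    have h2 : D / ((n + 1 : ℕ) : ℝ) ≤ ε / 2 := by
      rw [div_le_iff₀ (by positivity)]
      rw [div_lt_iff₀ hε] at hn
      push_cast
      nlinarith
    linarith
  · refine ⟨GS.mul_mem (GS.mul_mem (GS.pow_mem (GS.inv_mem hx) i) hu) (GS.pow_mem hx i),
      fun z hz => ?_⟩
    have h2 : (x ^ i) z ∉ K := fun h3 => hz (mem_biUnion (Finset.mem_range.mpr hi) h3)
    rw [Equiv.Perm.mul_apply, Equiv.Perm.mul_apply, huK _ h2, inv_pow]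
    simp

end Pool.Agent.QM59
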