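import Mathlib
import Pool.Agent.Lib.MP_decea1_gt_F.Sph

/-!
# MP_decea1_gt, block F4: the sign lemma
-/

set_option autoImplicit false

open Metric Module Filter Topology
open scoped Manifold ContDiff

namespace Pool.Agent.QM59.SphF

variable {E : Type*} [NormedAddCommGroup E] [InnerProductSpace ℝ E] [FiniteDimensional ℝ E]
  {n : ℕ} [Fact (finrank ℝ E = n + 1)]

theorem comp_fderiv_ex (q : sphere (0 : E) 1) {f g : sphere (0 : E) 1 → sphere (0 : E) 1}
    (hf : ContMDiff (𝓡 n) (𝓡 n) (⊤ : ℕ∞) f) (hg : ContMDiff (𝓡 n) (𝓡 n) (⊤ : ℕ∞) g)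
    (hgf : ∀ x, g (f x) = x) {v : E} (h : v ≠ 0) :
    (fderiv ℝ (ex q g) (ex q f v)).comp (fderiv ℝ (ex q f) v) = ContinuousLinearMap.id ℝ E := by
  have h1 : DifferentiableAt ℝ (ex q f) v := (contDiffAt_ex q hf h).differentiableAt (by simp)
  have h2 : DifferentiableAt ℝ (ex q g) (ex q f v) :=
    (contDiffAt_ex q hg (ex_ne_zero q f h)).differentiableAt (by simp)
  rw [← fderiv_comp v h2 h1]
  have h3 : ex q g ∘ ex q f = id := by
    funext y
    show ex q g (ex q f y) = y
    rw [ex_comp]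
    simp only [hgf]
    exact ex_id q y
  rw [h3, fderiv_id]

theorem det_fderiv_ex_ne_zero (q : sphere (0 : E) 1) {f g : sphere (0 : E) 1 → sphere (0 : E) 1}
    (hf : ContMDiff (𝓡 n) (𝓡 n) (⊤ : ℕ∞) f) (hg : ContMDiff (𝓡 n) (𝓡 n) (⊤ : ℕ∞) g)
    (hgf : ∀ x, g (f x) = x) {v : E} (h : v ≠ 0) : (fderiv ℝ (ex q f) v).det ≠ 0 := by
  intro h0
  have h1 := congrArg ContinuousLinearMap.det (comp_fderiv_ex q hf hg hgf h)
  have h2 : ((fderiv ℝ (ex q g) (ex q f v)).comp (fderiv ℝ (ex q f) v)).det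
      = (fderiv ℝ (ex q g) (ex q f v)).det * (fderiv ℝ (ex q f) v).det :=
    LinearMap.det_comp _ _
  rw [h2, h0, mul_zero] at h1
  have h3 : (ContinuousLinearMap.id ℝ E).det = 1 := by
    simp [ContinuousLinearMap.det]
  rw [h3] at h1
  exact zero_ne_one h1

/-- F4, sign lemma: the members of a smooth path of diffeomorphisms starting at the identity have
homogeneous extensions with positive Jacobian determinant -/
theorem det_fderiv_ex_pos (q : sphere (0 : E) 1) {F : ℝ × sphere (0 : E) 1 → sphere (0 : E) 1}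
    (hF : ContMDiff ((𝓘(ℝ, ℝ)).prod (𝓡 n)) (𝓡 n) (⊤ : ℕ∞) F) (h0 : ∀ x, F (0, x) = x)
    (hd : ∀ t : ℝ, ∃ g : Diffeomorph (𝓡 n) (𝓡 n) (sphere (0 : E) 1) (sphere (0 : E) 1) (⊤ : ℕ∞),
      ∀ x, g x = F (t, x)) (t : ℝ) {v : E} (h : v ≠ 0) :
    0 < (fderiv ℝ (ex q fun x => F (t, x)) v).det := by
  set d : ℝ → ℝ := fun s => (fderiv ℝ (ex q fun x => F (s, x)) v).det with hdd
  have hne : ∀ s, d s ≠ 0 := by
    intro s
    obtain ⟨g, hg⟩ := hd s
    have h1 : (fun x => F (s, x)) = fun x => g x := funext fun x => (hg x).symm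
    show (fderiv ℝ (ex q fun x => F (s, x)) v).det ≠ 0
    rw [h1]
    exact det_fderiv_ex_ne_zero q g.contMDiff g.symm.contMDiff (fun x => g.symm_apply_apply x) h
  have hd0 : d 0 = 1 := by
    have h1 : (ex q fun x => F (0, x)) = fun v => v := by
      funext y
      have : (fun x => F (0, x)) = fun x => x := funext h0
      rw [this, ex_id]
    show (fderiv ℝ (ex q fun x => F (0, x)) v).det = 1
    rw [h1, fderiv_fun_id]
    simp [ContinuousLinearMap.det]
  have hc : Continuous d := by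
    have h1 : ∀ s : ℝ, fderiv ℝ (ex q fun x => F (s, x)) v
        = (fderiv ℝ (fun p : ℝ × E => ex q (fun x => F (p.1, x)) p.2) (s, v)).comp
          (ContinuousLinearMap.inr ℝ ℝ E) := by
      intro s
      have h2 : DifferentiableAt ℝ (fun p : ℝ × E => ex q (fun x => F (p.1, x)) p.2) (s, v) :=
        (contDiffAt_ex_param q hF (p₀ := (s, v)) h).differentiableAt (by simp)
      have h3 : HasFDerivAt (fun y : E => (s, y)) (ContinuousLinearMap.inr ℝ ℝ E) v :=
        hasFDerivAt_prodMk_right s v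
      exact (h2.hasFDerivAt.comp v h3).fderiv
    have h2 : Continuous fun s : ℝ =>
        fderiv ℝ (fun p : ℝ × E => ex q (fun x => F (p.1, x)) p.2) (s, v) := by
      rw [continuous_iff_continuousAt]
      intro s
      have h3 := (contDiffAt_ex_param q hF (p₀ := (s, v)) h).fderiv_right (m := 0) (by simp)
      have h4 : ContinuousAt (fun s : ℝ => (s, v)) s := by fun_prop
      exact ContinuousAt.comp (f := fun s : ℝ => (s, v)) h3.continuousAt h4
    have h3 : Continuous fun s : ℝ => fderiv ℝ (ex q fun x => F (s, x)) v := by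
      simp only [h1]
      exact h2.clm_comp continuous_const
    exact ContinuousLinearMap.continuous_det.comp h3
  by_contra hneg
  rw [not_lt] at hneg
  obtain ⟨s, hs⟩ := mem_range_of_exists_le_of_exists_ge hc ⟨t, hneg⟩ ⟨0, by rw [hd0]; norm_num⟩
  exact hne s hs

end Pool.Agent.QM59.SphF
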