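import Pool.Agent.Lib.MP_decea1_gt_F.Meas
import Pool.Agent.Lib.MP_decea1_gt_F.Sign

/-!
# MP_decea1_gt, block F4': the chart expression of an element of `GS` is smooth and has Jacobian 1
-/

set_option autoImplicit false
open Set Filter Topology Metric MeasureTheory Module
open scoped ContDiff Manifold

namespace Pool.Agent.QM59

open SphF

/-- the chart expression of a permutation of the sphere -/
noncomputable def hC (x : Equiv.Perm S3) (u : E3) : E3 := Ps (x (tS u) : E4)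

/-- the domain of the chart expression -/
def WC (x : Equiv.Perm S3) : Set E3 := {u | u ∈ Cube ∧ x (tS u) ≠ qp}

theorem WC_subset (x : Equiv.Perm S3) : WC x ⊆ Cube := fun _ h => h.1

theorem hC_mem (x : Equiv.Perm S3) (u : E3) : hC x u ∈ Cube := Ps_mem _

theorem tS_hC {x : Equiv.Perm S3} {u : E3} (hu : u ∈ WC x) : tS (hC x u) = x (tS u) :=
  tS_Ps hu.2

theorem hC_eq (x : Equiv.Perm S3) (u : E3) : hC x u = Ps (ex qp (fun y => x y) (Th u)) := by
  have h := ex_coe qp (fun y => x y) (tS u)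
  show Ps _ = Ps _
  exact (congrArg Ps h).symm

theorem Th_ne_zero (u : E3) : Th u ≠ 0 := by
  rw [← norm_ne_zero_iff, norm_Th]
  exact one_ne_zero

theorem contDiffAt_Th {u : E3} (hu : u ∈ Cube) : ContDiffAt ℝ smo Th u :=
  contDiffOn_Th.contDiffAt (isOpen_Cube.mem_nhds hu)

theorem contDiffAt_Ps {v : E4} (hv : v ∈ Om) : ContDiffAt ℝ smo Ps v :=
  contDiffOn_Ps.contDiffAt (isOpen_Om.mem_nhds hv)

theorem continuous_GS {x : Equiv.Perm S3} (hx : x ∈ GS) : Continuous (fun y => x y) :=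
  (contMDiff_of_mem_GS hx).continuous

theorem isOpen_WC {x : Equiv.Perm S3} (hx : x ∈ GS) : IsOpen (WC x) := by
  have h : ContinuousOn (fun u => x (tS u)) Cube :=
    (continuous_GS hx).comp_continuousOn contOn_tS
  exact h.isOpen_inter_preimage isOpen_Cube (isOpen_compl_singleton (x := qp))

theorem ex_mem_Om {x : Equiv.Perm S3} {u : E3} (hu : u ∈ WC x) :
    ex qp (fun y => x y) (Th u) ∈ Om := by
  have h := ex_coe qp (fun y => x y) (tS u)
  have h2 : ex qp (fun y => x y) (Th u) = x (tS u) := h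
  rw [h2]
  exact (mem_Om_iff _).2 hu.2

theorem contDiffAt_hC {x : Equiv.Perm S3} (hx : x ∈ GS) {u : E3} (hu : u ∈ WC x) :
    ContDiffAt ℝ smo (hC x) u := by
  have h1 : hC x = fun u => Ps (ex qp (fun y => x y) (Th u)) := funext (hC_eq x)
  rw [h1]
  have h2 : ContDiffAt ℝ smo (ex qp (fun y => x y)) (Th u) :=
    contDiffAt_ex qp (contMDiff_of_mem_GS hx) (Th_ne_zero u)
  have h3 : ContDiffAt ℝ smo (fun u => ex qp (fun y => x y) (Th u)) u :=
    ContDiffAt.comp (g := ex qp (fun y => x y)) u h2 (contDiffAt_Th hu.1)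
  exact ContDiffAt.comp (g := Ps) (f := fun u => ex qp (fun y => x y) (Th u)) u
    (contDiffAt_Ps (ex_mem_Om hu)) h3

theorem contDiffOn_hC {x : Equiv.Perm S3} (hx : x ∈ GS) : ContDiffOn ℝ smo (hC x) (WC x) :=
  fun _ hu => (contDiffAt_hC hx hu).contDiffWithinAt

/-! ### the sign -/

/-- the cone over the chart -/
noncomputable def ThH (p : E3 × ℝ) : E4 := p.2 • Th p.1

/-- its inverse -/
noncomputable def PsH (v : E4) : E3 × ℝ := (Ps v, ‖v‖)

theorem contDiffAt_ThH {p : E3 × ℝ} (hp : p.1 ∈ Cube) : ContDiffAt ℝ smo ThH p :=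
  contDiffAt_snd.smul ((contDiffAt_Th hp).comp p contDiffAt_fst)

theorem Om_ne_zero {v : E4} (hv : v ∈ Om) : v ≠ 0 := by
  rintro rfl
  have h : (0 : E4) 3 < ‖(0 : E4)‖ := hv
  simp at h

theorem contDiffAt_PsH {v : E4} (hv : v ∈ Om) : ContDiffAt ℝ smo PsH v :=
  (contDiffAt_Ps hv).prodMk (contDiffAt_id.norm ℝ (Om_ne_zero hv))

theorem PsH_ThH {p : E3 × ℝ} (hp : p.1 ∈ Cube) (hr : 0 < p.2) : PsH (ThH p) = p := by
  have h1 : Ps (p.2 • Th p.1) = p.1 := by rw [Ps_smul hr, Ps_Th hp]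
  have h2 : ‖p.2 • Th p.1‖ = p.2 := by
    rw [norm_smul, norm_Th, mul_one, Real.norm_eq_abs, abs_of_pos hr]
  exact Prod.ext h1 h2

theorem ex_smul (q : S3) (f : S3 → S3) (v : E4) (hv : v ≠ 0) {r : ℝ} (hr : 0 < r) :
    ex q f (r • v) = r • ex q f v := by
  have h1 : nS q (r • v) = nS q v := by
    apply Subtype.ext
    rw [nS_coe q hv, nS_coe q (smul_ne_zero hr.ne' hv), norm_smul, Real.norm_eq_abs,
      abs_of_pos hr, smul_smul, mul_inv, mul_comm r⁻¹, mul_assoc, inv_mul_cancel₀ hr.ne', mul_one]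
  rw [ex, ex, h1, norm_smul, Real.norm_eq_abs, abs_of_pos hr, smul_smul]

/-- the cone over the chart expression -/
theorem PsH_ex_ThH (x : Equiv.Perm S3) {p : E3 × ℝ} (hr : 0 < p.2) :
    PsH (ex qp (fun y => x y) (ThH p)) = (hC x p.1, p.2) := by
  have h1 : ex qp (fun y => x y) (ThH p) = p.2 • ex qp (fun y => x y) (Th p.1) :=
    ex_smul qp _ _ (Th_ne_zero _) hr
  have h2 : Ps (ex qp (fun y => x y) (ThH p)) = hC x p.1 := by
    rw [h1, Ps_smul hr, hC_eq]
  have h3 : ‖ex qp (fun y => x y) (ThH p)‖ = p.2 := by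
    rw [norm_ex, ThH, norm_smul, norm_Th, mul_one, Real.norm_eq_abs, abs_of_pos hr]
  exact Prod.ext h2 h3

/-- a linear identification -/
noncomputable def LL4 : E4 ≃L[ℝ] (E3 × ℝ) := ContinuousLinearEquiv.ofFinrankEq (by simp)

/-- determinant of the cone over the chart -/
noncomputable def PD (u : E3) : ℝ :=
  ((LL4 : E4 →L[ℝ] (E3 × ℝ)).comp (fderiv ℝ ThH (u, 1))).det

/-- determinant of its inverse -/
noncomputable def QD (u : E3) : ℝ :=
  ((fderiv ℝ PsH (Th u)).comp (LL4.symm : (E3 × ℝ) →L[ℝ] E4)).det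

theorem det_comp' {V : Type*} [NormedAddCommGroup V] [NormedSpace ℝ V] (A B : V →L[ℝ] V) :
    (A.comp B).det = A.det * B.det := LinearMap.det_comp _ _

theorem det_id' {V : Type*} [NormedAddCommGroup V] [NormedSpace ℝ V] :
    (ContinuousLinearMap.id ℝ V).det = 1 := by
  simp [ContinuousLinearMap.det]

theorem ThH_one (u : E3) : ThH (u, 1) = Th u := one_smul _ _

theorem QD_mul_PD {u : E3} (hu : u ∈ Cube) : QD u * PD u = 1 := by
  have h1 : DifferentiableAt ℝ ThH (u, 1) := (contDiffAt_ThH (p := (u, 1)) hu).differentiableAt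
    (by simp)
  have h2 : DifferentiableAt ℝ PsH (ThH (u, 1)) := by
    rw [ThH_one]
    exact (contDiffAt_PsH (Th_mem_Om u)).differentiableAt (by simp)
  have h3 : PsH ∘ ThH =ᶠ[𝓝 (u, (1 : ℝ))] id := by
    have h4 : {p : E3 × ℝ | p.1 ∈ Cube ∧ 0 < p.2} ∈ 𝓝 (u, (1 : ℝ)) := by
      refine IsOpen.mem_nhds ?_ ⟨hu, one_pos⟩
      exact (isOpen_Cube.preimage continuous_fst).inter (isOpen_lt continuous_const continuous_snd)
    filter_upwards [h4] with p hp
    exact PsH_ThH hp.1 hp.2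
  have h5 : (fderiv ℝ PsH (Th u)).comp (fderiv ℝ ThH (u, 1)) = ContinuousLinearMap.id ℝ _ := by
    have h6 := fderiv_comp (u, (1 : ℝ)) h2 h1
    rw [ThH_one] at h6
    rw [← h6, h3.fderiv_eq, fderiv_id]
  rw [QD, PD, ← det_comp']
  have h7 : ((fderiv ℝ PsH (Th u)).comp (LL4.symm : (E3 × ℝ) →L[ℝ] E4)).comp
      ((LL4 : E4 →L[ℝ] (E3 × ℝ)).comp (fderiv ℝ ThH (u, 1)))
      = (fderiv ℝ PsH (Th u)).comp (fderiv ℝ ThH (u, 1)) := by
    refine ContinuousLinearMap.ext fun w => ?_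
    simp
  rw [h7, h5, det_id']

theorem continuousOn_PD : ContinuousOn PD Cube := by
  intro u hu
  have h1 := (contDiffAt_ThH (p := (u, 1)) hu).fderiv_right (m := 0) (by simp)
  have h2 : ContinuousAt (fun u : E3 => fderiv ℝ ThH (u, 1)) u :=
    ContinuousAt.comp (f := fun u : E3 => (u, (1 : ℝ))) h1.continuousAt (by fun_prop)
  have h3 : ContinuousAt (fun u : E3 => (LL4 : E4 →L[ℝ] (E3 × ℝ)).comp (fderiv ℝ ThH (u, 1))) u :=
    continuousAt_const.clm_comp h2
  exact (ContinuousLinearMap.continuous_det.continuousAt.comp h3).continuousWithinAt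

theorem PD_ne_zero {u : E3} (hu : u ∈ Cube) : PD u ≠ 0 := by
  intro h
  have h1 := QD_mul_PD hu
  rw [h, mul_zero] at h1
  exact zero_ne_one h1

theorem convex_CubeF : Convex ℝ Cube := by
  intro x hx y hy a b ha hb hab i
  have h1 := hx i
  have h2 := hy i
  simp only [Pi.add_apply, Pi.smul_apply, smul_eq_mul, Pi.zero_apply, Pi.one_apply] at *
  rcases ha.eq_or_lt with h | h
  · have hb1 : b = 1 := by linarith
    subst hb1
    rw [← h]
    constructor <;> linarith [h2.1, h2.2]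
  · constructor
    · nlinarith [mul_pos h h1.1, mul_nonneg hb h2.1.le]
    · nlinarith [mul_lt_mul_of_pos_left h1.2 h, mul_le_mul_of_nonneg_left h2.2.le hb]

/-- the sign of the chart is constant -/
theorem PD_mul_pos {u v : E3} (hu : u ∈ Cube) (hv : v ∈ Cube) : 0 < PD u * PD v := by
  have hpc : IsPreconnected Cube := convex_CubeF.isPreconnected
  by_contra hneg
  rw [not_lt] at hneg
  have h0 : PD u * PD v ≠ 0 := mul_ne_zero (PD_ne_zero hu) (PD_ne_zero hv)
  have h1 : PD u * PD v < 0 := lt_of_le_of_ne hneg h0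
  have hc := continuousOn_PD
  rcases mul_neg_iff.mp h1 with ⟨ha, hb⟩ | ⟨ha, hb⟩
  · obtain ⟨w, hw, hw0⟩ := hpc.intermediate_value hv hu hc ⟨hb.le, ha.le⟩
    exact PD_ne_zero hw hw0
  · obtain ⟨w, hw, hw0⟩ := hpc.intermediate_value hu hv hc ⟨ha.le, hb.le⟩
    exact PD_ne_zero hw hw0

/-- F4 for elements of `GS` -/
theorem det_ex_pos {x : Equiv.Perm S3} (hx : x ∈ GS) {v : E4} (hv : v ≠ 0) :
    0 < (fderiv ℝ (ex qp (fun y => x y)) v).det := by
  obtain ⟨f, ⟨F, hF, h0, h1, hd⟩, hf⟩ := hx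
  have h2 := det_fderiv_ex_pos qp hF h0 (fun t => by
    obtain ⟨g, hg, -⟩ := hd t
    exact ⟨g, hg⟩) 1 hv
  have h3 : (fun y => x y) = fun y => F (1, y) := funext fun y => by rw [h1, hf]
  rw [h3]
  exact h2

/-- the Jacobian of the chart expression through the homogeneous extension -/
theorem jac_hC_eq {x : Equiv.Perm S3} (hx : x ∈ GS) {u : E3} (hu : u ∈ WC x) :
    jac (hC x) u = QD (hC x u) * (fderiv ℝ (ex qp (fun y => x y)) (Th u)).det * PD u := by
  set X : E4 → E4 := ex qp (fun y => x y) with hX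
  have hTh : X (Th u) = Th (hC x u) := by
    have h1 : X (Th u) = x (tS u) := ex_coe qp (fun y => x y) (tS u)
    rw [h1, ← tS_hC hu]
    rfl
  have h1 : DifferentiableAt ℝ ThH (u, 1) :=
    (contDiffAt_ThH (p := (u, 1)) hu.1).differentiableAt (by simp)
  have h2 : DifferentiableAt ℝ X (ThH (u, 1)) := by
    rw [ThH_one]
    exact (contDiffAt_ex qp (contMDiff_of_mem_GS hx) (Th_ne_zero u)).differentiableAt (by simp)
  have h3 : DifferentiableAt ℝ PsH (X (ThH (u, 1))) := by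
    rw [ThH_one, hTh]
    exact (contDiffAt_PsH (Th_mem_Om _)).differentiableAt (by simp)
  have h4 : PsH ∘ X ∘ ThH =ᶠ[𝓝 (u, (1 : ℝ))] Prod.map (hC x) id := by
    have h5 : {p : E3 × ℝ | 0 < p.2} ∈ 𝓝 (u, (1 : ℝ)) :=
      (isOpen_lt continuous_const continuous_snd).mem_nhds (one_pos : (0 : ℝ) < 1)
    filter_upwards [h5] with p hp
    exact PsH_ex_ThH x hp
  have h5 : fderiv ℝ (PsH ∘ X ∘ ThH) (u, (1 : ℝ))
      = ((fderiv ℝ PsH (Th (hC x u))).comp (fderiv ℝ X (Th u))).comp (fderiv ℝ ThH (u, 1)) := by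
    have h6 := fderiv_comp (u, (1 : ℝ)) h3 (h2.comp _ h1)
    rw [h6]
    have h7 := fderiv_comp (u, (1 : ℝ)) h2 h1
    rw [h7]
    simp only [Function.comp_apply, ThH_one, hTh]
    rfl
  have hh : HasFDerivAt (hC x) (fderiv ℝ (hC x) u) u :=
    ((contDiffAt_hC hx hu).differentiableAt (by simp)).hasFDerivAt
  have h6 : HasFDerivAt (Prod.map (hC x) (id : ℝ → ℝ))
      ((fderiv ℝ (hC x) u).prodMap (ContinuousLinearMap.id ℝ ℝ)) (u, (1 : ℝ)) :=
    HasFDerivAt.prodMap (u, (1 : ℝ)) hh (hasFDerivAt_id _)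
  have h7 : ((fderiv ℝ (hC x) u).prodMap (ContinuousLinearMap.id ℝ ℝ)).det = jac (hC x) u := by
    have h8 : ((fderiv ℝ (hC x) u).prodMap (ContinuousLinearMap.id ℝ ℝ)).det
        = LinearMap.det (LinearMap.prodMap (fderiv ℝ (hC x) u : E3 →ₗ[ℝ] E3)
          (LinearMap.id : ℝ →ₗ[ℝ] ℝ)) := rfl
    rw [h8, LinearMap.det_prodMap, LinearMap.det_id, mul_one]
    rfl
  rw [h4.fderiv_eq, h6.fderiv] at h5
  rw [← h7, h5]
  have h9 : ((fderiv ℝ PsH (Th (hC x u))).comp (fderiv ℝ X (Th u))).comp (fderiv ℝ ThH (u, 1))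
      = ((fderiv ℝ PsH (Th (hC x u))).comp (LL4.symm : (E3 × ℝ) →L[ℝ] E4)).comp
        ((((LL4 : E4 →L[ℝ] (E3 × ℝ)).comp (fderiv ℝ X (Th u))).comp
          (LL4.symm : (E3 × ℝ) →L[ℝ] E4)).comp
        ((LL4 : E4 →L[ℝ] (E3 × ℝ)).comp (fderiv ℝ ThH (u, 1)))) := by
    refine ContinuousLinearMap.ext fun w => ?_
    simp
  have h10 : (((LL4 : E4 →L[ℝ] (E3 × ℝ)).comp (fderiv ℝ X (Th u))).comp
      (LL4.symm : (E3 × ℝ) →L[ℝ] E4)).det = (fderiv ℝ X (Th u)).det :=
    LinearMap.det_conj (fderiv ℝ X (Th u) : E4 →ₗ[ℝ] E4) LL4.toLinearEquiv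
  rw [h9, det_comp', det_comp', h10, QD, PD]
  ring

theorem jac_hC_pos {x : Equiv.Perm S3} (hx : x ∈ GS) {u : E3} (hu : u ∈ WC x) :
    0 < jac (hC x) u := by
  rw [jac_hC_eq hx hu]
  have h1 := det_ex_pos hx (Th_ne_zero u)
  have h2 := QD_mul_PD (hC_mem x u)
  have h3 := PD_mul_pos (hC_mem x u) hu.1
  have h4 : 0 < QD (hC x u) * PD u := by
    have h5 : PD (hC x u) ≠ 0 := PD_ne_zero (hC_mem x u)
    have h6 : QD (hC x u) * PD u = (PD (hC x u) * PD u) * (PD (hC x u) ^ 2)⁻¹ := by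
      field_simp
      linear_combination PD u * h2
    rw [h6]
    positivity
  nlinarith [mul_pos h1 h4]

end Pool.Agent.QM59
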