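import Pool.Agent.Lib.MP_decea1_gt_F.OneDim
import Pool.Agent.Lib.MP_decea1_gt_A.Bump

/-!
# MP_decea1_gt, block F: the triangular bijection `kn : E3 → Cube`
-/

set_option autoImplicit false
open Set Filter Topology MeasureTheory
open scoped ContDiff

namespace Pool.Agent.QM59

theorem kn_mem (x : E3) : kn x ∈ Cube := by
  intro i
  fin_cases i
  · exact cdf_F1.mem _
  · exact cdf_F2.mem _
  · exact cdf_F3.mem _

private theorem Knothe_pos1 (a : ℝ) : 0 < √(1 + a ^ 2) := Real.sqrt_pos.2 (by positivity)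

private theorem Knothe_pos2 (a b : ℝ) : 0 < √(1 + a ^ 2 + b ^ 2) :=
  Real.sqrt_pos.2 (by positivity)

theorem kni_kn (x : E3) : kni (kn x) = x := by
  have hA := Knothe_pos1 (x 0)
  have hB := Knothe_pos2 (x 0) (x 1)
  have h0 : cinv F1 (kn x 0) = x 0 := cdf_F1.cinv_apply _
  have h1 : cinv F2 (kn x 1) = x 1 / √(1 + x 0 ^ 2) := cdf_F2.cinv_apply _
  have h2 : cinv F3 (kn x 2) = x 2 / √(1 + x 0 ^ 2 + x 1 ^ 2) := cdf_F3.cinv_apply _
  have h3 : √(1 + x 0 ^ 2) * (x 1 / √(1 + x 0 ^ 2)) = x 1 := mul_div_cancel₀ _ hA.ne'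
  have h4 : √(1 + x 0 ^ 2 + x 1 ^ 2) * (x 2 / √(1 + x 0 ^ 2 + x 1 ^ 2)) = x 2 :=
    mul_div_cancel₀ _ hB.ne'
  funext i
  fin_cases i
  · exact h0
  · change √(1 + cinv F1 (kn x 0) ^ 2) * cinv F2 (kn x 1) = x 1
    rw [h0, h1, h3]
  · change √(1 + cinv F1 (kn x 0) ^ 2 + (√(1 + cinv F1 (kn x 0) ^ 2) * cinv F2 (kn x 1)) ^ 2) *
      cinv F3 (kn x 2) = x 2
    rw [h0, h1, h3, h2, h4]

theorem kn_kni {u : E3} (hu : u ∈ Cube) : kn (kni u) = u := by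
  have e0 : kni u 0 = cinv F1 (u 0) := rfl
  have e1 : kni u 1 = √(1 + kni u 0 ^ 2) * cinv F2 (u 1) := rfl
  have e2 : kni u 2 = √(1 + kni u 0 ^ 2 + kni u 1 ^ 2) * cinv F3 (u 2) := rfl
  have hA := Knothe_pos1 (kni u 0)
  have hB := Knothe_pos2 (kni u 0) (kni u 1)
  funext i
  fin_cases i
  · change F1 (kni u 0) = u 0
    rw [e0]
    exact cdf_F1.apply_cinv (hu 0)
  · change F2 (kni u 1 / √(1 + kni u 0 ^ 2)) = u 1
    rw [e1, mul_div_cancel_left₀ _ hA.ne']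
    exact cdf_F2.apply_cinv (hu 1)
  · change F3 (kni u 2 / √(1 + kni u 0 ^ 2 + kni u 1 ^ 2)) = u 2
    rw [e2, mul_div_cancel_left₀ _ hB.ne']
    exact cdf_F3.apply_cinv (hu 2)

private theorem Knothe_sm1 {E : Type*} [NormedAddCommGroup E] [NormedSpace ℝ E] {s : Set E}
    {f : E → ℝ} (hf : ContDiffOn ℝ smo f s) : ContDiffOn ℝ smo (fun x => √(1 + f x ^ 2)) s :=
  (contDiffOn_const.add (hf.pow 2)).sqrt fun x _ => by positivity

private theorem Knothe_sm2 {E : Type*} [NormedAddCommGroup E] [NormedSpace ℝ E] {s : Set E}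
    {f g : E → ℝ} (hf : ContDiffOn ℝ smo f s) (hg : ContDiffOn ℝ smo g s) :
    ContDiffOn ℝ smo (fun x => √(1 + f x ^ 2 + g x ^ 2)) s :=
  ((contDiffOn_const.add (hf.pow 2)).add (hg.pow 2)).sqrt fun x _ => by positivity

private theorem Knothe_ap (i : Fin 3) : ContDiff ℝ smo (fun x : E3 => x i) :=
  contDiff_apply ℝ ℝ i

theorem contDiff_kn : ContDiff ℝ smo kn := by
  rw [contDiff_pi]
  intro i
  have h1 : ContDiff ℝ smo fun x : E3 => √(1 + x 0 ^ 2) :=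
    contDiffOn_univ.1 (Knothe_sm1 (Knothe_ap 0).contDiffOn)
  have h2 : ContDiff ℝ smo fun x : E3 => √(1 + x 0 ^ 2 + x 1 ^ 2) :=
    contDiffOn_univ.1 (Knothe_sm2 (Knothe_ap 0).contDiffOn (Knothe_ap 1).contDiffOn)
  fin_cases i
  · exact cdf_F1.smooth.comp (Knothe_ap 0)
  · exact cdf_F2.smooth.comp ((Knothe_ap 1).div h1 fun x => (Knothe_pos1 _).ne')
  · exact cdf_F3.smooth.comp ((Knothe_ap 2).div h2 fun x => (Knothe_pos2 _ _).ne')

theorem contDiffOn_kni : ContDiffOn ℝ smo kni Cube := by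
  rw [contDiffOn_pi]
  intro i
  have h0 : ContDiffOn ℝ smo (fun u : E3 => cinv F1 (u 0)) Cube :=
    cdf_F1.contDiffOn_cinv.comp (Knothe_ap 0).contDiffOn fun u hu => hu 0
  have h1 : ContDiffOn ℝ smo (fun u : E3 => cinv F2 (u 1)) Cube :=
    cdf_F2.contDiffOn_cinv.comp (Knothe_ap 1).contDiffOn fun u hu => hu 1
  have h2 : ContDiffOn ℝ smo (fun u : E3 => cinv F3 (u 2)) Cube :=
    cdf_F3.contDiffOn_cinv.comp (Knothe_ap 2).contDiffOn fun u hu => hu 2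
  have h3 := (Knothe_sm1 h0).mul h1
  fin_cases i
  · exact h0
  · exact h3
  · exact (Knothe_sm2 h0 h3).mul h2

private theorem Knothe_line (x : E3) (i j : Fin 3) :
    HasDerivAt (fun t : ℝ => kn (x + t • Pi.single j 1) i)
      (fderiv ℝ kn x (Pi.single j 1) i) 0 := by
  have h1 : DifferentiableAt ℝ kn x := (contDiff_kn.differentiable (by simp)) x
  have h2 := h1.hasFDerivAt.hasLineDerivAt (Pi.single j (1 : ℝ) : E3)
  exact (hasDerivAt_pi.1 h2) i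

private theorem Knothe_ent {x : E3} {i j : Fin 3} {f : ℝ → ℝ} {d : ℝ}
    (hf : ∀ t, kn (x + t • Pi.single j 1) i = f t) (hd : HasDerivAt f d 0) :
    fderiv ℝ kn x (Pi.single j 1) i = d := by
  have h1 := Knothe_line x i j
  have h2 : (fun t : ℝ => kn (x + t • Pi.single j 1) i) = f := funext hf
  rw [h2] at h1
  exact h1.unique hd

private theorem Knothe_comp {F : ℝ → ℝ} {a b d : ℝ} (h : HasDerivAt F d (a / b)) :
    HasDerivAt (fun t : ℝ => F ((a + t) / b)) (d * (1 / b)) 0 := by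
  have h1 : HasDerivAt (fun t : ℝ => (a + t) / b) (1 / b) 0 :=
    ((hasDerivAt_id (0 : ℝ)).const_add a).div_const b
  have h2 : HasDerivAt F d ((fun t : ℝ => (a + t) / b) 0) := by
    simpa using h
  exact h2.comp 0 h1

/-- the Jacobian of the triangular map -/
theorem jac_kn (x : E3) : jac kn x = 4 / Real.pi ^ 2 * ((1 + nq x) ^ 3)⁻¹ := by
  have hA := Knothe_pos1 (x 0)
  have hB := Knothe_pos2 (x 0) (x 1)
  have h01 : fderiv ℝ kn x (Pi.single 1 1) 0 = 0 :=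
    Knothe_ent (f := fun _ => F1 (x 0)) (fun t => by simp [kn]) (hasDerivAt_const _ _)
  have h02 : fderiv ℝ kn x (Pi.single 2 1) 0 = 0 :=
    Knothe_ent (f := fun _ => F1 (x 0)) (fun t => by simp [kn]) (hasDerivAt_const _ _)
  have h12 : fderiv ℝ kn x (Pi.single 2 1) 1 = 0 :=
    Knothe_ent (f := fun _ => F2 (x 1 / √(1 + x 0 ^ 2))) (fun t => by simp [kn])
      (hasDerivAt_const _ _)
  have h00 : fderiv ℝ kn x (Pi.single 0 1) 0 =
      2 / Real.pi * ((1 + (x 0 / 1) ^ 2) ^ 2)⁻¹ * (1 / 1) :=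
    Knothe_ent (f := fun t => F1 ((x 0 + t) / 1)) (fun t => by simp [kn])
      (Knothe_comp (hasDerivAt_F1 _))
  have h11 : fderiv ℝ kn x (Pi.single 1 1) 1 = _ :=
    Knothe_ent (f := fun t => F2 ((x 1 + t) / √(1 + x 0 ^ 2))) (fun t => by simp [kn])
      (Knothe_comp (hasDerivAt_F2 _))
  have h22 : fderiv ℝ kn x (Pi.single 2 1) 2 = _ :=
    Knothe_ent (f := fun t => F3 ((x 2 + t) / √(1 + x 0 ^ 2 + x 1 ^ 2)))
      (fun t => by simp [kn]) (Knothe_comp (hasDerivAt_F3 _))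
  have hdet : jac kn x = fderiv ℝ kn x (Pi.single 0 1) 0 * fderiv ℝ kn x (Pi.single 1 1) 1 *
      fderiv ℝ kn x (Pi.single 2 1) 2 := by
    have e : ∀ i j : Fin 3, (LinearMap.toMatrix' (fderiv ℝ kn x : E3 →ₗ[ℝ] E3) :
        Matrix (Fin 3) (Fin 3) ℝ) i j = fderiv ℝ kn x (Pi.single j 1) i := by
      intro i j
      rw [LinearMap.toMatrix'_apply]
      rfl
    have e2 : jac kn x = (LinearMap.toMatrix' (fderiv ℝ kn x : E3 →ₗ[ℝ] E3) :
        Matrix (Fin 3) (Fin 3) ℝ).det := (LinearMap.det_toMatrix' _).symm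
    rw [e2, Matrix.det_fin_three, e, e, e, e, e, e, e, e, e, h01, h02, h12]
    ring
  rw [hdet, h00, h11, h22]
  have hs : ∀ y : ℝ, √(1 + (y / √(1 + x 0 ^ 2)) ^ 2) = √(1 + x 0 ^ 2 + y ^ 2) / √(1 + x 0 ^ 2) := by
    intro y
    have h5 : 1 + (y / √(1 + x 0 ^ 2)) ^ 2 = (1 + x 0 ^ 2 + y ^ 2) / (1 + x 0 ^ 2) := by
      rw [div_pow, Real.sq_sqrt (by positivity)]
      field_simp
    rw [h5, Real.sqrt_div (by positivity)]
  rw [hs (x 1)]
  have hA2 : √(1 + x 0 ^ 2) ^ 2 = 1 + x 0 ^ 2 := Real.sq_sqrt (by positivity)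
  have hB2 : √(1 + x 0 ^ 2 + x 1 ^ 2) ^ 2 = 1 + x 0 ^ 2 + x 1 ^ 2 := Real.sq_sqrt (by positivity)
  have hx : (0 : ℝ) < 1 + nq x := by unfold nq; positivity
  have hn : 1 + nq x = √(1 + x 0 ^ 2 + x 1 ^ 2) ^ 2 + x 2 ^ 2 := by
    rw [hB2]
    unfold nq
    ring
  have hx1 : x 1 ^ 2 = √(1 + x 0 ^ 2 + x 1 ^ 2) ^ 2 - √(1 + x 0 ^ 2) ^ 2 := by
    rw [hB2, hA2]
    ring
  have hx0 : 1 + (x 0 / 1) ^ 2 = √(1 + x 0 ^ 2) ^ 2 := by
    rw [hA2, div_one]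
  rw [hx0, hn]
  rw [hn] at hx
  generalize √(1 + x 0 ^ 2 + x 1 ^ 2) = b at *
  generalize √(1 + x 0 ^ 2) = a at *
  have h7 : 1 + (x 1 / a) ^ 2 = b ^ 2 / a ^ 2 := by
    rw [div_pow, hx1]
    field_simp
    ring
  have h8 : 1 + (x 2 / b) ^ 2 = (b ^ 2 + x 2 ^ 2) / b ^ 2 := by
    field_simp
  rw [h7, h8]
  have hpi := Real.pi_pos
  field_simp
  ring

end Pool.Agent.QM59
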