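import Pool.Agent.Lib.MP_decea1_gt_F.Germ
import Pool.Agent.Lib.MP_decea1_gt_F.Hom

/-!
# MP_decea1_gt, block F9: the frozen statement S14098 from Theorem M, the wall lemma and the local
move lemma
-/

set_option autoImplicit false
open MeasureTheory Metric

namespace Pool.Agent.QM59

/-- F9: every quasimorphism on the group is at bounded distance from a homomorphism -/
theorem exists_hom_close (hM : ThmM) (hW : WallT) (hMv : MovesT) (φ : Dif3 → ℝ) (D : ℝ)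
    (hφ : ∀ f g, PS f → PS g → |φ (g.trans f) - φ f - φ g| ≤ D) :
    ∃ ψ : Dif3 → ℝ, (∀ f g, PS f → PS g → ψ (g.trans f) = ψ f + ψ g) ∧
      ∀ f, PS f → |φ f - ψ f| ≤ D := by
  classical
  let φ1 : Equiv.Perm S3 → ℝ := fun e => if h : ∃ f : Dif3, f.toEquiv = e then φ h.choose else 0
  have hφ1 : ∀ f : Dif3, φ1 f.toEquiv = φ f := by
    intro f
    have h : ∃ g : Dif3, g.toEquiv = f.toEquiv := ⟨f, rfl⟩
    have h1 : h.choose = f := Diffeomorph.toEquiv_injective h.choose_spec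
    show (if h : ∃ g : Dif3, g.toEquiv = f.toEquiv then φ h.choose else 0) = φ f
    rw [dif_pos h, h1]
  have hE : ∀ e ∈ GS, ∃ f : Dif3, PS f ∧ f.toEquiv = e := by
    rintro e ⟨f, hf, h1⟩
    exact ⟨f, hf, Equiv.ext fun x => (h1 x).symm⟩
  have hb : ∀ e ∈ GS, ∀ e' ∈ GS, |φ1 (e * e') - φ1 e - φ1 e'| ≤ D := by
    intro e he e' he'
    obtain ⟨f, hf, rfl⟩ := hE e he
    obtain ⟨g, hg, rfl⟩ := hE e' he'
    have h1 : f.toEquiv * g.toEquiv = (g.trans f).toEquiv := rfl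
    rw [h1, hφ1, hφ1, hφ1]
    exact hφ f g hf hg
  obtain ⟨ψ, hψ, hclose⟩ := exists_hq GS φ1 D hb
  refine ⟨fun f => ψ f.toEquiv, fun f g hf hg => ?_, fun f hf => ?_⟩
  · have h1 := dphi_eq_zero_S3 hM hW hMv hψ hf.mem_GS hg.mem_GS
    have h2 : f.toEquiv * g.toEquiv = (g.trans f).toEquiv := rfl
    simp only [dphi] at h1
    rw [h2] at h1
    show ψ (g.trans f).toEquiv = ψ f.toEquiv + ψ g.toEquiv
    linarith
  · have h1 := hclose _ hf.mem_GS
    rw [hφ1, abs_sub_comm] at h1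
    exact h1

/-- the frozen statement from Theorem M, the wall lemma and the local move lemma -/
theorem not_main_of (hM : ThmM) (hW : WallT) (hMv : MovesT) :
    ¬ (∀ [Fact (Module.finrank ℝ (EuclideanSpace ℝ (Fin 4)) = 3 + 1)],
    ∀ P : Diffeomorph (modelWithCornersSelf ℝ (EuclideanSpace ℝ (Fin 3)))
        (modelWithCornersSelf ℝ (EuclideanSpace ℝ (Fin 3)))
        (sphere (0 : EuclideanSpace ℝ (Fin 4)) 1) (sphere (0 : EuclideanSpace ℝ (Fin 4)) 1)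
        ((⊤ : ℕ∞) : WithTop ℕ∞) → Prop,
    (∀ f, P f ↔
      ∃ F : ℝ × sphere (0 : EuclideanSpace ℝ (Fin 4)) 1 → sphere (0 : EuclideanSpace ℝ (Fin 4)) 1,
        ContMDiff ((modelWithCornersSelf ℝ ℝ).prod
            (modelWithCornersSelf ℝ (EuclideanSpace ℝ (Fin 3))))
          (modelWithCornersSelf ℝ (EuclideanSpace ℝ (Fin 3))) ((⊤ : ℕ∞) : WithTop ℕ∞) F ∧
        (∀ x, F (0, x) = x) ∧ (∀ x, F (1, x) = f x) ∧
        ∀ t : ℝ, ∃ g : Diffeomorph (modelWithCornersSelf ℝ (EuclideanSpace ℝ (Fin 3)))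
            (modelWithCornersSelf ℝ (EuclideanSpace ℝ (Fin 3)))
            (sphere (0 : EuclideanSpace ℝ (Fin 4)) 1) (sphere (0 : EuclideanSpace ℝ (Fin 4)) 1)
            ((⊤ : ℕ∞) : WithTop ℕ∞),
          (∀ x, g x = F (t, x)) ∧
          MeasurePreserving g (volume : Measure (EuclideanSpace ℝ (Fin 4))).toSphere
            (volume : Measure (EuclideanSpace ℝ (Fin 4))).toSphere) →
    ∃ φ : Diffeomorph (modelWithCornersSelf ℝ (EuclideanSpace ℝ (Fin 3)))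
        (modelWithCornersSelf ℝ (EuclideanSpace ℝ (Fin 3)))
        (sphere (0 : EuclideanSpace ℝ (Fin 4)) 1) (sphere (0 : EuclideanSpace ℝ (Fin 4)) 1)
        ((⊤ : ℕ∞) : WithTop ℕ∞) → ℝ,
      (∃ D : ℝ, ∀ f g, P f → P g → |φ (g.trans f) - φ f - φ g| ≤ D) ∧
      ∀ ψ : Diffeomorph (modelWithCornersSelf ℝ (EuclideanSpace ℝ (Fin 3)))
          (modelWithCornersSelf ℝ (EuclideanSpace ℝ (Fin 3)))
          (sphere (0 : EuclideanSpace ℝ (Fin 4)) 1) (sphere (0 : EuclideanSpace ℝ (Fin 4)) 1)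
          ((⊤ : ℕ∞) : WithTop ℕ∞) → ℝ,
        (∀ f g, P f → P g → ψ (g.trans f) = ψ f + ψ g) →
        ¬ ∃ C : ℝ, ∀ f, P f → |φ f - ψ f| ≤ C) := by
  intro H
  obtain ⟨φ, ⟨D, hD⟩, hψ⟩ := @H factE4 PS (fun f => Iff.rfl)
  obtain ⟨ψ, h1, h2⟩ := exists_hom_close hM hW hMv φ D hD
  exact hψ ψ h1 ⟨D, h2⟩

end Pool.Agent.QM59
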