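import Pool.Agent.Lib.MP_decea1_gt_F.Chart
import Pool.Agent.Lib.MP_decea1_gt_B.B0

/-!
# MP_decea1_gt, block F: push and pull (algebra)
-/

set_option autoImplicit false
open Set Filter Topology MeasureTheory

namespace Pool.Agent.QM59

/-! ### permutations of the cube -/

/-- a permutation which is the identity off `K` maps `K` into itself -/
theorem idOff_mem {K : Set E3} {f : Equiv.Perm E3} (hf : IdOff K f) {x : E3} (hx : x ∈ K) :
    f x ∈ K := (hf.apply_mem_iff x).2 hx

theorem tS_injOn : InjOn tS Cube := by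
  intro u hu v hv h
  have h1 : Th u = Th v := congrArg Subtype.val h
  rw [← Ps_Th hu, ← Ps_Th hv, h1]

theorem Ps_tS {u : E3} (hu : u ∈ Cube) : Ps (tS u : E4) = u := Ps_Th hu

/-! ### push -/

theorem pushF_qp (f : E3 → E3) : pushF f qp = qp := by simp [pushF]

theorem pushF_tS (f : E3 → E3) {u : E3} (hu : u ∈ Cube) : pushF f (tS u) = tS (f u) := by
  rw [pushF, if_neg (tS_ne u), Ps_tS hu]

theorem pushF_pushF {f g : Equiv.Perm E3} (hg : IdOff Cube g) (y : S3) :
    pushF f (pushF g y) = pushF (⇑(f * g)) y := by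
  by_cases hy : y = qp
  · rw [hy, pushF_qp, pushF_qp, pushF_qp]
  · rw [← tS_Ps hy, pushF_tS _ (Ps_mem _), pushF_tS _ (idOff_mem hg (Ps_mem _)), pushF_tS _ (Ps_mem _)]
    rfl

theorem pushF_one (y : S3) : pushF (⇑(1 : Equiv.Perm E3)) y = y := by
  by_cases hy : y = qp
  · rw [hy, pushF_qp]
  · conv_lhs => rw [← tS_Ps hy, pushF_tS _ (Ps_mem _)]
    exact tS_Ps hy

theorem bijective_pushF {f : Equiv.Perm E3} (hf : IdOff Cube f) :
    Function.Bijective (pushF f) := by
  refine Function.bijective_iff_has_inverse.2 ⟨pushF ⇑(f⁻¹), fun y => ?_, fun y => ?_⟩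
  · rw [pushF_pushF hf, inv_mul_cancel, pushF_one]
  · rw [pushF_pushF hf.inv, mul_inv_cancel, pushF_one]

theorem push_apply {f : Equiv.Perm E3} (hf : IdOff Cube f) (y : S3) : push f y = pushF f y := by
  rw [push, dif_pos (bijective_pushF hf)]
  rfl

theorem push_qp (f : Equiv.Perm E3) : push f qp = qp := by
  by_cases h : Function.Bijective (pushF f)
  · rw [push, dif_pos h]
    exact pushF_qp _
  · rw [push, dif_neg h]
    rfl

theorem push_tS {f : Equiv.Perm E3} (hf : IdOff Cube f) {u : E3} (hu : u ∈ Cube) :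
    push f (tS u) = tS (f u) := by
  rw [push_apply hf, pushF_tS _ hu]

/-- two permutations of the sphere fixing the pole which agree on `tS '' Cube` are equal -/
theorem perm_ext {g h : Equiv.Perm S3} (hg : g qp = qp) (hh : h qp = qp)
    (H : ∀ u ∈ Cube, g (tS u) = h (tS u)) : g = h := by
  ext1 y
  by_cases hy : y = qp
  · rw [hy, hg, hh]
  · rw [← tS_Ps hy]
    exact H _ (Ps_mem _)

theorem push_one : push 1 = 1 := by
  refine perm_ext (push_qp _) rfl fun u hu => ?_
  rw [push_tS (IdOff.one _) hu]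
  rfl

theorem push_mul {f g : Equiv.Perm E3} (hf : IdOff Cube f) (hg : IdOff Cube g) :
    push (f * g) = push f * push g := by
  refine perm_ext (push_qp _) ?_ fun u hu => ?_
  · rw [Equiv.Perm.mul_apply, push_qp, push_qp]
  · change push (f * g) (tS u) = push f (push g (tS u))
    rw [push_tS (hf.mul hg) hu, push_tS hg hu, push_tS hf (idOff_mem hg hu)]
    rfl

theorem push_inv {f : Equiv.Perm E3} (hf : IdOff Cube f) : push f⁻¹ = (push f)⁻¹ := by
  rw [eq_inv_iff_mul_eq_one, ← push_mul hf.inv hf, inv_mul_cancel, push_one]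

theorem push_injective {f g : Equiv.Perm E3} (hf : IdOff Cube f) (hg : IdOff Cube g)
    (h : push f = push g) : f = g := by
  ext1 u
  by_cases hu : u ∈ Cube
  · have h1 : push f (tS u) = push g (tS u) := by rw [h]
    rw [push_tS hf hu, push_tS hg hu] at h1
    exact tS_injOn (idOff_mem hf hu) (idOff_mem hg hu) h1
  · rw [hf u hu, hg u hu]

/-! ### pull -/

theorem pullF_of_mem (g : S3 → S3) {u : E3} (hu : u ∈ Cube) : pullF g u = Ps (g (tS u) : E4) := by
  rw [pullF, if_pos hu]

theorem pullF_of_notMem (g : S3 → S3) {u : E3} (hu : u ∉ Cube) : pullF g u = u := by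
  rw [pullF, if_neg hu]

theorem ne_qp_of_ne {g : Equiv.Perm S3} (hg : g qp = qp) {y : S3} (hy : y ≠ qp) : g y ≠ qp := by
  intro h
  rw [← hg] at h
  exact hy (g.injective h)

theorem inv_qp {g : Equiv.Perm S3} (hg : g qp = qp) : g⁻¹ qp = qp := by
  rw [Equiv.Perm.inv_eq_iff_eq]
  exact hg.symm

theorem pullF_pullF {g h : Equiv.Perm S3} (hh : h qp = qp) (u : E3) :
    pullF g (pullF h u) = pullF (⇑(g * h)) u := by
  by_cases hu : u ∈ Cube
  · rw [pullF_of_mem _ hu, pullF_of_mem _ hu, pullF_of_mem _ (Ps_mem _),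
      tS_Ps (ne_qp_of_ne hh (tS_ne u))]
    rfl
  · rw [pullF_of_notMem _ hu, pullF_of_notMem _ hu, pullF_of_notMem _ hu]

theorem pullF_one (u : E3) : pullF (⇑(1 : Equiv.Perm S3)) u = u := by
  by_cases hu : u ∈ Cube
  · rw [pullF_of_mem _ hu]
    exact Ps_tS hu
  · rw [pullF_of_notMem _ hu]

theorem bijective_pullF {g : Equiv.Perm S3} (hg : g qp = qp) : Function.Bijective (pullF g) := by
  refine Function.bijective_iff_has_inverse.2 ⟨pullF ⇑(g⁻¹), fun y => ?_, fun y => ?_⟩
  · rw [pullF_pullF hg, inv_mul_cancel, pullF_one]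
  · rw [pullF_pullF (inv_qp hg), mul_inv_cancel, pullF_one]

theorem pull_apply {g : Equiv.Perm S3} (hg : g qp = qp) (u : E3) : pull g u = pullF g u := by
  rw [pull, dif_pos (bijective_pullF hg)]
  rfl

theorem pull_idOff {g : Equiv.Perm S3} (hg : g qp = qp) : IdOff Cube (pull g) := by
  intro u hu
  rw [pull_apply hg, pullF_of_notMem _ hu]

theorem pull_of_mem {g : Equiv.Perm S3} (hg : g qp = qp) {u : E3} (hu : u ∈ Cube) :
    pull g u = Ps (g (tS u) : E4) := by
  rw [pull_apply hg, pullF_of_mem _ hu]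

theorem tS_pull {g : Equiv.Perm S3} (hg : g qp = qp) {u : E3} (hu : u ∈ Cube) :
    tS (pull g u) = g (tS u) := by
  rw [pull_of_mem hg hu, tS_Ps (ne_qp_of_ne hg (tS_ne u))]

theorem push_pull {g : Equiv.Perm S3} (hg : g qp = qp) : push (pull g) = g := by
  refine perm_ext (push_qp _) hg fun u hu => ?_
  rw [push_tS (pull_idOff hg) hu, tS_pull hg hu]

theorem pull_push {f : Equiv.Perm E3} (hf : IdOff Cube f) : pull (push f) = f :=
  push_injective (pull_idOff (push_qp f)) hf (push_pull (push_qp f))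

theorem pull_one : pull 1 = 1 := by
  rw [← push_one, pull_push (IdOff.one _)]

theorem pull_mul {g h : Equiv.Perm S3} (hg : g qp = qp) (hh : h qp = qp) :
    pull (g * h) = pull g * pull h := by
  have h1 : (g * h) qp = qp := by rw [Equiv.Perm.mul_apply, hh, hg]
  refine push_injective (pull_idOff h1) ((pull_idOff hg).mul (pull_idOff hh)) ?_
  rw [push_pull h1, push_mul (pull_idOff hg) (pull_idOff hh), push_pull hg, push_pull hh]

theorem pull_inv {g : Equiv.Perm S3} (hg : g qp = qp) : pull g⁻¹ = (pull g)⁻¹ := by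
  have h1 : g⁻¹ qp = qp := inv_qp hg
  rw [eq_inv_iff_mul_eq_one, ← pull_mul h1 hg, inv_mul_cancel, pull_one]

end Pool.Agent.QM59
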