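import Pool.Agent.Lib.MP_decea1_gt_F.GS
import Pool.Agent.Lib.MP_decea1_gt_F.Push

/-!
# MP_decea1_gt, block F: measures
-/

set_option autoImplicit false
open Set Filter Topology Metric MeasureTheory
open scoped ContDiff Manifold Pointwise

namespace Pool.Agent.QM59

/-- the north pole is a null set -/
theorem muS_qp : muS {qp} = 0 := by
  rw [Measure.toSphere_apply' _ (measurableSet_singleton _)]
  have h1 : (Ioo (0:ℝ) 1 • ((fun y : S3 => (y : E4)) '' {qp})) ⊆
      (Submodule.span ℝ {(qp : E4)} : Set E4) := by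
    rintro _ ⟨r, -, _, ⟨y, hy, rfl⟩, rfl⟩
    rw [mem_singleton_iff] at hy
    subst hy
    exact Submodule.smul_mem _ _ (Submodule.mem_span_singleton_self _)
  have h2 : (volume : Measure E4) (Submodule.span ℝ {(qp : E4)} : Set E4) = 0 := by
    refine Measure.addHaar_submodule _ _ ?_
    intro h
    have h3 : Module.finrank ℝ (Submodule.span ℝ {(qp : E4)}) = Module.finrank ℝ E4 := by
      rw [h, finrank_top]
    have h4 : Module.finrank ℝ E4 = 4 := by simp
    have h5 := finrank_span_singleton (K := ℝ) (v := (qp : E4)) (ne_zero_of_mem_unit_sphere qp)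
    omega
  rw [measure_mono_null h1 h2, mul_zero]

/-- smooth volume preserving bijections preserve the measure of images -/
theorem volume_image_of_vol {f : Equiv.Perm E3} (hd : IsDif f) (hv : Vol f) {A : Set E3}
    (hA : MeasurableSet A) : volume (f '' A) = volume A := by
  have h1 := lintegral_abs_det_fderiv_eq_addHaar_image volume (f := fun x => f x)
    (f' := fun x => fderiv ℝ (fun y => f y) x) hA (fun x _ =>
      ((hd.1.differentiable (by simp)).differentiableAt.hasFDerivAt).hasFDerivWithinAt)
      (f.injective.injOn)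
  have h2 : ∀ x, ENNReal.ofReal |(fderiv ℝ (fun y => f y) x).det| = 1 := by
    intro x
    have := hv x
    unfold jac at this
    rw [this]
    simp
  rw [← h1]
  simp [h2]

theorem volume_preimage_of_vol {f : Equiv.Perm E3} (hd : IsDif f) (hv : Vol f) {A : Set E3}
    (hA : MeasurableSet A) : volume (f ⁻¹' A) = volume A := by
  have h1 : Measurable (fun x => f x) := hd.1.continuous.measurable
  have h2 := volume_image_of_vol hd hv (h1 hA)
  have h3 : f '' ((fun x => f x) ⁻¹' A) = A := image_preimage_eq A f.surjective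
  rw [h3] at h2
  exact h2.symm

/-- the coordinate is continuous off the pole -/
theorem continuousOn_Ps_S3 : ContinuousOn (fun y : S3 => Ps (y : E4)) {y | y ≠ qp} :=
  contDiffOn_Ps.continuousOn.comp continuous_subtype_val.continuousOn fun y hy =>
    (mem_Om_iff y).2 hy

theorem isOpen_ne_qp : IsOpen {y : S3 | y ≠ qp} := isOpen_ne

theorem contOn_tS : ContinuousOn tS Cube :=
  continuousOn_iff_continuous_domRestrict.2 <| by
    have h1 := continuousOn_iff_continuous_domRestrict.1 contDiffOn_Th.continuousOn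
    exact Continuous.subtype_mk h1 _

/-- the image under `tS` of a subset of the cube, in terms of `Ps` -/
theorem tS_image_eq {A : Set E3} (hA : A ⊆ Cube) :
    tS '' A = {y : S3 | y ≠ qp} ∩ (fun y : S3 => Ps (y : E4)) ⁻¹' A := by
  ext y
  constructor
  · rintro ⟨u, hu, rfl⟩
    refine ⟨tS_ne u, ?_⟩
    show Ps (tS u : E4) ∈ A
    rw [Ps_tS (hA hu)]
    exact hu
  · rintro ⟨h1, h2⟩
    exact ⟨Ps (y : E4), h2, tS_Ps h1⟩

theorem measurableSet_tS_image {A : Set E3} (hA : MeasurableSet A) (hAC : A ⊆ Cube) :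
    MeasurableSet (tS '' A) :=
  hA.image_of_continuousOn_injOn (contOn_tS.mono hAC) (tS_injOn.mono hAC)

theorem measurableSet_tS_preimage {B : Set S3} (hB : MeasurableSet B) :
    MeasurableSet (Cube ∩ tS ⁻¹' B) := by
  have h1 : Measurable (Cube.domRestrict tS) := (continuousOn_iff_continuous_domRestrict.1
    contOn_tS).measurable
  have h2 := (MeasurableEmbedding.subtype_coe isOpen_Cube.measurableSet).measurableSet_image.2
    (h1 hB)
  have h3 : Cube ∩ tS ⁻¹' B = Subtype.val '' (Cube.domRestrict tS ⁻¹' B) := by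
    ext u
    simp [and_comm]
  rw [h3]
  exact h2

/-- the measure of a set is determined by its trace on the chart -/
theorem muS_eq {B : Set S3} (hB : MeasurableSet B) :
    muS B = ENNReal.ofReal (2 * Real.pi ^ 2) * volume (Cube ∩ tS ⁻¹' B) := by
  have h1 : tS '' (Cube ∩ tS ⁻¹' B) = B \ {qp} := by
    ext y
    constructor
    · rintro ⟨u, ⟨hu, h2⟩, rfl⟩
      exact ⟨h2, tS_ne u⟩
    · rintro ⟨h2, h3⟩
      refine ⟨Ps (y : E4), ⟨Ps_mem _, ?_⟩, tS_Ps h3⟩
      show tS (Ps (y : E4)) ∈ B
      rw [tS_Ps h3]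
      exact h2
  rw [← toSphere_Th (measurableSet_tS_preimage hB) inter_subset_left, h1]
  exact (measure_sdiff_null muS_qp).symm

/-- `push f` preserves the measure of the sphere -/
theorem measurePreserving_push {f : Equiv.Perm E3} (hd : IsDif f) (hv : Vol f)
    (hf : IdOff Cube f) (hm : Measurable (fun y => push f y)) :
    MeasurePreserving (fun y => push f y) muS muS := by
  refine ⟨hm, ?_⟩
  ext B hB
  rw [Measure.map_apply hm hB, muS_eq (hm hB), muS_eq hB]
  congr 1
  have h1 : Cube ∩ tS ⁻¹' ((fun y => push f y) ⁻¹' B) = (fun x => f x) ⁻¹' (Cube ∩ tS ⁻¹' B) := by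
    ext u
    simp only [mem_inter_iff, mem_preimage]
    rw [hf.apply_mem_iff]
    constructor
    · rintro ⟨hu, h⟩
      rw [push_tS hf hu] at h
      exact ⟨hu, h⟩
    · rintro ⟨hu, h⟩
      refine ⟨hu, ?_⟩
      rw [push_tS hf hu]
      exact h
  rw [h1]
  exact volume_preimage_of_vol hd hv (measurableSet_tS_preimage hB)

end Pool.Agent.QM59
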