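import Pool.Agent.Lib.MP_decea1_gt_F.Defs

/-!
# MP_decea1_gt, block F: one-dimensional distribution functions

`Cdf F`: `F : ℝ → ℝ` is smooth, has positive derivative and tends to `0` and `1` at `∓∞`.
Such a function is a bijection of `ℝ` onto `(0,1)` with smooth inverse (`Cdf.inv`).
The three functions `F1, F2, F3` with derivatives `(2/π)(1+s²)^(-2)`, `(3/4)(1+s²)^(-5/2)`,
`(8/(3π))(1+s²)^(-3)`.
-/

set_option autoImplicit false
open Set Filter Topology
open scoped ContDiff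

namespace Pool.Agent.QM59

structure Cdf (F : ℝ → ℝ) : Prop where
  smooth : ContDiff ℝ ∞ F
  pos : ∀ s, 0 < deriv F s
  bot : Tendsto F atBot (𝓝 0)
  top : Tendsto F atTop (𝓝 1)

namespace Cdf

variable {F : ℝ → ℝ} (h : Cdf F)
include h

theorem strictMono : StrictMono F := strictMono_of_deriv_pos h.pos

theorem lt_one (s : ℝ) : F s < 1 := by
  have h1 : F (s + 1) ≤ 1 := h.strictMono.monotone.ge_of_tendsto h.top (s + 1)
  exact (h.strictMono (by linarith)).trans_le h1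

theorem zero_lt (s : ℝ) : 0 < F s := by
  have h1 : 0 ≤ F (s - 1) := h.strictMono.monotone.le_of_tendsto h.bot (s - 1)
  exact h1.trans_lt (h.strictMono (by linarith))

theorem mem (s : ℝ) : F s ∈ Ioo (0:ℝ) 1 := ⟨h.zero_lt s, h.lt_one s⟩

theorem exists_eq {u : ℝ} (hu : u ∈ Ioo (0:ℝ) 1) : ∃ s, F s = u := by
  have h1 : ∃ a, F a < u := ((h.bot.eventually (gt_mem_nhds hu.1))).exists
  have h2 : ∃ b, u < F b := ((h.top.eventually (lt_mem_nhds hu.2))).exists
  obtain ⟨a, ha⟩ := h1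
  obtain ⟨b, hb⟩ := h2
  exact mem_range_of_exists_le_of_exists_ge h.smooth.continuous ⟨a, ha.le⟩ ⟨b, hb.le⟩

end Cdf

namespace Cdf

variable {F : ℝ → ℝ} (h : Cdf F)
include h

theorem cinv_apply (s : ℝ) : cinv F (F s) = s :=
  Function.leftInverse_invFun h.strictMono.injective s

theorem apply_cinv {u : ℝ} (hu : u ∈ Ioo (0:ℝ) 1) : F (cinv F u) = u :=
  Function.invFun_eq (h.exists_eq hu)

theorem contDiffAt_cinv {u : ℝ} (hu : u ∈ Ioo (0:ℝ) 1) : ContDiffAt ℝ ∞ (cinv F) u := by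
  obtain ⟨s, rfl⟩ := h.exists_eq hu
  have hd : HasDerivAt F (deriv F s) s :=
    (h.smooth.differentiable (by simp)).differentiableAt.hasDerivAt
  have hne : deriv F s ≠ 0 := (h.pos s).ne'
  have hF : ContDiffAt ℝ ∞ F s := h.smooth.contDiffAt
  let f' : ℝ ≃L[ℝ] ℝ := ContinuousLinearEquiv.unitsEquivAut ℝ (Units.mk0 _ hne)
  have hf' : HasFDerivAt F (f' : ℝ →L[ℝ] ℝ) s := by
    have h0 := hd.hasFDerivAt
    have h1 : (f' : ℝ →L[ℝ] ℝ) = ContinuousLinearMap.toSpanSingleton ℝ (deriv F s) := by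
      ext
      simp [f']
    rw [h1]
    exact h0
  have h1 := hF.to_localInverse (f' := f') hf' (by simp)
  have h2 : cinv F =ᶠ[𝓝 (F s)] hF.localInverse hf' (by simp) := by
    have h3 : ∀ᶠ y in 𝓝 (F s), F (hF.localInverse hf' (by simp) y) = y :=
      (hF.hasStrictFDerivAt' hf' (by simp)).eventually_right_inverse
    filter_upwards [h3] with y hy
    conv_lhs => rw [← hy]
    exact h.cinv_apply _
  exact h1.congr_of_eventuallyEq h2

theorem contDiffOn_cinv : ContDiffOn ℝ ∞ (cinv F) (Ioo 0 1) := fun _ hu =>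
  (h.contDiffAt_cinv hu).contDiffWithinAt

end Cdf

/-! ### The three functions -/

open Real

theorem one_add_sq_pos (s : ℝ) : 0 < 1 + s ^ 2 := by positivity

theorem hasDerivAt_F1 (s : ℝ) : HasDerivAt F1 (2 / π * ((1 + s ^ 2) ^ 2)⁻¹) s := by
  have h0 : (1 + s ^ 2) ≠ 0 := (one_add_sq_pos s).ne'
  have h1 : HasDerivAt (fun s : ℝ => 1 + s ^ 2) (2 * s) s := by
    simpa using (hasDerivAt_pow 2 s).const_add 1
  have h2 : HasDerivAt (fun s : ℝ => s / (1 + s ^ 2)) ((1 * (1 + s ^ 2) - s * (2 * s)) /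
    (1 + s ^ 2) ^ 2) s := (hasDerivAt_id s).div h1 h0
  have h3 := (((hasDerivAt_arctan s).add h2).const_mul π⁻¹).const_add (1 / 2)
  refine h3.congr_deriv ?_
  field_simp
  ring

theorem hasDerivAt_F3 (s : ℝ) : HasDerivAt F3 (8 / (3 * π) * ((1 + s ^ 2) ^ 3)⁻¹) s := by
  have h0 : (1 + s ^ 2) ≠ 0 := (one_add_sq_pos s).ne'
  have h1 : HasDerivAt (fun s : ℝ => 1 + s ^ 2) (2 * s) s := by
    simpa using (hasDerivAt_pow 2 s).const_add 1
  have h2 : HasDerivAt (fun s : ℝ => s / (1 + s ^ 2)) ((1 * (1 + s ^ 2) - s * (2 * s)) /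
    (1 + s ^ 2) ^ 2) s := (hasDerivAt_id s).div h1 h0
  have h4 : HasDerivAt (fun s : ℝ => (1 + s ^ 2) ^ 2) (2 * (1 + s ^ 2) * (2 * s)) s := by
    have := h1.fun_pow 2
    simpa using this
  have h5 : HasDerivAt (fun s : ℝ => s / (1 + s ^ 2) ^ 2)
    ((1 * (1 + s ^ 2) ^ 2 - s * (2 * (1 + s ^ 2) * (2 * s))) / ((1 + s ^ 2) ^ 2) ^ 2) s :=
    (hasDerivAt_id s).div h4 (by positivity)
  have h3 := ((((hasDerivAt_arctan s).add h2).add (h5.const_mul (2 / 3))).const_mul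
    π⁻¹).const_add (1 / 2)
  refine h3.congr_deriv ?_
  field_simp
  ring

theorem hasDerivAt_F2 (s : ℝ) :
    HasDerivAt F2 (3 / 4 * ((1 + s ^ 2) ^ 2 * √(1 + s ^ 2))⁻¹) s := by
  have h0 : 0 < (1 + s ^ 2) := (one_add_sq_pos s)
  have hs : √(1 + s ^ 2) ^ 2 = 1 + s ^ 2 := sq_sqrt h0.le
  have hs0 : √(1 + s ^ 2) ≠ 0 := (sqrt_pos.2 h0).ne'
  have h1 : HasDerivAt (fun s : ℝ => 1 + s ^ 2) (2 * s) s := by
    simpa using (hasDerivAt_pow 2 s).const_add 1
  have h2 : HasDerivAt (fun s : ℝ => √(1 + s ^ 2)) (2 * s / (2 * √(1 + s ^ 2))) s :=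
    h1.sqrt h0.ne'
  have h3 : HasDerivAt (fun s : ℝ => s / √(1 + s ^ 2))
    ((1 * √(1 + s ^ 2) - s * (2 * s / (2 * √(1 + s ^ 2)))) / √(1 + s ^ 2) ^ 2) s :=
    (hasDerivAt_id s).div h2 hs0
  have h4 := ((h3.sub ((h3.pow 3).div_const 3)).const_mul (3 / 4)).const_add (1 / 2)
  refine h4.congr_deriv ?_
  generalize √(1 + s ^ 2) = r at hs hs0
  have h6 : s ^ 2 = r ^ 2 - 1 := by linarith
  rw [show (1 + s ^ 2) ^ 2 * r = r ^ 5 by rw [h6]; ring]
  have h7 : (3:ℕ) - 1 = 2 := rfl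
  rw [h7]
  push_cast
  rw [div_pow]
  field_simp
  rw [h6]
  ring

theorem tendsto_div_one_add_sq_atTop : Tendsto (fun s : ℝ => s / (1 + s ^ 2)) atTop (𝓝 0) := by
  have h1 : Tendsto (fun s : ℝ => s⁻¹) atTop (𝓝 0) := tendsto_inv_atTop_zero
  refine squeeze_zero' ?_ ?_ h1
  · filter_upwards [eventually_gt_atTop (0:ℝ)] with s hs
    positivity
  · filter_upwards [eventually_gt_atTop (0:ℝ)] with s hs
    rw [div_le_iff₀ (one_add_sq_pos s)]
    have : s⁻¹ * (1 + s ^ 2) = s⁻¹ + s := by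
      field_simp
    rw [this]
    have := inv_pos.2 hs
    linarith

private theorem cdf_bot_of_sym {F : ℝ → ℝ} (hs : ∀ s, F (-s) = 1 - F s)
    (ht : Tendsto F atTop (𝓝 1)) : Tendsto F atBot (𝓝 0) := by
  have h1 : Tendsto (fun s : ℝ => 1 - F (-s)) atBot (𝓝 (1 - 1)) :=
    (ht.comp tendsto_neg_atBot_atTop).const_sub 1
  rw [sub_self] at h1
  refine h1.congr fun s => ?_
  rw [hs]
  ring

private theorem cdf_arctan_top : Tendsto arctan atTop (𝓝 (π / 2)) :=
  tendsto_arctan_atTop.mono_right nhdsWithin_le_nhds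

private theorem cdf_div_sqrt_top : Tendsto (fun s : ℝ => s / √(1 + s ^ 2)) atTop (𝓝 1) := by
  have h1 : Tendsto (fun s : ℝ => s⁻¹) atTop (𝓝 0) := tendsto_inv_atTop_zero
  have h2 : Continuous fun t : ℝ => (√(1 + t ^ 2))⁻¹ := by
    refine Continuous.inv₀ (by fun_prop) fun t => ?_
    exact (sqrt_pos.2 (one_add_sq_pos t)).ne'
  have h3 := (h2.tendsto 0).comp h1
  have h4 : (√(1 + (0:ℝ) ^ 2))⁻¹ = 1 := by simp
  rw [h4] at h3
  refine h3.congr' ?_
  filter_upwards [eventually_gt_atTop (0:ℝ)] with s hs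
  have h5 : 1 + s⁻¹ ^ 2 = (1 + s ^ 2) / s ^ 2 := by
    field_simp
    ring
  simp only [Function.comp_apply]
  rw [h5, sqrt_div (one_add_sq_pos s).le, sqrt_sq hs.le, inv_div]

theorem cdf_F1 : Cdf F1 := by
  have ht : Tendsto F1 atTop (𝓝 1) := by
    have h1 := ((cdf_arctan_top.add tendsto_div_one_add_sq_atTop).const_mul π⁻¹).const_add
      (1 / 2 : ℝ)
    have h2 : 1 / 2 + π⁻¹ * (π / 2 + 0) = 1 := by
      field_simp
      ring
    rw [h2] at h1
    exact h1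
  refine ⟨?_, fun s => ?_, cdf_bot_of_sym (fun s => ?_) ht, ht⟩
  · exact contDiff_const.add (contDiff_const.mul (contDiff_arctan.add (contDiff_id.div
      (contDiff_const.add (contDiff_id.pow 2)) fun s => (one_add_sq_pos s).ne')))
  · rw [(hasDerivAt_F1 s).deriv]
    have := one_add_sq_pos s
    positivity
  · unfold F1
    rw [arctan_neg, neg_sq, neg_div]
    ring

theorem cdf_F2 : Cdf F2 := by
  have ht : Tendsto F2 atTop (𝓝 1) := by
    have h1 := ((cdf_div_sqrt_top.sub ((cdf_div_sqrt_top.pow 3).div_const 3)).const_mul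
      (3 / 4 : ℝ)).const_add (1 / 2 : ℝ)
    have h2 : (1 / 2 : ℝ) + 3 / 4 * (1 - 1 ^ 3 / 3) = 1 := by norm_num
    rw [h2] at h1
    exact h1
  refine ⟨?_, fun s => ?_, cdf_bot_of_sym (fun s => ?_) ht, ht⟩
  · have h1 : ContDiff ℝ ∞ fun s : ℝ => s / √(1 + s ^ 2) :=
      contDiff_id.div ((contDiff_const.add (contDiff_id.pow 2)).sqrt fun s =>
        (one_add_sq_pos s).ne') fun s => (sqrt_pos.2 (one_add_sq_pos s)).ne'
    exact contDiff_const.add (contDiff_const.mul (h1.sub ((h1.pow 3).div_const 3)))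
  · rw [(hasDerivAt_F2 s).deriv]
    have := one_add_sq_pos s
    positivity
  · unfold F2
    rw [neg_sq, neg_div]
    ring

theorem cdf_F3 : Cdf F3 := by
  have h0 : Tendsto (fun s : ℝ => s / (1 + s ^ 2) ^ 2) atTop (𝓝 0) := by
    refine squeeze_zero' ?_ ?_ tendsto_div_one_add_sq_atTop
    · filter_upwards [eventually_gt_atTop (0:ℝ)] with s hs
      positivity
    · filter_upwards [eventually_gt_atTop (0:ℝ)] with s hs
      refine div_le_div_of_nonneg_left hs.le (one_add_sq_pos s) ?_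
      nlinarith [one_add_sq_pos s, sq_nonneg s]
  have ht : Tendsto F3 atTop (𝓝 1) := by
    have h1 := (((cdf_arctan_top.add tendsto_div_one_add_sq_atTop).add
      (h0.const_mul (2 / 3 : ℝ))).const_mul π⁻¹).const_add (1 / 2 : ℝ)
    have h2 : 1 / 2 + π⁻¹ * (π / 2 + 0 + 2 / 3 * 0) = 1 := by
      field_simp
      ring
    rw [h2] at h1
    exact h1
  refine ⟨?_, fun s => ?_, cdf_bot_of_sym (fun s => ?_) ht, ht⟩
  · have h1 : ContDiff ℝ ∞ fun s : ℝ => s / (1 + s ^ 2) :=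
      contDiff_id.div (contDiff_const.add (contDiff_id.pow 2)) fun s => (one_add_sq_pos s).ne'
    have h2 : ContDiff ℝ ∞ fun s : ℝ => s / (1 + s ^ 2) ^ 2 :=
      contDiff_id.div ((contDiff_const.add (contDiff_id.pow 2)).pow 2) fun s =>
        (pow_pos (one_add_sq_pos s) 2).ne'
    exact contDiff_const.add (contDiff_const.mul ((contDiff_arctan.add h1).add
      (contDiff_const.mul h2)))
  · rw [(hasDerivAt_F3 s).deriv]
    have := one_add_sq_pos s
    positivity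
  · unfold F3
    rw [arctan_neg, neg_sq, neg_div, neg_div]
    ring

end Pool.Agent.QM59
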