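import Pool.Agent.Lib.MP_decea1_gt_F.Defs

/-!
# MP_decea1_gt, block F: maps into the sphere are smooth iff they are smooth as maps into `E4`
-/

set_option autoImplicit false
open Set Filter Topology Metric
open scoped ContDiff Manifold

namespace Pool.Agent.QM59

variable {F : Type*} [NormedAddCommGroup F] [NormedSpace ℝ F]
variable {H : Type*} [TopologicalSpace H] {I : ModelWithCorners ℝ F H}
variable {M : Type*} [TopologicalSpace M] [ChartedSpace H M]

theorem contMDiffAt_coe {f : M → S3} {x : M} (hf : ContMDiffAt I (𝓡 3) smo f x) :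
    ContMDiffAt I 𝓘(ℝ, E4) smo (fun y => (f y : E4)) x :=
  (contMDiff_coe_sphere (f x)).comp x hf

theorem contMDiffAt_of_coe {f : M → S3} {x : M}
    (hf : ContMDiffAt I 𝓘(ℝ, E4) smo (fun y => (f y : E4)) x) :
    ContMDiffAt I (𝓡 3) smo f x := by
  rw [contMDiffAt_iff_target]
  refine ⟨?_, ?_⟩
  · exact Topology.IsInducing.subtypeVal.continuousAt_iff.2 hf.continuousAt
  · let U := (OrthonormalBasis.fromOrthogonalSpanSingleton (𝕜 := ℝ) 3
      (ne_zero_of_mem_unit_sphere (-(f x)))).repr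
    have h1 : ContDiffAt ℝ smo (stereoToFun ((-(f x) : S3) : E4)) (f x : E4) := by
      refine (contDiffOn_stereoToFun (n := smo)).contDiffAt ?_
      have hc : Continuous (fun y : E4 => innerSL ℝ ((-(f x) : S3) : E4) y) :=
        (innerSL ℝ ((-(f x) : S3) : E4)).continuous
      refine (isOpen_ne.preimage hc).mem_nhds ?_
      have h3 : ‖(f x : E4)‖ = 1 := by simp
      simp only [mem_preimage, mem_ofPred_eq, innerSL_apply_apply, coe_neg_sphere, inner_neg_left,
        real_inner_self_eq_norm_sq, h3]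
      norm_num
    have h2 : ContDiffAt ℝ smo (fun y : E4 => U (stereoToFun ((-(f x) : S3) : E4) y))
        (f x : E4) := U.contDiff.contDiffAt.comp _ h1
    exact ContMDiffAt.comp (g := fun y : E4 => U (stereoToFun ((-(f x) : S3) : E4) y)) x
      h2.contMDiffAt hf

theorem contMDiffAt_iff_coe {f : M → S3} {x : M} : ContMDiffAt I (𝓡 3) smo f x ↔
    ContMDiffAt I 𝓘(ℝ, E4) smo (fun y => (f y : E4)) x := ⟨contMDiffAt_coe, contMDiffAt_of_coe⟩

theorem contMDiff_iff_coe {f : M → S3} : ContMDiff I (𝓡 3) smo f ↔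
    ContMDiff I 𝓘(ℝ, E4) smo (fun y => (f y : E4)) :=
  forall_congr' fun _ => contMDiffAt_iff_coe

theorem contMDiffAt_coe_S3 (y : S3) : ContMDiffAt (𝓡 3) 𝓘(ℝ, E4) smo (fun y : S3 => (y : E4)) y :=
  contMDiff_coe_sphere y

end Pool.Agent.QM59
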