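import Pool.Agent.Lib.MP_decea1_gt_F.Defs

/-!
# MP_decea1_gt, block F: stereographic projection from the north pole
-/

set_option autoImplicit false
open Set Filter Topology MeasureTheory
open scoped ContDiff

namespace Pool.Agent.QM59

theorem nq_nonneg (x : E3) : 0 ≤ nq x := by unfold nq; positivity

theorem one_add_nq_pos (x : E3) : 0 < 1 + nq x := by unfold nq; positivity

private theorem Stereo_norm_sq (v : E4) :
    ‖v‖ ^ 2 = v 0 ^ 2 + v 1 ^ 2 + v 2 ^ 2 + v 3 ^ 2 := by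
  rw [EuclideanSpace.norm_sq_eq, Fin.sum_univ_four]
  simp only [Real.norm_eq_abs, sq_abs]

theorem isOpen_Om : IsOpen Om := by
  have h1 : Continuous fun v : E4 => v 3 := by fun_prop
  exact isOpen_lt h1 continuous_norm

theorem norm_sub_pos {v : E4} (hv : v ∈ Om) : 0 < ‖v‖ - v 3 := sub_pos.2 hv

theorem ne_zero_of_mem_Om {v : E4} (hv : v ∈ Om) : v ≠ 0 := by
  rintro rfl
  simp [Om] at hv

theorem sig_mem_Om (x : E3) : sig x ∈ Om := by
  have h0 := one_add_nq_pos x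
  have h1 : sig x 3 = 1 - 2 / (1 + nq x) := by simp [sig]
  change sig x 3 < ‖sig x‖
  rw [norm_sig, h1]
  have h2 : 0 < 2 / (1 + nq x) := by positivity
  linarith

theorem st_sig (x : E3) : st (sig x) = x := by
  have h0 := one_add_nq_pos x
  have h3 : sig x 3 = 1 - 2 / (1 + nq x) := by simp [sig]
  have g0 : sig x 0 = 2 * x 0 / (1 + nq x) := by simp [sig]
  have g1 : sig x 1 = 2 * x 1 / (1 + nq x) := by simp [sig]
  have g2 : sig x 2 = 2 * x 2 / (1 + nq x) := by simp [sig]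
  have hd : ‖sig x‖ - sig x 3 = 2 / (1 + nq x) := by
    rw [norm_sig, h3]
    ring
  have hq : ∀ t : ℝ, 2 * t / (1 + nq x) / (2 / (1 + nq x)) = t := by
    intro t
    field_simp
  funext i
  unfold st
  rw [hd, g0, g1, g2, hq, hq, hq]
  fin_cases i <;> rfl

/-- the square of the Euclidean norm of the stereographic projection -/
theorem nq_st {v : E4} (hv : v ∈ Om) : nq (st v) = (‖v‖ + v 3) / (‖v‖ - v 3) := by
  have h0 := norm_sub_pos hv
  have h1 := Stereo_norm_sq v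
  have e0 : st v 0 = v 0 / (‖v‖ - v 3) := rfl
  have e1 : st v 1 = v 1 / (‖v‖ - v 3) := rfl
  have e2 : st v 2 = v 2 / (‖v‖ - v 3) := rfl
  unfold nq
  rw [e0, e1, e2, div_pow, div_pow, div_pow, ← add_div, ← add_div, div_eq_div_iff (by positivity)
    h0.ne']
  have h2 : v 0 ^ 2 + v 1 ^ 2 + v 2 ^ 2 = (‖v‖ + v 3) * (‖v‖ - v 3) := by linear_combination -h1
  rw [h2]
  ring

theorem sig_st {v : E4} (hv : v ∈ Om) : sig (st v) = ‖v‖⁻¹ • v := by
  have h0 := norm_sub_pos hv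
  have hn : 0 < ‖v‖ := norm_pos_iff.2 (ne_zero_of_mem_Om hv)
  have h1 : 1 + nq (st v) = 2 * ‖v‖ / (‖v‖ - v 3) := by
    rw [nq_st hv]
    field_simp
    ring
  have e0 : st v 0 = v 0 / (‖v‖ - v 3) := rfl
  have e1 : st v 1 = v 1 / (‖v‖ - v 3) := rfl
  have e2 : st v 2 = v 2 / (‖v‖ - v 3) := rfl
  have hq : ∀ t : ℝ, 2 * (t / (‖v‖ - v 3)) / (2 * ‖v‖ / (‖v‖ - v 3)) = ‖v‖⁻¹ * t := by
    intro t
    field_simp
  have hq3 : 1 - 2 / (2 * ‖v‖ / (‖v‖ - v 3)) = ‖v‖⁻¹ * v 3 := by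
    field_simp
    ring
  unfold sig
  rw [h1, e0, e1, e2, hq, hq, hq, hq3]
  ext i
  fin_cases i <;> rfl

theorem smul_mem_Om {v : E4} {r : ℝ} (hr : 0 < r) (hv : v ∈ Om) : r • v ∈ Om := by
  change (r • v) 3 < ‖r • v‖
  rw [norm_smul, Real.norm_of_nonneg hr.le]
  exact mul_lt_mul_of_pos_left hv hr

theorem st_smul {v : E4} {r : ℝ} (hr : 0 < r) : st (r • v) = st v := by
  have hn : ‖r • v‖ = r * ‖v‖ := by rw [norm_smul, Real.norm_of_nonneg hr.le]
  have hc : ∀ i : Fin 4, (r • v) i = r * v i := fun i => rfl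
  have hq : ∀ i : Fin 4, r * v i / (r * ‖v‖ - r * v 3) = v i / (‖v‖ - v 3) := by
    intro i
    rw [← mul_sub, mul_div_mul_left _ _ hr.ne']
  unfold st
  rw [hn, hc, hc, hc, hc, hq, hq, hq]

/-- a point of the sphere is in `Om` iff it is not the north pole -/
theorem mem_Om_iff (y : S3) : (y : E4) ∈ Om ↔ y ≠ qp := by
  have hy : ‖(y : E4)‖ = 1 := mem_sphere_zero_iff_norm.1 y.2
  have hs := Stereo_norm_sq (y : E4)
  rw [hy] at hs
  constructor
  · rintro h rfl
    have h1 : (qp : E4) 3 < ‖(qp : E4)‖ := h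
    rw [hy, qp_apply] at h1
    simp at h1
  · intro h
    by_contra hc
    have h1 : ¬ ((y : E4) 3 < ‖(y : E4)‖) := hc
    rw [hy, not_lt] at h1
    have h3 : (y : E4) 3 = 1 := by
      nlinarith [sq_nonneg ((y : E4) 0), sq_nonneg ((y : E4) 1), sq_nonneg ((y : E4) 2)]
    rw [h3] at hs
    have s0 := sq_nonneg ((y : E4) 0)
    have s1 := sq_nonneg ((y : E4) 1)
    have s2 := sq_nonneg ((y : E4) 2)
    have h0 : (y : E4) 0 = 0 := pow_eq_zero_iff (two_ne_zero) |>.1 (by linarith)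
    have h1' : (y : E4) 1 = 0 := pow_eq_zero_iff (two_ne_zero) |>.1 (by linarith)
    have h2 : (y : E4) 2 = 0 := pow_eq_zero_iff (two_ne_zero) |>.1 (by linarith)
    refine h (Subtype.ext ?_)
    ext i
    rw [qp_apply]
    fin_cases i
    · exact h0
    · exact h1'
    · exact h2
    · exact h3

theorem contDiff_sig : ContDiff ℝ smo sig := by
  have hc : ∀ i : Fin 3, ContDiff ℝ smo fun x : E3 => x i := fun i => contDiff_apply ℝ ℝ i
  have hq : ContDiff ℝ smo fun x : E3 => 1 + nq x := by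
    unfold nq
    exact contDiff_const.add ((((hc 0).pow 2).add ((hc 1).pow 2)).add ((hc 2).pow 2))
  have hne : ∀ x : E3, 1 + nq x ≠ 0 := fun x => (one_add_nq_pos x).ne'
  have hd : ∀ i : Fin 3, ContDiff ℝ smo fun x : E3 => 2 * x i / (1 + nq x) := fun i =>
    (contDiff_const.mul (hc i)).div hq hne
  rw [contDiff_euclidean]
  intro i
  fin_cases i
  · exact hd 0
  · exact hd 1
  · exact hd 2
  · exact contDiff_const.sub (contDiff_const.div hq hne)

theorem contDiffOn_st : ContDiffOn ℝ smo st Om := by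
  have hc : ∀ i : Fin 4, ContDiff ℝ smo fun v : E4 => v i := fun i => by fun_prop
  intro v hv
  have hn : ContDiffAt ℝ smo (fun v : E4 => ‖v‖) v := contDiffAt_norm ℝ (ne_zero_of_mem_Om hv)
  have hd : ContDiffAt ℝ smo (fun v : E4 => ‖v‖ - v 3) v := hn.sub (hc 3).contDiffAt
  have hq : ∀ i : Fin 4, ContDiffAt ℝ smo (fun v : E4 => v i / (‖v‖ - v 3)) v := fun i =>
    (hc i).contDiffAt.div hd (norm_sub_pos hv).ne'
  refine ContDiffAt.contDiffWithinAt ?_
  rw [contDiffAt_pi]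
  intro i
  fin_cases i
  · exact hq 0
  · exact hq 1
  · exact hq 2

end Pool.Agent.QM59
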